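import Pool.Agent.Lib_helper54.DS.Defs
import Pool.Agent.Lib_helper41.HZF.SFE
import Pool.Agent.Lib_helper41.HZF.LAM2
import Pool.Agent.Lib_helper41.HZF.INF

/-!
# MP_ef641d_nt, block AEB
-/

set_option autoImplicit false

namespace Pool.Agent.DS

open Polynomial NumberField

section AEB

variable (E : Type) [Field E] [NumberField E]

theorem aeb_finite (n : ℕ) : Finite {I : Ideal (𝓞 E) // Ideal.absNorm I = n} := by
  have h := Ideal.finite_setOfPred_absNorm_eq (S := 𝓞 E) n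
  exact h.to_subtype

/-- AEB -/
theorem aE_le {p : ℕ} (hp : p.Prime) : aE E p ≤ Module.finrank ℚ E := by
  classical
  have hfin := Ideal.finite_setOfPred_absNorm_eq (S := 𝓞 E) p
  set s : Finset (Ideal (𝓞 E)) := hfin.toFinset with hs
  have hmem : ∀ I ∈ s, Ideal.absNorm I = p := by
    intro I hI
    simpa [hs] using hI
  have hcard : aE E p = s.card := by
    unfold aE
    rw [← Nat.card_eq_card_finite_toFinset hfin]
    rfl
  have hprime : ∀ I ∈ s, Prime I := by
    intro I hI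
    have h1 := hmem I hI
    have h2 : I.IsPrime := Ideal.isPrime_of_irreducible_absNorm (by rw [h1]; exact hp)
    have h3 : I ≠ ⊥ := by
      rintro rfl
      rw [Ideal.absNorm_bot] at h1
      exact hp.ne_zero h1.symm
    exact (Ideal.prime_iff_isPrime h3).2 h2
  have hdvd : ∀ I ∈ s, I ∣ Ideal.span {(p : 𝓞 E)} := by
    intro I hI
    rw [Ideal.dvd_span_singleton]
    have := Ideal.absNorm_mem I
    rwa [hmem I hI] at this
  have hprod : ∏ I ∈ s, I ∣ Ideal.span {(p : 𝓞 E)} :=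
    Finset.prod_primes_dvd _ hprime hdvd
  have h1 := map_dvd (Ideal.absNorm : Ideal (𝓞 E) →*₀ ℕ) hprod
  rw [map_prod, Finset.prod_congr rfl hmem, Finset.prod_const] at h1
  have h2 : Ideal.absNorm (Ideal.span {(p : 𝓞 E)}) = p ^ Module.finrank ℚ E := by
    rw [Ideal.absNorm_span_singleton, ← RingOfIntegers.rank E]
    have h3 : (p : 𝓞 E) = algebraMap ℤ (𝓞 E) (p : ℤ) := by simp
    rw [h3, Algebra.norm_algebraMap, Int.natAbs_pow, Int.natAbs_natCast]
  rw [h2] at h1
  rw [hcard]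
  exact (Nat.pow_dvd_pow_iff_le_right hp.one_lt).1 h1

/-- AEB -/
theorem aE_pos {p : ℕ} (hp : p.Prime) :
    0 < aE E p ↔ ∃ I : Ideal (𝓞 E), Ideal.absNorm I = p := by
  have := aeb_finite E p
  unfold aE
  rw [Nat.card_pos_iff]
  constructor
  · rintro ⟨⟨I⟩, _⟩
    exact ⟨I.1, I.2⟩
  · rintro ⟨I, hI⟩
    exact ⟨⟨⟨I, hI⟩⟩, inferInstance⟩

/-- AEB -/
theorem aE_summable {s : ℝ} (hs : 1 < s) :
    Summable fun p : Nat.Primes => (aE E p : ℝ) * ((p : ℕ) : ℝ) ^ (-s) := by
  have h1 : Summable (fun p : Nat.Primes => (Module.finrank ℚ E : ℝ) * ((p : ℕ) : ℝ) ^ (-s)) :=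
    (Nat.Primes.summable_rpow.2 (by linarith)).mul_left _
  refine Summable.of_nonneg_of_le (fun p => by positivity) (fun p => ?_) h1
  have h2 : (aE E p : ℝ) ≤ (Module.finrank ℚ E : ℝ) := by exact_mod_cast aE_le E p.2
  exact mul_le_mul_of_nonneg_right h2 (by positivity)

end AEB

end Pool.Agent.DS
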