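import Pool.Agent.Lib_helper54.DS.Defs
import Pool.Agent.Lib_helper41.HZF.SFE
import Pool.Agent.Lib_helper41.HZF.LAM2
import Pool.Agent.Lib_helper41.HZF.INF

/-! Block FRE: Frobenius elements of `Gal(M/E)`. -/

set_option autoImplicit false

namespace Pool.Agent.DS

open NumberField

variable {E M : Type} [Field E] [NumberField E] [Field M] [NumberField M] [Algebra E M]
  [IsGalois E M] {q : ℕ} {ζ : M}

theorem fre (hζ : IsPrimitiveRoot ζ q) (hq : q.Prime) {p : ℕ} (hp : p.Prime) (hpq : p ≠ q)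
    (𝔓 : Ideal (𝓞 M)) (h𝔓 : 𝔓.IsPrime)
    (hn : Ideal.absNorm (𝔓.comap (algebraMap (𝓞 E) (𝓞 M))) = p) :
    ∃ σ : M ≃ₐ[E] M, (∀ x y : 𝓞 M, (y : M) = σ x → y - x ^ p ∈ 𝔓) ∧ σ ζ = ζ ^ p := by
  have hbot : 𝔓 ≠ ⊥ := by
    rintro rfl
    rw [Ideal.comap_bot_of_injective _ (FaithfulSMul.algebraMap_injective (𝓞 E) (𝓞 M)),
      Ideal.absNorm_bot] at hn
    exact hp.ne_zero hn.symm
  have hfin : Finite (𝓞 M ⧸ 𝔓) := Ideal.finiteQuotientOfFreeOfNeBot 𝔓 hbot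
  have hcard : Nat.card (𝓞 E ⧸ 𝔓.under (𝓞 E)) = p := by
    rw [← hn, Ideal.absNorm_apply, Submodule.cardQuot_apply]
  have : FiniteDimensional E M := Module.Finite.of_restrictScalars_finite ℚ E M
  obtain ⟨σ, hσ⟩ := IsArithFrobAt.exists_of_isInvariant (𝓞 E) (M ≃ₐ[E] M) 𝔓
  have hcoe : ∀ x : 𝓞 M, ((σ • x : 𝓞 M) : M) = σ (x : M) := fun x => rfl
  have hpmem : (p : 𝓞 M) ∈ 𝔓 := by
    have h1 := Ideal.absNorm_mem (𝔓.comap (algebraMap (𝓞 E) (𝓞 M)))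
    rw [hn, Ideal.mem_comap, map_natCast] at h1
    exact h1
  have hqmem : (q : 𝓞 M) ∉ 𝔓 := by
    intro h
    apply h𝔓.ne_top
    rw [Ideal.eq_top_iff_one]
    have h1 : IsCoprime (p : ℤ) (q : ℤ) :=
      Nat.isCoprime_iff_coprime.2 ((Nat.coprime_primes hp hq).2 hpq)
    obtain ⟨a, b, hab⟩ := h1
    have h2 : (a : 𝓞 M) * (p : 𝓞 M) + (b : 𝓞 M) * (q : 𝓞 M) = 1 := by
      exact_mod_cast congrArg (Int.cast : ℤ → 𝓞 M) hab
    rw [← h2]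
    exact 𝔓.add_mem (Ideal.mul_mem_left _ _ hpmem) (Ideal.mul_mem_left _ _ h)
  refine ⟨σ, fun x y hxy => ?_, ?_⟩
  · have h1 := hσ x
    rw [hcard] at h1
    have h2 : y = σ • x := by
      apply RingOfIntegers.ext
      rw [hcoe]
      exact hxy
    rw [h2]
    exact h1
  · obtain ⟨z, hz⟩ : ∃ z : 𝓞 M, (z : M) = ζ := ⟨⟨ζ, hζ.isIntegral hq.pos⟩, rfl⟩
    have hz1 : z ^ q = 1 := by
      apply RingOfIntegers.ext
      have h0 : ((z ^ q : 𝓞 M) : M) = (z : M) ^ q := rfl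
      rw [h0, hz, hζ.pow_eq_one]
      rfl
    have h1 := AlgHom.IsArithFrobAt.apply_of_pow_eq_one hσ hz1 hqmem
    rw [hcard] at h1
    have h2 := congrArg (fun t : 𝓞 M => (t : M)) h1
    change ((σ • z : 𝓞 M) : M) = ((z ^ p : 𝓞 M) : M) at h2
    have h0 : ((z ^ p : 𝓞 M) : M) = (z : M) ^ p := rfl
    rw [hcoe, h0, hz] at h2
    exact h2

end Pool.Agent.DS
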