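import Pool.Agent.Lib_helper54.DS.Defs
import Pool.Agent.Lib_helper41.HZF.SFE
import Pool.Agent.Lib_helper41.HZF.LAM2
import Pool.Agent.Lib_helper41.HZF.INF

/-!
# DS, block RAM
-/

set_option autoImplicit false

namespace Pool.Agent.DS

open Polynomial NumberField

/-- RAM -/
theorem ram (L : Type) [Field L] [NumberField L] : ∃ S : Finset ℕ, ∀ p : ℕ, p.Prime → p ∉ S →
    ∀ 𝔓 : Ideal (𝓞 L), 𝔓.IsPrime → (p : 𝓞 L) ∈ 𝔓 → ∀ τ : L ≃ₐ[ℚ] L, Induces 𝔓 1 τ → τ = 1 := by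
  classical
  -- an integer which is moved
  have h1 : ∀ τ : L ≃ₐ[ℚ] L, τ ≠ 1 → ∃ x y : 𝓞 L, (y : L) = τ x ∧ y - x ≠ 0 := by
    intro τ hτ
    obtain ⟨x, hx⟩ : ∃ x : 𝓞 L, τ (x : L) ≠ x := by
      by_contra hcon
      push Not at hcon
      apply hτ
      ext z
      obtain ⟨a, b, hb, rfl⟩ := IsFractionRing.div_surjective (A := 𝓞 L) z
      have ha' := hcon a
      have hb' := hcon b
      rw [map_div₀]
      exact congrArg₂ (· / ·) ha' hb'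
    have hint : IsIntegral ℤ (τ (x : L)) := (RingOfIntegers.isIntegral_coe x).map τ
    refine ⟨x, ⟨τ (x : L), hint⟩, rfl, ?_⟩
    intro h0
    apply hx
    have := congrArg (fun z : 𝓞 L => (z : L)) (sub_eq_zero.mp h0)
    exact this
  choose! x y hy hne using h1
  refine ⟨(Finset.univ.filter fun τ : L ≃ₐ[ℚ] L => τ ≠ 1).biUnion fun τ =>
    (Ideal.absNorm (Ideal.span {y τ - x τ})).primeFactors, ?_⟩
  intro p hp hpS 𝔓 h𝔓 hp𝔓 τ hτ
  by_contra hτ1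
  apply hpS
  rw [Finset.mem_biUnion]
  refine ⟨τ, by simp [hτ1], ?_⟩
  have hN0 : Ideal.absNorm (Ideal.span {y τ - x τ}) ≠ 0 := by
    rw [Ne, Ideal.absNorm_eq_zero_iff, Ideal.span_singleton_eq_bot]
    exact hne τ hτ1
  rw [Nat.mem_primeFactors]
  refine ⟨hp, ?_, hN0⟩
  by_contra hndvd
  have hcop : Nat.Coprime p (Ideal.absNorm (Ideal.span {y τ - x τ})) :=
    (Nat.Prime.coprime_iff_not_dvd hp).mpr hndvd
  have hmem : y τ - x τ ∈ 𝔓 := by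
    have := hτ (x τ) (y τ) (hy τ hτ1)
    rwa [pow_one] at this
  have hNmem : ((Ideal.absNorm (Ideal.span {y τ - x τ}) : ℕ) : 𝓞 L) ∈ 𝔓 := by
    have h2 := Ideal.absNorm_mem (Ideal.span {y τ - x τ})
    exact (Ideal.span_singleton_le_iff_mem (I := 𝔓)).mpr hmem h2
  apply h𝔓.ne_top
  rw [Ideal.eq_top_iff_one]
  have hbez := Nat.gcd_eq_gcd_ab p (Ideal.absNorm (Ideal.span {y τ - x τ}))
  rw [Nat.coprime_iff_gcd_eq_one.mp hcop] at hbez
  have hbez' := congrArg (fun z : ℤ => (z : 𝓞 L)) hbez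
  push_cast at hbez'
  rw [hbez']
  exact 𝔓.add_mem (𝔓.mul_mem_right _ hp𝔓) (𝔓.mul_mem_right _ hNmem)

end Pool.Agent.DS
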