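import Pool.Agent.Lib_helper54.DS.Defs
import Pool.Agent.Lib_helper41.HZF.SFE
import Pool.Agent.Lib_helper41.HZF.LAM2
import Pool.Agent.Lib_helper41.HZF.INF
import Pool.Agent.Lib_helper54.DSF.AEB
import Pool.Agent.Lib_helper54.DSF.FRE
import Pool.Agent.Lib_helper54.DSF.RAM

/-!
# Block CEN (helper29): counting the primes with a given Frobenius element
-/

set_option autoImplicit false
set_option linter.unusedSectionVars false

namespace Pool.Agent.DS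

open Polynomial NumberField Filter Topology MeasureTheory Pointwise
open Pool.Agent.RS.Main (DirichletGE primeSum BoundedEigenform)

section

variable {M : Type} [Field M] [NumberField M]

theorem cen_coe (x : M ≃ₐ[ℚ] M) (a : 𝓞 M) : ((x • a : 𝓞 M) : M) = x (a : M) := rfl

theorem cen_ind {𝔓 : Ideal (𝓞 M)} {m : ℕ} {g : M ≃ₐ[ℚ] M} :
    Induces 𝔓 m g ↔ ∀ a : 𝓞 M, g • a - a ^ m ∈ 𝔓 := by
  constructor
  · intro h a
    exact h a (g • a) (cen_coe g a)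
  · intro h x y hy
    have : y = g • x := by
      apply RingOfIntegers.ext
      rw [hy, cen_coe]
    rw [this]
    exact h x

theorem cen_conj {𝔓 : Ideal (𝓞 M)} {m : ℕ} {g : M ≃ₐ[ℚ] M} (h : Induces 𝔓 m g)
    (x : M ≃ₐ[ℚ] M) : Induces (x • 𝔓) m (x * g * x⁻¹) := by
  rw [cen_ind] at h ⊢
  intro a
  have h1 : (x * g * x⁻¹) • a - a ^ m = x • (g • (x⁻¹ • a) - (x⁻¹ • a) ^ m) := by
    rw [smul_sub, smul_pow', smul_inv_smul, mul_smul, mul_smul]
  rw [h1]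
  exact (Ideal.smul_mem_pointwise_smul_iff (a := x)).2 (h _)

theorem cen_eq {𝔓 : Ideal (𝓞 M)} {m : ℕ} {g h : M ≃ₐ[ℚ] M} (hg : Induces 𝔓 m g)
    (hh : Induces 𝔓 m h) (hin : ∀ τ : M ≃ₐ[ℚ] M, Induces 𝔓 1 τ → τ = 1) : g = h := by
  rw [cen_ind] at hg hh
  have h1 : g * h⁻¹ = 1 := by
    apply hin
    rw [cen_ind]
    intro b
    have h2 := 𝔓.sub_mem (hg (h⁻¹ • b)) (hh (h⁻¹ • b))
    have h3 : g • h⁻¹ • b - (h⁻¹ • b) ^ m - (h • h⁻¹ • b - (h⁻¹ • b) ^ m)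
        = (g * h⁻¹) • b - b ^ 1 := by
      rw [smul_inv_smul, mul_smul, pow_one]
      ring
    rwa [h3] at h2
  exact mul_inv_eq_one.1 h1

theorem cen_stab {𝔓 : Ideal (𝓞 M)} {m : ℕ} (hm : m ≠ 0) {g : M ≃ₐ[ℚ] M}
    (hg : Induces 𝔓 m g) : ∀ h ∈ Subgroup.zpowers g, h • 𝔓 = 𝔓 := by
  rw [cen_ind] at hg
  have h1 : ∀ a ∈ 𝔓, g • a ∈ 𝔓 := by
    intro a ha
    have := 𝔓.add_mem (hg a) (𝔓.pow_mem_of_mem ha m (Nat.pos_of_ne_zero hm))
    rwa [sub_add_cancel] at this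
  have h2 : ∀ n : ℕ, ∀ a ∈ 𝔓, g ^ n • a ∈ 𝔓 := by
    intro n
    induction n with
    | zero => intro a ha; rwa [pow_zero, one_smul]
    | succ n ih =>
      intro a ha
      rw [pow_succ, mul_smul]
      exact ih _ (h1 a ha)
  have h3 : ∀ h ∈ Subgroup.zpowers g, ∀ a ∈ 𝔓, h • a ∈ 𝔓 := by
    intro h hh a ha
    have hfin : IsOfFinOrder g := isOfFinOrder_of_finite g
    rw [← hfin.mem_powers_iff_mem_zpowers] at hh
    obtain ⟨n, rfl⟩ := hh
    exact h2 n a ha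
  intro h hh
  apply le_antisymm
  · intro b hb
    have : h⁻¹ • b ∈ 𝔓 := by
      rwa [← Ideal.smul_mem_pointwise_smul_iff (a := h), smul_inv_smul]
    have h4 := h3 h hh _ this
    rwa [smul_inv_smul] at h4
  · intro b hb
    have h4 := h3 h⁻¹ (inv_mem hh) b hb
    rw [← Ideal.smul_mem_pointwise_smul_iff (a := h), smul_inv_smul] at h4
    exact h4

theorem cen_under {p : ℕ} (hp : p.Prime) {𝔓 : Ideal (𝓞 M)} (h𝔓 : 𝔓.IsPrime)
    (hmem : (p : 𝓞 M) ∈ 𝔓) : 𝔓.under ℤ = Ideal.span {(p : ℤ)} := by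
  have hmax : (Ideal.span {(p : ℤ)}).IsMaximal :=
    PrincipalIdealRing.isMaximal_of_irreducible (Nat.prime_iff_prime_int.1 hp).irreducible
  symm
  refine hmax.eq_of_le ?_ ?_
  · have : (𝔓.under ℤ).IsPrime := h𝔓.under ℤ
    exact this.ne_top
  · rw [Ideal.span_singleton_le_iff_mem]
    change algebraMap ℤ (𝓞 M) (p : ℤ) ∈ 𝔓
    simpa using hmem

theorem cen_trans [IsGalois ℚ M] {p : ℕ} (hp : p.Prime) {𝔓 𝔔 : Ideal (𝓞 M)} (h𝔓 : 𝔓.IsPrime)
    (h𝔔 : 𝔔.IsPrime) (hP : (p : 𝓞 M) ∈ 𝔓) (hQ : (p : 𝓞 M) ∈ 𝔔) :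
    ∃ x : M ≃ₐ[ℚ] M, x • 𝔓 = 𝔔 := by
  obtain ⟨x, hx⟩ := Algebra.IsInvariant.exists_smul_of_under_eq ℤ (𝓞 M) (M ≃ₐ[ℚ] M) 𝔓 𝔔
    ((cen_under hp h𝔓 hP).trans (cen_under hp h𝔔 hQ).symm)
  exact ⟨x, hx.symm⟩

end

/-- CEN -/
theorem cen {M : Type} [Field M] [NumberField M] [IsGalois ℚ M] {q : ℕ} {ζ : M}
    (hζ : IsPrimitiveRoot ζ q) (hq : q.Prime) (g : M ≃ₐ[ℚ] M)
    (hord : ∀ k : ℤ, (g ^ k) ζ = ζ → g ^ k = 1) (a : ℕ) (ha : g ζ = ζ ^ a) :
    ∃ S : Finset ℕ, ∀ p : ℕ, p.Prime → p ∉ S → (p : ZMod q) = a →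
      aE (IntermediateField.fixedField (Subgroup.zpowers g)) p ≠ 0 →
      p ∈ FrobNF g ∧ orderOf g * aE (IntermediateField.fixedField (Subgroup.zpowers g)) p ≤
        Nat.card (Subgroup.centralizer {g}) := by
  obtain ⟨S, hS⟩ := ram M
  refine ⟨insert q S, fun p hp hpS hpa haE => ?_⟩
  rw [Finset.mem_insert, not_or] at hpS
  obtain ⟨hpq, hpS⟩ := hpS
  set E := IntermediateField.fixedField (Subgroup.zpowers g) with hE
  have hin := hS p hp hpS
  -- the Frobenius elements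
  have hkey : ∀ 𝔓 : Ideal (𝓞 M), 𝔓.IsPrime →
      Ideal.absNorm (𝔓.comap (algebraMap (𝓞 E) (𝓞 M))) = p →
      (p : 𝓞 M) ∈ 𝔓 ∧ Induces 𝔓 p g := by
    intro 𝔓 h𝔓 hn
    constructor
    · have h1 := Ideal.absNorm_mem (𝔓.comap (algebraMap (𝓞 E) (𝓞 M)))
      rw [hn, Ideal.mem_comap, map_natCast] at h1
      exact h1
    · obtain ⟨σ, hσ, hσζ⟩ := fre (E := E) hζ hq hp hpq 𝔓 h𝔓 hn
      have h1 : σ.restrictScalars ℚ ∈ Subgroup.zpowers g := by
        rw [← IntermediateField.fixingSubgroup_fixedField (Subgroup.zpowers g),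
          IntermediateField.mem_fixingSubgroup_iff]
        intro x hx
        exact σ.commutes ⟨x, hx⟩
      obtain ⟨k, hk⟩ := Subgroup.mem_zpowers_iff.1 h1
      have h2 : (g ^ k) ζ = g ζ := by
        rw [hk, ha]
        change σ ζ = ζ ^ a
        rw [hσζ]
        have h3 : p ≡ a [MOD q] := (ZMod.natCast_eq_natCast_iff p a q).1 hpa
        rw [← pow_mod_orderOf ζ p, ← pow_mod_orderOf ζ a, ← hζ.eq_orderOf]
        rw [show p % q = a % q from h3]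
      have h4 : g ^ (k - 1) = 1 := by
        apply hord
        have h5 : g ^ (k - 1) = g⁻¹ * g ^ k := by
          rw [sub_eq_add_neg, add_comm, zpow_add, zpow_neg_one]
        rw [h5, AlgEquiv.mul_apply, h2]
        exact g.symm_apply_apply ζ
      have h6 : g ^ k = g := by
        have h7 : g ^ k = g ^ (k - 1) * g := by
          rw [← zpow_add_one, sub_add_cancel]
        rw [h7, h4, one_mul]
      intro x y hy
      refine hσ x y ?_
      rw [hy, ← h6, hk]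
      rfl
  -- primes above the ideals of norm `p`
  have hex : ∀ I : {I : Ideal (𝓞 E) // Ideal.absNorm I = p}, ∃ 𝔓 : Ideal (𝓞 M), 𝔓.IsPrime ∧
      𝔓.comap (algebraMap (𝓞 E) (𝓞 M)) = I.1 := by
    intro I
    have hIp : I.1.IsPrime := Ideal.isPrime_of_irreducible_absNorm (by rw [I.2]; exact hp)
    obtain ⟨Q, -, hQ, hQI⟩ := Ideal.exists_ideal_over_prime_of_isIntegral (S := 𝓞 M) I.1 ⊥ (by
      rw [← RingHom.ker_eq_comap_bot, (RingHom.injective_iff_ker_eq_bot _).1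
        (FaithfulSMul.algebraMap_injective (𝓞 E) (𝓞 M))]
      exact bot_le)
    exact ⟨Q, hQ, hQI⟩
  choose P hP hPI using hex
  have hPn : ∀ I, Ideal.absNorm ((P I).comap (algebraMap (𝓞 E) (𝓞 M))) = p := fun I => by
    rw [hPI, I.2]
  have hmem : ∀ I, (p : 𝓞 M) ∈ P I := fun I => (hkey _ (hP I) (hPn I)).1
  have hind : ∀ I, Induces (P I) p g := fun I => (hkey _ (hP I) (hPn I)).2
  obtain ⟨I₀, hI₀⟩ := (aE_pos E hp).1 (Nat.pos_of_ne_zero haE)
  set J₀ : {I : Ideal (𝓞 E) // Ideal.absNorm I = p} := ⟨I₀, hI₀⟩ with hJ₀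
  refine ⟨⟨hp, P J₀, hP J₀, hmem J₀, hind J₀, hin (P J₀) (hP J₀) (hmem J₀)⟩, ?_⟩
  have hx : ∀ I, ∃ x ∈ Subgroup.centralizer {g}, x • P J₀ = P I := by
    intro I
    obtain ⟨x, hx⟩ := cen_trans hp (hP J₀) (hP I) (hmem J₀) (hmem I)
    refine ⟨x, ?_, hx⟩
    have h1 := cen_conj (hind J₀) x
    rw [hx] at h1
    have h2 := cen_eq h1 (hind I) (hin (P I) (hP I) (hmem I))
    rw [Subgroup.mem_centralizer_singleton_iff]
    rw [mul_inv_eq_iff_eq_mul] at h2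
    exact h2
  choose x hxc hxP using hx
  have hg0 := cen_stab hp.ne_zero (hind J₀)
  have hgc : ∀ h ∈ Subgroup.zpowers g, h ∈ Subgroup.centralizer {g} := by
    intro h hh
    rw [Subgroup.mem_centralizer_singleton_iff]
    obtain ⟨k, rfl⟩ := Subgroup.mem_zpowers_iff.1 hh
    exact (Commute.refl g).zpow_left k
  let F : Subgroup.zpowers g × {I : Ideal (𝓞 E) // Ideal.absNorm I = p} →
      Subgroup.centralizer {g} := fun z =>
    ⟨x z.2 * z.1.1, mul_mem (hxc z.2) (hgc z.1.1 z.1.2)⟩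
  have hF : Function.Injective F := by
    rintro ⟨h, I⟩ ⟨h', I'⟩ heq
    have h1 : x I * h.1 = x I' * h'.1 := congrArg Subtype.val heq
    have h2 : P I = P I' := by
      have h3 := congrArg (fun y => y • P J₀) h1
      simp only [mul_smul] at h3
      rwa [hg0 h.1 h.2, hg0 h'.1 h'.2, hxP, hxP] at h3
    have h4 : I = I' := by
      apply Subtype.ext
      rw [← hPI I, ← hPI I', h2]
    subst h4
    have h5 : h = h' := Subtype.ext (mul_left_cancel h1)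
    rw [h5]
  have hcard := Nat.card_le_card_of_injective F hF
  rw [Nat.card_prod, Nat.card_zpowers] at hcard
  exact hcard

example : @cen = @cen := rfl

end Pool.Agent.DS
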