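import Pool.Agent.Lib_helper54.DS.Defs
import Pool.Agent.Lib_helper41.HZF.SFE
import Pool.Agent.Lib_helper41.HZF.LAM2
import Pool.Agent.Lib_helper41.HZF.INF

/-!
# Prime ideals of degree one in extensions (block CNT)
-/

set_option autoImplicit false
namespace Pool.Agent.DS
open Polynomial NumberField

theorem cnt_comap {E M : Type} [Field E] [NumberField E] [Field M] [NumberField M] [Algebra E M]
    {p : ℕ} (hp : p.Prime) {J : Ideal (𝓞 M)} (hJ : Ideal.absNorm J = p) :
    Ideal.absNorm (J.comap (algebraMap (𝓞 E) (𝓞 M))) = p := by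
  have hJp : J.IsPrime := Ideal.isPrime_of_irreducible_absNorm (by rw [hJ]; exact hp.prime.irreducible)
  have hfin : Finite (𝓞 M ⧸ J) := by
    rw [← Ideal.absNorm_ne_zero_iff, hJ]; exact hp.ne_zero
  have hcard : Nat.card (𝓞 M ⧸ J) = p := by rw [← hJ]; rfl
  have hinj := Ideal.quotientMap_injective (I := J) (f := algebraMap (𝓞 E) (𝓞 M))
  have hfinE : Finite (𝓞 E ⧸ J.comap (algebraMap (𝓞 E) (𝓞 M))) := Finite.of_injective _ hinj
  have hdvd : Nat.card (𝓞 E ⧸ J.comap (algebraMap (𝓞 E) (𝓞 M))) ∣ p := by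
    rw [← hcard]
    exact AddSubgroup.card_dvd_of_injective
      (Ideal.quotientMap J (algebraMap (𝓞 E) (𝓞 M)) le_rfl).toAddMonoidHom hinj
  have hIp : (J.comap (algebraMap (𝓞 E) (𝓞 M))).IsPrime := Ideal.comap_isPrime _ _
  have hne : Nat.card (𝓞 E ⧸ J.comap (algebraMap (𝓞 E) (𝓞 M))) ≠ 1 := by
    intro h1
    have : Ideal.absNorm (J.comap (algebraMap (𝓞 E) (𝓞 M))) = 1 := h1
    rw [Ideal.absNorm_eq_one_iff] at this
    exact hIp.ne_top this
  rcases (Nat.dvd_prime hp).mp hdvd with h | h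
  · exact absurd h hne
  · exact h

theorem cnt (E M : Type) [Field E] [NumberField E] [Field M] [NumberField M] [Algebra E M]
    {p : ℕ} (hp : p.Prime) : aE M p ≤ Module.finrank E M * aE E p := by
  classical
  have hfM : {J : Ideal (𝓞 M) | Ideal.absNorm J = p}.Finite := Ideal.finite_setOfPred_absNorm_eq p
  have hfE : {I : Ideal (𝓞 E) | Ideal.absNorm I = p}.Finite := Ideal.finite_setOfPred_absNorm_eq p
  have e1 : aE M p = hfM.toFinset.card := by
    rw [← Set.ncard_eq_toFinset_card _ hfM]; rfl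
  have e2 : aE E p = hfE.toFinset.card := by
    rw [← Set.ncard_eq_toFinset_card _ hfE]; rfl
  rw [e1, e2]
  apply Finset.card_le_mul_card_image_of_maps_to
    (f := fun J : Ideal (𝓞 M) => J.comap (algebraMap (𝓞 E) (𝓞 M)))
  · intro J hJ
    rw [Set.Finite.mem_toFinset] at hJ ⊢
    exact cnt_comap hp hJ
  · intro I hI
    rw [Set.Finite.mem_toFinset] at hI
    have hI' : Ideal.absNorm I = p := hI
    have hIp : I.IsPrime := Ideal.isPrime_of_irreducible_absNorm (by rw [hI']; exact hp.prime.irreducible)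
    have hI0 : I ≠ ⊥ := by
      intro h
      rw [h, Ideal.absNorm_bot] at hI'
      exact hp.ne_zero hI'.symm
    have hImax : I.IsMaximal := hIp.isMaximal hI0
    haveI : NoZeroSMulDivisors (𝓞 E) (𝓞 M) := by
      refine ⟨fun {c x} h => ?_⟩
      rw [Algebra.smul_def, mul_eq_zero] at h
      rcases h with h | h
      · left
        rw [← map_zero (algebraMap (𝓞 E) (𝓞 M))] at h
        exact (FaithfulSMul.algebraMap_injective (𝓞 E) (𝓞 M)) h
      · right; exact h
    refine le_trans (Finset.card_le_card ?_)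
      (Ideal.card_primesOverFinset_le_finrank (𝓞 M) E M hI0)
    intro J hJ
    rw [Finset.mem_filter, Set.Finite.mem_toFinset] at hJ
    rw [IsDedekindDomain.mem_primesOverFinset_iff hI0]
    refine ⟨Ideal.isPrime_of_irreducible_absNorm (by rw [hJ.1]; exact hp.prime.irreducible), ⟨?_⟩⟩
    rw [← hJ.2]

theorem cnt_one (M : Type) [Field M] [NumberField M] {q : ℕ} {ζ : M} (hζ : IsPrimitiveRoot ζ q)
    (hq : q.Prime) {p : ℕ} (hp : p.Prime) (hpq : p ≠ q) (h : aE M p ≠ 0) : (p : ZMod q) = 1 := by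
  obtain ⟨⟨J, hJ⟩⟩ : Nonempty {I : Ideal (𝓞 M) // Ideal.absNorm I = p} := by
    by_contra hne
    rw [not_nonempty_iff] at hne
    exact h Nat.card_of_isEmpty
  have hJp : J.IsPrime := Ideal.isPrime_of_irreducible_absNorm (by rw [hJ]; exact hp.prime.irreducible)
  have hJ0 : J ≠ ⊥ := by
    intro h0
    rw [h0, Ideal.absNorm_bot] at hJ
    exact hp.ne_zero hJ.symm
  have hJmax : J.IsMaximal := hJp.isMaximal hJ0
  letI : Field (𝓞 M ⧸ J) := Ideal.Quotient.field J
  have hfin : Finite (𝓞 M ⧸ J) := by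
    rw [← Ideal.absNorm_ne_zero_iff, hJ]; exact hp.ne_zero
  have hcard : Nat.card (𝓞 M ⧸ J) = p := by rw [← hJ]; rfl
  have hp0 : (p : 𝓞 M ⧸ J) = 0 := by
    have h1 : ((Ideal.absNorm J : ℕ) : 𝓞 M) ∈ J := Ideal.absNorm_mem J
    rw [hJ] at h1
    have h2 := Ideal.Quotient.eq_zero_iff_mem.mpr h1
    rw [map_natCast] at h2
    exact h2
  -- the root of unity as an algebraic integer
  haveI : NeZero q := ⟨hq.ne_zero⟩
  set Z : 𝓞 M := hζ.toInteger with hZ
  have hZp : IsPrimitiveRoot Z q := hζ.toInteger_isPrimitiveRoot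
  have hsum : ∑ i ∈ Finset.range q, Z ^ i = 0 := hZp.geom_sum_eq_zero hq.one_lt
  set z : 𝓞 M ⧸ J := Ideal.Quotient.mk J Z with hz
  have hzq : z ^ q = 1 := by
    rw [hz, ← map_pow, hZp.pow_eq_one, map_one]
  have hz1 : z ≠ 1 := by
    intro h1
    have h2 : ∑ i ∈ Finset.range q, z ^ i = 0 := by
      have := congrArg (Ideal.Quotient.mk J) hsum
      rw [map_sum, map_zero] at this
      simpa [hz] using this
    rw [h1] at h2
    simp only [one_pow, Finset.sum_const, Finset.card_range, nsmul_eq_mul, mul_one] at h2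
    have hcop : Nat.Coprime p q := (Nat.coprime_primes hp hq).mpr hpq
    have hb : (1 : 𝓞 M ⧸ J) = 0 := by
      have := Nat.isCoprime_iff_coprime.mpr hcop
      obtain ⟨a, b, hab⟩ := this
      have h3 := congrArg (fun t : ℤ => (t : 𝓞 M ⧸ J)) hab
      push_cast at h3
      rw [hp0, h2] at h3
      simpa using h3.symm
    exact one_ne_zero hb
  have hz0 : z ≠ 0 := by
    intro h0
    rw [h0, zero_pow hq.ne_zero] at hzq
    exact zero_ne_one hzq
  haveI : Fact q.Prime := ⟨hq⟩
  have hord : orderOf z = q := orderOf_eq_prime hzq hz1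
  have hordu : orderOf (Units.mk0 z hz0) = q := by
    rw [← hord, ← orderOf_units]
    rfl
  have hdvd : q ∣ Nat.card (𝓞 M ⧸ J)ˣ := by
    rw [← hordu]; exact orderOf_dvd_natCard _
  rw [Nat.card_units, hcard] at hdvd
  have h4 : ((p - 1 : ℕ) : ZMod q) = 0 := (ZMod.natCast_eq_zero_iff _ _).mpr hdvd
  rw [Nat.cast_sub hp.one_lt.le, Nat.cast_one, sub_eq_zero] at h4
  exact h4

end Pool.Agent.DS
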