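import Pool.Agent.Lib_helper54.DS.Defs
import Pool.Agent.Lib_helper41.HZF.SFE
import Pool.Agent.Lib_helper41.HZF.LAM2
import Pool.Agent.Lib_helper41.HZF.INF
import Pool.Agent.Lib_helper38.G4I.EULP

/-!
# Block EUL: the Euler product of the Dirichlet series `∑ a_E(n) χ(n) n^{-s}`
-/

set_option autoImplicit false

namespace Pool.Agent.DS

open NumberField Filter Topology MeasureTheory
open Pool.Agent.G4I (isum isumA nIdeals isum_mult_pr isum_euler_pr poly_roots_pr MUL_mem)

/-- the coefficient of `z` in a power series with sum `∏ (1 - α_j z)⁻¹` -/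
theorem eul_coeff {n : ℕ} {c : ℕ → ℂ} {α : Fin n → ℂ}
    (h : ∀ z : ℂ, ‖z‖ < 1 → HasSum (fun k => c k * z ^ k) (∏ j, (1 - α j * z))⁻¹) :
    c 1 = ∑ j, α j := by
  set f : ℂ → ℂ := fun z => (∏ j, (1 - α j * z))⁻¹ with hf
  have hp : HasFPowerSeriesAt f (FormalMultilinearSeries.ofScalars ℂ c) 0 := by
    rw [hasFPowerSeriesAt_iff]
    filter_upwards [Metric.ball_mem_nhds (0 : ℂ) one_pos] with z hz
    rw [zero_add]
    have h1 := h z (by simpa using hz)
    refine h1.congr_fun ?_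
    intro k
    simp [FormalMultilinearSeries.coeff_ofScalars, mul_comm]
  have h1 := hp.hasDerivAt
  have h2 : HasDerivAt (fun z : ℂ => ∏ j, (1 - α j * z)) (-∑ j, α j) 0 := by
    have h3 : ∀ j ∈ (Finset.univ : Finset (Fin n)),
        HasDerivAt (fun z : ℂ => 1 - α j * z) (-α j) 0 := by
      intro j _
      have h4 := ((hasDerivAt_id (0 : ℂ)).const_mul (α j)).const_sub 1
      simpa using h4
    have h5 := HasDerivAt.fun_finsetProd h3
    refine h5.congr_deriv ?_
    simp
  have h6 : HasDerivAt f (∑ j, α j) 0 := by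
    have h7 := h2.inv (by simp)
    refine h7.congr_deriv ?_
    simp
  have h8 := h1.unique h6
  rw [← h8]
  exact (FormalMultilinearSeries.coeff_ofScalars (𝕜 := ℂ) (p := c) (n := 1)).symm

variable (E : Type) [Field E] [NumberField E]

/-- the function `χ(N I)` -/
noncomputable def eul_phi {q : ℕ} (χ : DirichletCharacter ℂ q) : Ideal (𝓞 E) →* ℂ where
  toFun I := χ ((Ideal.absNorm I : ℕ) : ZMod q)
  map_one' := by simp
  map_mul' I J := by simp

theorem eul_isum {q : ℕ} (χ : DirichletCharacter ℂ q) {n : ℕ} (hn : n ≠ 0) :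
    isum (eul_phi E χ) n = (aE E n : ℂ) * χ (n : ZMod q) := by
  classical
  unfold isum
  have h1 : ∀ I ∈ nIdeals E n, eul_phi E χ I = χ (n : ZMod q) := by
    intro I hI
    show χ ((Ideal.absNorm I : ℕ) : ZMod q) = _
    rw [(MUL_mem.1 hI).1]
  rw [Finset.sum_congr rfl h1, Finset.sum_const, nsmul_eq_mul]
  congr 2
  unfold aE
  rw [← Nat.card_eq_finsetCard]
  refine Nat.card_congr (Equiv.subtypeEquivRight fun I => ?_)
  rw [MUL_mem]
  constructor
  · exact fun h => h.1
  · rintro h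
    refine ⟨h, ?_⟩
    rintro rfl
    rw [Ideal.absNorm_bot] at h
    exact hn h.symm

theorem eul_summable {q : ℕ} (χ : DirichletCharacter ℂ q) {A : ℝ} (hA : 1 < A) :
    Summable (fun n : ℕ => ‖LSeries.term (fun n : ℕ => (aE E n : ℂ) * χ (n : ZMod q)) A n‖) := by
  obtain ⟨l, hl⟩ := HZ.sum_tendsto_card E
  set a : ℕ → ℝ := fun k => (Nat.card {I : Ideal (𝓞 E) // Ideal.absNorm I = k} : ℝ) with ha
  have hO : (fun n : ℕ => ∑ k ∈ Finset.Icc 1 n, a k) =O[atTop] fun n => (n : ℝ) ^ (1 : ℝ) := by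
    have h1 := hl.isBigO_one ℝ
    have h2 : (fun n : ℕ => (∑ k ∈ Finset.Icc 1 n, a k) / (n : ℝ) * (n : ℝ)) =O[atTop]
        fun n => (1 : ℝ) * (n : ℝ) := h1.mul (Asymptotics.isBigO_refl _ _)
    refine (h2.congr' ?_ ?_)
    · filter_upwards [eventually_gt_atTop 0] with n hn
      field_simp
    · filter_upwards with n
      simp
  have hS : LSeriesSummable (fun n => ((a n : ℝ) : ℂ)) (A : ℂ) :=
    LSeriesSummable_of_sum_norm_bigO_and_nonneg hO (fun n => Nat.cast_nonneg _) zero_le_one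
      (by simpa using hA)
  refine Summable.of_nonneg_of_le (fun n => norm_nonneg _) (fun n => ?_) hS.norm
  refine LSeries.norm_term_le _ ?_
  rw [norm_mul, Complex.norm_natCast, Complex.norm_real, Real.norm_of_nonneg (Nat.cast_nonneg _)]
  exact mul_le_of_le_one_right (Nat.cast_nonneg _) (χ.norm_le_one _)

theorem eul_local {q : ℕ} (χ : DirichletCharacter ℂ q) (p : Nat.Primes) :
    ∃ α : Fin (Module.finrank ℚ E) → ℂ, (∀ j, ‖α j‖ ≤ 1) ∧
      (aE E p : ℂ) * χ ((p : ℕ) : ZMod q) = ∑ j, α j ∧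
      ∀ z : ℂ, ‖z‖ < 1 → HasSum (fun k => isum (eul_phi E χ) ((p : ℕ) ^ k) * z ^ k)
        (∏ j, (1 - α j * z))⁻¹ := by
  obtain ⟨P, h1, h2, h3, h4⟩ := isum_euler_pr (eul_phi E χ) (fun I => χ.norm_le_one _) p.2
  obtain ⟨α, ha, hb⟩ := poly_roots_pr h1 h2 h3
  have h5 : ∀ z : ℂ, ‖z‖ < 1 → HasSum (fun k => isum (eul_phi E χ) ((p : ℕ) ^ k) * z ^ k)
        (∏ j, (1 - α j * z))⁻¹ := by
    intro z hz
    rw [← hb z]
    exact h4 z hz
  refine ⟨α, ha, ?_, h5⟩
  rw [← eul_coeff h5, pow_one, eul_isum E χ p.2.ne_zero]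

theorem eul_norm_cpow (p : Nat.Primes) (s : ℝ) :
    ‖((p : ℕ) : ℂ) ^ (-(s : ℂ))‖ = ((p : ℕ) : ℝ) ^ (-s) := by
  rw [Complex.norm_natCast_cpow_of_pos p.2.pos]
  simp

theorem eul_cont_cpow (p : Nat.Primes) : Continuous (fun s : ℝ => ((p : ℕ) : ℂ) ^ (-(s : ℂ))) := by
  refine Continuous.const_cpow (by fun_prop) (Or.inl ?_)
  exact_mod_cast p.2.ne_zero

theorem eul_SS_cont {q : ℕ} (χ : DirichletCharacter ℂ q) :
    ContinuousOn (SS E χ) (Set.Ioi 1) := by
  choose α ha hb _ using eul_local E χ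
  intro s hs
  have hs' : (1 : ℝ) < s := hs
  refine ContinuousAt.continuousWithinAt ?_
  have h1 : ContinuousOn (SS E χ) (Set.Ioi ((1 + s) / 2)) := by
    unfold SS
    refine continuousOn_tsum (u := fun p : Nat.Primes =>
      (Module.finrank ℚ E : ℝ) * ((p : ℕ) : ℝ) ^ (-((1 + s) / 2))) ?_ ?_ ?_
    · intro p
      exact (continuous_const.mul (eul_cont_cpow p)).continuousOn
    · refine Summable.mul_left _ ?_
      rw [Nat.Primes.summable_rpow]
      linarith
    · intro p t ht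
      have ht' : (1 + s) / 2 < t := ht
      rw [norm_mul, hb p, eul_norm_cpow]
      have h2 : ‖∑ j, α p j‖ ≤ Module.finrank ℚ E := by
        refine (norm_sum_le _ _).trans ?_
        refine (Finset.sum_le_sum fun j _ => ha p j).trans ?_
        simp
      have h3 : (1 : ℝ) ≤ ((p : ℕ) : ℝ) := by exact_mod_cast p.2.one_le
      refine mul_le_mul h2 ?_ (by positivity) (Nat.cast_nonneg _)
      exact Real.rpow_le_rpow_of_exponent_le h3 (by linarith)
  refine h1.continuousAt (Ioi_mem_nhds ?_)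
  linarith

/-- EUL -/
theorem eul {q : ℕ} (χ : DirichletCharacter ℂ q) :
    ∃ (C : ℝ) (g : ℝ → ℂ), (∀ s : ℝ, 1 < s → s ≤ 2 → ‖g s‖ ≤ C) ∧
      ContinuousOn g (Set.Ioc 1 2) ∧ ContinuousOn (SS E χ) (Set.Ioc 1 2) ∧
      ∀ s : ℝ, 1 < s → s ≤ 2 → Complex.exp (SS E χ s + g s) = LL E χ s := by
  classical
  choose α ha hb hc using eul_local E χ
  set z : Nat.Primes → ℝ → ℂ := fun p s => ((p : ℕ) : ℂ) ^ (-(s : ℂ)) with hz
  set G : Nat.Primes → ℝ → ℂ := fun p s =>
    ∑ j, (-Complex.log (1 - α p j * z p s) - α p j * z p s) with hG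
  have hp2 : ∀ p : Nat.Primes, (2 : ℝ) ≤ ((p : ℕ) : ℝ) := fun p => by exact_mod_cast p.2.two_le
  have hzn : ∀ p s, ‖z p s‖ = ((p : ℕ) : ℝ) ^ (-s) := fun p s => eul_norm_cpow p s
  have hzle : ∀ p (s : ℝ), 1 < s → ‖z p s‖ ≤ ((p : ℕ) : ℝ)⁻¹ := by
    intro p s hs
    rw [hzn, ← Real.rpow_neg_one]
    exact Real.rpow_le_rpow_of_exponent_le (by linarith [hp2 p]) (by linarith)
  have hwle : ∀ p j (s : ℝ), 1 < s → ‖α p j * z p s‖ ≤ ((p : ℕ) : ℝ)⁻¹ := by
    intro p j s hs
    rw [norm_mul]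
    calc ‖α p j‖ * ‖z p s‖ ≤ 1 * ‖z p s‖ := mul_le_mul_of_nonneg_right (ha p j) (norm_nonneg _)
      _ ≤ _ := by rw [one_mul]; exact hzle p s hs
  have hhalf : ∀ p : Nat.Primes, (((p : ℕ) : ℝ))⁻¹ ≤ 1 / 2 := by
    intro p
    rw [one_div]
    exact inv_anti₀ (by norm_num) (hp2 p)
  have hterm : ∀ p j (s : ℝ), 1 < s →
      ‖-Complex.log (1 - α p j * z p s) - α p j * z p s‖ ≤ ((p : ℕ) : ℝ) ^ (-(2 : ℝ)) := by
    intro p j s hs
    have h1 := hwle p j s hs
    have h2 := hhalf p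
    have h3 : ‖-(α p j * z p s)‖ < 1 := by rw [norm_neg]; linarith
    have h4 := Complex.norm_log_one_add_sub_self_le h3
    rw [norm_neg] at h4
    have h5 : -Complex.log (1 - α p j * z p s) - α p j * z p s =
        -(Complex.log (1 + -(α p j * z p s)) - -(α p j * z p s)) := by
      rw [← sub_eq_add_neg]
      ring
    rw [h5, norm_neg]
    refine h4.trans ?_
    have h6 : (1 - ‖α p j * z p s‖)⁻¹ ≤ 2 := by
      rw [inv_le_comm₀ (by linarith) (by norm_num)]
      linarith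
    have h7 : 0 ≤ (1 - ‖α p j * z p s‖)⁻¹ := by
      rw [inv_nonneg]
      linarith
    have h8 : ‖α p j * z p s‖ ^ 2 ≤ (((p : ℕ) : ℝ))⁻¹ ^ 2 :=
      pow_le_pow_left₀ (norm_nonneg _) h1 2
    calc ‖α p j * z p s‖ ^ 2 * (1 - ‖α p j * z p s‖)⁻¹ / 2 ≤
        (((p : ℕ) : ℝ))⁻¹ ^ 2 * 2 / 2 := by gcongr
      _ = ((p : ℕ) : ℝ) ^ (-(2 : ℝ)) := by
        rw [Real.rpow_neg (by linarith [hp2 p]), inv_pow]
        norm_num
  have hGle : ∀ p (s : ℝ), 1 < s → ‖G p s‖ ≤ (Module.finrank ℚ E : ℝ) * ((p : ℕ) : ℝ) ^ (-(2 : ℝ)) := by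
    intro p s hs
    refine (norm_sum_le _ _).trans ?_
    refine (Finset.sum_le_sum fun j _ => hterm p j s hs).trans ?_
    simp
  have hsum2 : Summable (fun p : Nat.Primes => (Module.finrank ℚ E : ℝ) * ((p : ℕ) : ℝ) ^ (-(2 : ℝ))) := by
    refine Summable.mul_left _ ?_
    rw [Nat.Primes.summable_rpow]
    norm_num
  have hne : ∀ p j (s : ℝ), 1 < s → 1 - α p j * z p s ∈ Complex.slitPlane := by
    intro p j s hs
    have h1 := hwle p j s hs
    have h2 := hhalf p
    rw [sub_eq_add_neg]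
    exact Complex.mem_slitPlane_of_norm_lt_one (by rw [norm_neg]; linarith)
  have hcont : ∀ p, ContinuousOn (G p) (Set.Ioc 1 2) := by
    intro p
    refine continuousOn_finsetSum _ fun j _ => ?_
    have hzc : Continuous (z p) := eul_cont_cpow p
    refine ContinuousOn.sub (ContinuousOn.neg ?_) (continuous_const.mul hzc).continuousOn
    refine ContinuousOn.clog (continuous_const.sub (continuous_const.mul hzc)).continuousOn ?_
    intro s hs
    exact hne p j s hs.1
  refine ⟨∑' p : Nat.Primes, (Module.finrank ℚ E : ℝ) * ((p : ℕ) : ℝ) ^ (-(2 : ℝ)), fun s => ∑' p, G p s,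
    ?_, ?_, ?_, ?_⟩
  · intro s hs _
    exact tsum_of_norm_bounded hsum2.hasSum fun p => hGle p s hs
  · exact continuousOn_tsum hcont hsum2 fun p s hs => hGle p s hs.1
  · exact (eul_SS_cont E χ).mono fun s hs => hs.1
  · intro s hs hs2
    have hA : Summable (fun p : Nat.Primes => (aE E p : ℂ) * χ (p : ℕ) * z p s) := by
      refine Summable.of_norm_bounded (g := fun p : Nat.Primes =>
        (Module.finrank ℚ E : ℝ) * ((p : ℕ) : ℝ) ^ (-s)) ?_ ?_
      · refine Summable.mul_left _ ?_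
        rw [Nat.Primes.summable_rpow]
        linarith
      · intro p
        rw [norm_mul, hb p, hzn]
        refine mul_le_mul_of_nonneg_right ?_ (by positivity)
        refine (norm_sum_le _ _).trans ?_
        refine (Finset.sum_le_sum fun j _ => ha p j).trans ?_
        simp
    have hB : Summable (fun p : Nat.Primes => G p s) :=
      Summable.of_norm_bounded hsum2 fun p => hGle p s hs
    have h1 := (hA.hasSum.add hB.hasSum).cexp
    have h2 : ∀ p : Nat.Primes, (Complex.exp ∘ fun p : Nat.Primes =>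
        (aE E p : ℂ) * χ (p : ℕ) * z p s + G p s) p =
        ∑' e, LSeries.term (fun n : ℕ => (aE E n : ℂ) * χ (n : ZMod q)) s ((p : ℕ) ^ e) := by
      intro p
      have h3 : (aE E p : ℂ) * χ (p : ℕ) * z p s + G p s =
          ∑ j, -Complex.log (1 - α p j * z p s) := by
        rw [hG, hb p]
        simp only
        rw [Finset.sum_sub_distrib, Finset.sum_mul]
        ring
      have hz1 : ‖z p s‖ < 1 := by
        have := hzle p s hs
        have := hhalf p
        linarith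
      have h4 := (hc p (z p s) hz1).tsum_eq
      simp only [Function.comp_apply]
      rw [h3, Complex.exp_sum]
      have h5 : ∀ j, Complex.exp (-Complex.log (1 - α p j * z p s)) =
          (1 - α p j * z p s)⁻¹ := by
        intro j
        rw [Complex.exp_neg, Complex.exp_log (Complex.slitPlane_ne_zero (hne p j s hs))]
      rw [Finset.prod_congr rfl fun j _ => h5 j, Finset.prod_inv_distrib, ← h4]
      refine tsum_congr fun e => ?_
      have hpe : (p : ℕ) ^ e ≠ 0 := pow_ne_zero _ p.2.ne_zero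
      rw [LSeries.term_of_ne_zero hpe, ← eul_isum E χ hpe, div_eq_mul_inv]
      congr 1
      rw [hz]
      simp only
      rw [← Complex.cpow_neg, Nat.cast_pow, ← Complex.natCast_cpow_natCast_mul,
        ← Complex.cpow_nat_mul]
    have hf1 : LSeries.term (fun n : ℕ => (aE E n : ℂ) * χ (n : ZMod q)) s 1 = 1 := by
      have h6 := (isum_mult_pr (eul_phi E χ)).map_one
      have h7 : isum (eul_phi E χ) 1 = 1 := h6
      rw [eul_isum E χ one_ne_zero] at h7
      rw [LSeries.term_of_ne_zero one_ne_zero, h7]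
      simp
    have hmul : ∀ {m k : ℕ}, m.Coprime k →
        LSeries.term (fun n : ℕ => (aE E n : ℂ) * χ (n : ZMod q)) s (m * k) =
        LSeries.term (fun n : ℕ => (aE E n : ℂ) * χ (n : ZMod q)) s m *
        LSeries.term (fun n : ℕ => (aE E n : ℂ) * χ (n : ZMod q)) s k := by
      intro m k hmk
      by_cases hm : m = 0
      · rw [hm, zero_mul, LSeries.term_zero, zero_mul]
      by_cases hk : k = 0
      · rw [hk, mul_zero, LSeries.term_zero, mul_zero]
      rw [LSeries.term_of_ne_zero (mul_ne_zero hm hk), LSeries.term_of_ne_zero hm,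
        LSeries.term_of_ne_zero hk, ← eul_isum E χ (mul_ne_zero hm hk), ← eul_isum E χ hm,
        ← eul_isum E χ hk]
      have h8 : isum (eul_phi E χ) (m * k) = isum (eul_phi E χ) m * isum (eul_phi E χ) k :=
        (isum_mult_pr (eul_phi E χ)).map_mul_of_coprime hmk
      rw [h8, Nat.cast_mul, Complex.natCast_mul_natCast_cpow]
      field_simp
    have h9 := EulerProduct.eulerProduct_hasProd hf1 hmul (eul_summable E χ hs)
      (LSeries.term_zero _ _)
    have h10 : (Complex.exp ∘ fun p : Nat.Primes =>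
        (aE E p : ℂ) * χ (p : ℕ) * z p s + G p s) = fun p : Nat.Primes =>
        ∑' e, LSeries.term (fun n : ℕ => (aE E n : ℂ) * χ (n : ZMod q)) s ((p : ℕ) ^ e) :=
      funext h2
    rw [h10] at h1
    exact h1.unique h9

end Pool.Agent.DS
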