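import Pool.Agent.Lib_helper54.DS.Defs
import Pool.Agent.Lib_helper41.HZF.SFE
import Pool.Agent.Lib_helper41.HZF.LAM2
import Pool.Agent.Lib_helper41.HZF.INF

/-!
# Block THT: theta functions of Hecke characters of finite order, the constant term
-/

set_option autoImplicit false

namespace Pool.Agent.DS

open NumberField NumberField.InfinitePlace NumberField.Units Complex MeasureTheory Filter Topology
open Pool.Agent.HZ

variable {K : Type} [Field K] [NumberField K]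

theorem tht_num (n : ℕ) {c : ℝ} (hc : 0 < c) (hn : 0 < n) (z : ℝ) (hz : 0 < z) :
    (z + 1) * Real.exp (-(c * z ^ (2 / (n : ℝ)))) ≤ 2 + n.factorial / c ^ n := by
  set t : ℝ := z ^ (2 / (n : ℝ)) with ht
  have ht0 : 0 < t := Real.rpow_pos_of_pos hz _
  have htn : t ^ n = z ^ 2 := by
    rw [ht, ← Real.rpow_natCast (z ^ (2 / (n : ℝ))) n, ← Real.rpow_mul hz.le]
    rw [div_mul_cancel₀ _ (by exact_mod_cast hn.ne')]
    exact_mod_cast rfl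
  have h1 : (c * t) ^ n / n.factorial ≤ Real.exp (c * t) :=
    Real.pow_div_factorial_le_exp _ (by positivity) n
  have hf : (0 : ℝ) < n.factorial := by exact_mod_cast n.factorial_pos
  have h2 : t ^ n ≤ n.factorial / c ^ n * Real.exp (c * t) := by
    rw [mul_pow, div_le_iff₀ hf] at h1
    have hcn : 0 < c ^ n := by positivity
    rw [div_mul_eq_mul_div, le_div_iff₀ hcn]
    linarith
  have h3 : z + 1 ≤ 2 + t ^ n := by
    rw [htn]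
    nlinarith [sq_nonneg (z - 1)]
  have he : 0 < Real.exp (-(c * t)) := Real.exp_pos _
  have he1 : Real.exp (-(c * t)) ≤ 1 := Real.exp_le_one_iff.2 (by
    have := mul_pos hc ht0
    linarith)
  have he2 : Real.exp (c * t) * Real.exp (-(c * t)) = 1 := by
    rw [← Real.exp_add, add_neg_cancel, Real.exp_zero]
  calc (z + 1) * Real.exp (-(c * t)) ≤ (2 + t ^ n) * Real.exp (-(c * t)) :=
        mul_le_mul_of_nonneg_right h3 he.le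
    _ ≤ (2 + n.factorial / c ^ n * Real.exp (c * t)) * Real.exp (-(c * t)) := by
        gcongr
    _ = 2 * Real.exp (-(c * t)) + n.factorial / c ^ n *
          (Real.exp (c * t) * Real.exp (-(c * t))) := by ring
    _ ≤ 2 * 1 + n.factorial / c ^ n * 1 := by
        rw [he2]
        gcongr
    _ = _ := by ring

theorem tht_Hf_zero (κ : InfinitePlace K → ℤ) (y : InfinitePlace K → ℝ) :
    Hf κ y (0 : K) = if κ = 0 then 1 else 0 := by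
  unfold Hf hloc
  split_ifs with h
  · subst h
    simp
  · obtain ⟨w, hw⟩ := Function.ne_iff.1 h
    refine Finset.prod_eq_zero (Finset.mem_univ w) ?_
    have h1 : (κ w).natAbs ≠ 0 := Int.natAbs_ne_zero.2 hw
    simp [h1]

open scoped Classical in
/-- the sum of `|Hf|` over the nonzero elements -/
theorem tht_rem (κ : InfinitePlace K → ℤ) {𝔟' : Ideal (𝓞 K)} (h𝔟' : 𝔟' ≠ ⊥) :
    ∃ C : ℝ, 0 ≤ C ∧ ∀ (v : ℝ), ∀ x ∈ Set.Icc (-1 : Fin (rank K) → ℝ) 1,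
      Real.exp v * ∑' β : 𝔟', (if (β : 𝓞 K) = 0 then 0 else ‖Hf κ (Yv K v x) ((β : 𝓞 K) : K)‖) ≤
        C := by
  obtain ⟨C₁, hC₁, hH⟩ := Hf_le κ
  obtain ⟨C₂, hC₂, hL⟩ := lattice_sum (K := K) h𝔟' (c := Real.pi / 4) (by positivity)
  set n : ℕ := Module.finrank ℚ K with hn
  have hnpos : 0 < n := Module.finrank_pos
  refine ⟨C₁ * C₂ * (2 + n.factorial / (Real.pi / 4) ^ n), by positivity, ?_⟩
  intro v x hx
  obtain ⟨hs, hle⟩ := hL v x hx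
  set E : ℝ := Real.exp (-(Real.pi / 4 * (Real.exp v) ^ (2 / (n : ℝ)))) with hE
  have hterm : ∀ β : 𝔟', (if (β : 𝓞 K) = 0 then 0 else ‖Hf κ (Yv K v x) ((β : 𝓞 K) : K)‖) ≤
      C₁ * E * Real.exp (-(Real.pi / 4) * qn (fun w => Yv K v x w * w ((β : 𝓞 K) : K))) := by
    intro β
    split_ifs with h0
    · positivity
    · refine (hH _ _ fun w => Yv_pos v x w).trans ?_
      rw [mul_assoc, hE, ← Real.exp_add]
      refine mul_le_mul_of_nonneg_left (Real.exp_le_exp.2 ?_) hC₁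
      have h1 := am_gm (K := K) (𝔮 := ⊤) (𝔟 := 𝔟') top_ne_bot h𝔟'
        (l := (β : 𝓞 K)) (by rw [Ideal.top_mul]; exact β.2) h0 v x
      rw [Ideal.absNorm_top, Nat.cast_one, mul_one] at h1
      have hpi : 0 < Real.pi / 4 := by positivity
      have h2 := mul_le_mul_of_nonneg_left h1 hpi.le
      linarith
  have hs' : Summable (fun β : 𝔟' => (if (β : 𝓞 K) = 0 then 0 else
      ‖Hf κ (Yv K v x) ((β : 𝓞 K) : K)‖)) := by
    refine Summable.of_nonneg_of_le (fun β => ?_) hterm (hs.mul_left _)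
    split_ifs
    · exact le_rfl
    · exact norm_nonneg _
  have h1 := hs'.tsum_le_tsum hterm (hs.mul_left _)
  rw [tsum_mul_left] at h1
  have h2 : C₁ * E * ∑' β : 𝔟', Real.exp (-(Real.pi / 4) *
      qn (fun w => Yv K v x w * w ((β : 𝓞 K) : K))) ≤ C₁ * E * (C₂ * (1 + Real.exp (-v))) :=
    mul_le_mul_of_nonneg_left hle (by positivity)
  have h3 := tht_num n (c := Real.pi / 4) (by positivity) hnpos (Real.exp v) (Real.exp_pos v)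
  have h4 : Real.exp v * Real.exp (-v) = 1 := by
    rw [← Real.exp_add, add_neg_cancel, Real.exp_zero]
  calc _ ≤ Real.exp v * (C₁ * E * (C₂ * (1 + Real.exp (-v)))) :=
        mul_le_mul_of_nonneg_left (h1.trans h2) (Real.exp_pos v).le
    _ = C₁ * C₂ * ((Real.exp v + Real.exp v * Real.exp (-v)) * E) := by ring
    _ = C₁ * C₂ * ((Real.exp v + 1) * E) := by rw [h4]
    _ ≤ _ := mul_le_mul_of_nonneg_left h3 (by positivity)

theorem tht_fet_E (y : InfinitePlace K → ℝ) : fet_E (0 : InfinitePlace K → ℝ) y = 1 := by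
  unfold fet_E
  simp

/-- the theta function at a point of the cube -/
theorem tht_point {𝔮 : Ideal (𝓞 K)} (h𝔮 : 𝔮 ≠ ⊥) (h𝔮' : 𝔮 ≠ ⊤) {κ : InfinitePlace K → ℤ}
    (hκ : ∀ w : InfinitePlace K, w.IsReal → κ w = 0 ∨ κ w = 1) :
    ∃ C₀ : ℝ, ∀ {χ : MulChar (𝓞 K ⧸ 𝔮) ℂ} {ψ : Ideal (𝓞 K) →* ℂ} (_ : IsHecke 𝔮 κ 0 χ ψ)
      {𝔟 𝔟' : Ideal (𝓞 K)} {N : ℕ} (_ : 0 < N)
      (_ : 𝔮 * 𝔟 * 𝔟' * differentIdeal ℤ (𝓞 K) = Ideal.span {(N : 𝓞 K)}),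
      ∃ g : 𝓞 K, g ∈ 𝔟 ∧ g ≠ 0 ∧ IsCoprime (quo 𝔟 g) 𝔮 ∧
      (∀ α ∈ 𝔟, ∃ a : 𝓞 K, α - a * g ∈ 𝔮 * 𝔟) ∧ ∃ C : ℝ,
      ∀ (v : ℝ), ∀ x ∈ Set.Icc (0 : Fin (rank K) → ℝ) 1,
        ‖∑' α : 𝔟, ψ (quo 𝔟 α) * Gf κ 0 (fun w => Yv K v x w * w ((α : 𝓞 K) : K)) -
          (if κ = 0 then 1 else 0) * (C₀ / Ideal.absNorm 𝔮 : ℝ) *
            (∑ᶠ a : 𝓞 K ⧸ 𝔮, χ a) * tw κ 0 ψ 𝔟 g *
            ((Real.exp (-v) / Ideal.absNorm 𝔟 : ℝ) : ℂ)‖ ≤ C := by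
  classical
  have : Finite (𝓞 K ⧸ 𝔮) := Ideal.finiteQuotientOfFreeOfNeBot 𝔮 h𝔮
  have : Fintype (𝓞 K ⧸ 𝔮) := Fintype.ofFinite _
  have : Nontrivial (𝓞 K ⧸ 𝔮) := Ideal.Quotient.nontrivial_iff.2 h𝔮'
  obtain ⟨C₀, hC₀, hP⟩ := nf_poisson (K := K)
  refine ⟨C₀, ?_⟩
  intro χ ψ hψ 𝔟 𝔟' N hN hbb
  obtain ⟨h𝔟, h𝔟'⟩ := sfe_ne_bot hN hbb
  obtain ⟨g, ρ, hg, hg0, hgc, hρ⟩ := exists_res h𝔮 h𝔟
  obtain ⟨C₁, hC₁, hR⟩ := tht_rem (K := K) κ h𝔟'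
  have hNR : (0 : ℝ) < N := by exact_mod_cast hN
  have hnq : (0 : ℝ) < Ideal.absNorm 𝔮 := by
    exact_mod_cast Nat.pos_of_ne_zero (Ideal.absNorm_eq_zero_iff.not.2 h𝔮)
  have hnb : (0 : ℝ) < Ideal.absNorm 𝔟 := by
    exact_mod_cast Nat.pos_of_ne_zero (Ideal.absNorm_eq_zero_iff.not.2 h𝔟)
  set n : ℕ := Module.finrank ℚ K with hn
  have hnpos : 0 < n := Module.finrank_pos
  have hex : ∀ α ∈ 𝔟, ∃ a : 𝓞 K, α - a * g ∈ 𝔮 * 𝔟 := by
    intro α hα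
    obtain ⟨a, ha⟩ := Ideal.Quotient.mk_surjective (ρ α)
    exact ⟨a, (hρ α hα a).1 ha.symm⟩
  refine ⟨g, hg, hg0, hgc, hex, Fintype.card (𝓞 K ⧸ 𝔮) *
    (C₀ / (Ideal.absNorm 𝔮 * Ideal.absNorm 𝔟) * (N : ℝ) ^ n) * C₁, ?_⟩
  intro v x hx
  set y : InfinitePlace K → ℝ := Yv K v x with hy_def
  have hy : ∀ w, 0 < y w := fun w => Yv_pos v x w
  -- the dual point
  have hy' : Yv K (-v - n * Real.log N) (-x) = fun w => 1 / (N * y w) := by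
    funext w
    have h1 := Yv_add (K := K) (-v - n * Real.log N) v (-x) x w
    have h2 : Yv K (-v - n * Real.log N + v) (-x + x) w = 1 / N := by
      rw [neg_add_cancel]
      unfold Yv
      have hn0 : (n : ℝ) ≠ 0 := by exact_mod_cast hnpos.ne'
      have h3 : (-v - n * Real.log N + v) / Module.finrank ℚ K = -Real.log N := by
        rw [← hn]
        field_simp
        ring
      rw [h3, Real.exp_neg, Real.exp_log hNR]
      simp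
    rw [h2] at h1
    have h4 := (hy w).ne'
    rw [eq_div_iff (by positivity), mul_comm (N : ℝ), ← mul_assoc, ← h1]
    field_simp
  have hyy : ∀ w, 0 < 1 / ((N : ℝ) * y w) := fun w => by
    have := hy w
    positivity
  -- left-hand side
  have hL : ∑' α : 𝔟, ψ (quo 𝔟 α) * Gf κ 0 (fun w => y w * w ((α : 𝓞 K) : K)) =
      ∑' α : 𝔟, tw κ 0 ψ 𝔟 α * Hf κ y ((α : 𝓞 K) : K) := by
    refine tsum_congr fun α => ?_
    rw [fet_term h𝔮' hψ 𝔟 α y hy, tht_fet_E, one_mul]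
  have htw : ∀ (a : 𝓞 K ⧸ 𝔮) (l : ↥(𝔮 * 𝔟)),
      tw κ 0 ψ 𝔟 (Quotient.out a * g + (l : 𝓞 K)) = χ a * tw κ 0 ψ 𝔟 g := by
    intro a l
    have hmem : Quotient.out a * g + (l : 𝓞 K) ∈ 𝔟 :=
      𝔟.add_mem (𝔟.mul_mem_left _ hg) (fet_mem_of l.2)
    have hdiff : Quotient.out a * g + (l : 𝓞 K) - Quotient.out a * g ∈ 𝔮 * 𝔟 := by
      rw [add_sub_cancel_left]; exact l.2
    by_cases h0 : Quotient.out a * g + (l : 𝓞 K) = 0
    · rw [h0, fet_tw_zero h𝔮' hψ]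
      rw [h0] at hdiff
      have h1 : ρ 0 = Ideal.Quotient.mk 𝔮 (Quotient.out a) :=
        (hρ 0 𝔟.zero_mem _).2 hdiff
      have h2 : ρ 0 = Ideal.Quotient.mk 𝔮 0 :=
        (hρ 0 𝔟.zero_mem _).2 (by simp)
      rw [fet_mk_out] at h1
      rw [← h1, h2, map_zero, MulChar.map_zero, zero_mul]
    · rw [tw_eq h𝔮 hψ h𝔟 hg hg0 hgc hmem h0 hdiff, fet_mk_out]
  have hsum : Summable (fun α : 𝔟 => tw κ 0 ψ 𝔟 α * Hf κ y ((α : 𝓞 K) : K)) :=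
    fet_summable 𝔟 y hy _ (fun α => fet_tw_le h𝔮' hψ 𝔟 α)
  set e := fet_equiv hg ρ hρ with he
  have hS : ∑' α : 𝔟, tw κ 0 ψ 𝔟 α * Hf κ y ((α : 𝓞 K) : K) =
      ∑ a : 𝓞 K ⧸ 𝔮, χ a * tw κ 0 ψ 𝔟 g *
        ∑' l : ↥(𝔮 * 𝔟), Hf κ y ((Quotient.out a * g + (l : 𝓞 K) : 𝓞 K) : K) := by
    rw [← e.tsum_eq]
    have hsum' := (e.summable_iff (f := fun α : 𝔟 =>
      tw κ 0 ψ 𝔟 α * Hf κ y ((α : 𝓞 K) : K))).2 hsum
    have h1 := hsum'.tsum_prod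
    simp only [Function.comp] at h1
    rw [h1, tsum_fintype]
    refine Finset.sum_congr rfl fun a _ => ?_
    rw [← tsum_mul_left]
    refine tsum_congr fun l => ?_
    have h2 : ((e (a, l) : 𝔟) : 𝓞 K) = Quotient.out a * g + (l : 𝓞 K) := rfl
    rw [h2, htw a l]
  have hprod : ∏ w, y w ^ w.mult = Real.exp v := prod_Yv v x
  -- Poisson
  have hee : ∀ t : ℝ, ‖ee t‖ = 1 := by
    intro t
    unfold ee
    rw [Complex.norm_exp]
    simp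
  have hsH : Summable (fun β : 𝔟' => ‖Hf κ (fun w => 1 / (N * y w)) ((β : 𝓞 K) : K)‖) :=
    fet_Hf_summable κ 𝔟' _ hyy
  set δ : ℂ := if κ = 0 then 1 else 0 with hδ
  have hone : (-I) ^ (∑ w, (κ w).natAbs) * δ = δ := by
    by_cases hk : κ = 0
    · rw [hk]
      simp
    · rw [hδ, if_neg hk, mul_zero]
  have hnI : ‖(-I) ^ (∑ w, (κ w).natAbs)‖ = 1 := by
    rw [norm_pow, norm_neg, Complex.norm_I, one_pow]
  have hPa : ∀ a : 𝓞 K ⧸ 𝔮, ∃ r : ℂ, ‖r‖ ≤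
      (C₀ / (Ideal.absNorm 𝔮 * Ideal.absNorm 𝔟) * (N : ℝ) ^ n) * C₁ ∧
      ∑' l : ↥(𝔮 * 𝔟), Hf κ y ((Quotient.out a * g + (l : 𝓞 K) : 𝓞 K) : K) =
      δ * ((C₀ / Ideal.absNorm 𝔮 : ℝ) : ℂ) * ((Real.exp (-v) / Ideal.absNorm 𝔟 : ℝ) : ℂ) + r := by
    intro a
    set T : 𝔟' → ℂ := fun β =>
      ee (((Algebra.trace ℚ K ((Quotient.out a * g * (β : 𝓞 K) : 𝓞 K) : K) : ℚ) : ℝ) / N) *
        starRingEnd ℂ (Hf κ (fun w => 1 / (N * y w)) ((β : 𝓞 K) : K)) with hT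
    have hTn : ∀ β, ‖T β‖ = ‖Hf κ (fun w => 1 / (N * y w)) ((β : 𝓞 K) : K)‖ := by
      intro β
      rw [hT]
      simp only
      rw [norm_mul, hee, one_mul, RCLike.norm_conj]
    have hTs : Summable T := Summable.of_norm (hsH.congr fun β => (hTn β).symm)
    have h1 := hP κ hκ (𝔮 * 𝔟) 𝔟' N hN hbb y hy (Quotient.out a * g)
    have h2 : ∑' β : 𝔟', T β = δ + ∑' β : 𝔟', (if (β : 𝓞 K) = 0 then 0 else T β) := by
      have h3 := hTs.tsum_eq_add_tsum_ite (0 : 𝔟')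
      have h4 : T 0 = δ := by
        rw [hT]
        simp only [Submodule.coe_zero, mul_zero, map_zero, Rat.cast_zero, zero_div]
        rw [tht_Hf_zero, hδ]
        unfold ee
        split_ifs <;> simp
      rw [h3, h4]
      congr 1
      refine tsum_congr fun β => ?_
      by_cases hβ : β = 0
      · rw [if_pos hβ, if_pos (by rw [hβ]; rfl)]
      · have h9 : ¬ ((β : 𝓞 K) = 0) := fun h => hβ (Subtype.ext h)
        rw [if_neg hβ, if_neg h9]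
    set R : ℂ := ∑' β : 𝔟', (if (β : 𝓞 K) = 0 then 0 else T β) with hRd
    have hRn : ‖R‖ ≤ ∑' β : 𝔟', (if (β : 𝓞 K) = 0 then 0 else
        ‖Hf κ (fun w => 1 / (N * y w)) ((β : 𝓞 K) : K)‖) := by
      refine tsum_of_norm_bounded (Summable.hasSum ?_) fun β => ?_
      · refine Summable.of_nonneg_of_le (fun β => ?_) (fun β => ?_) hsH
        · split_ifs
          · exact le_rfl
          · exact norm_nonneg _
        · split_ifs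
          · exact norm_nonneg _
          · exact le_rfl
      · split_ifs
        · rw [norm_zero]
        · exact (hTn β).le
    have hR2 := hR (-v - n * Real.log N) (-x) (by
      constructor
      · intro i
        have := hx.2 i
        simp only [Pi.neg_apply, Pi.one_apply] at this ⊢
        linarith
      · intro i
        have := hx.1 i
        simp only [Pi.neg_apply, Pi.one_apply, Pi.zero_apply] at this ⊢
        linarith)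
    rw [hy'] at hR2
    have hexp : Real.exp (-v - n * Real.log N) = Real.exp (-v) / (N : ℝ) ^ n := by
      rw [Real.exp_sub, ← Real.log_pow, Real.exp_log (by positivity)]
    rw [hexp] at hR2
    have hR3 : Real.exp (-v) * ‖R‖ ≤ (N : ℝ) ^ n * C₁ := by
      have h5 : Real.exp (-v) / (N : ℝ) ^ n * ‖R‖ ≤ C₁ :=
        (mul_le_mul_of_nonneg_left hRn (by positivity)).trans hR2
      have h6 : (0 : ℝ) < (N : ℝ) ^ n := by positivity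
      rw [div_mul_eq_mul_div, div_le_iff₀ h6] at h5
      linarith
    refine ⟨((C₀ / (Ideal.absNorm (𝔮 * 𝔟) * Real.exp v) : ℝ) : ℂ) *
        (-I) ^ (∑ w, (κ w).natAbs) * R, ?_, ?_⟩
    · rw [norm_mul, norm_mul, hnI, mul_one, Complex.norm_real, Real.norm_eq_abs,
        abs_of_nonneg (by positivity), map_mul Ideal.absNorm, Nat.cast_mul]
      have h7 : C₀ / (↑(Ideal.absNorm 𝔮) * ↑(Ideal.absNorm 𝔟) * Real.exp v) * ‖R‖ =
          C₀ / (↑(Ideal.absNorm 𝔮) * ↑(Ideal.absNorm 𝔟)) * (Real.exp (-v) * ‖R‖) := by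
        rw [Real.exp_neg]
        field_simp
      rw [h7, mul_assoc]
      exact mul_le_mul_of_nonneg_left hR3 (by positivity)
    · rw [h1, hprod]
      change ((C₀ / (Ideal.absNorm (𝔮 * 𝔟) * Real.exp v) : ℝ) : ℂ) *
        (-I) ^ (∑ w, (κ w).natAbs) * ∑' β : 𝔟', T β = _
      rw [h2, mul_add]
      congr 1
      rw [mul_assoc, hone, map_mul Ideal.absNorm, mul_comm _ δ, mul_assoc]
      congr 1
      rw [← Complex.ofReal_mul]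
      congr 1
      rw [Real.exp_neg]
      push_cast
      field_simp
  choose r hr hr' using hPa
  have hfin : ∑ᶠ a : 𝓞 K ⧸ 𝔮, χ a = ∑ a : 𝓞 K ⧸ 𝔮, χ a := finsum_eq_sum_of_fintype _
  have hkey : ∑' α : 𝔟, ψ (quo 𝔟 α) * Gf κ 0 (fun w => y w * w ((α : 𝓞 K) : K)) -
      δ * ((C₀ / Ideal.absNorm 𝔮 : ℝ) : ℂ) * (∑ᶠ a : 𝓞 K ⧸ 𝔮, χ a) * tw κ 0 ψ 𝔟 g *
        ((Real.exp (-v) / Ideal.absNorm 𝔟 : ℝ) : ℂ) =
      ∑ a : 𝓞 K ⧸ 𝔮, χ a * tw κ 0 ψ 𝔟 g * r a := by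
    rw [hL, hS, hfin]
    simp only [hr', mul_add]
    rw [Finset.sum_add_distrib]
    have h8 : ∑ a : 𝓞 K ⧸ 𝔮, χ a * tw κ 0 ψ 𝔟 g * (δ * ((C₀ / Ideal.absNorm 𝔮 : ℝ) : ℂ) *
        ((Real.exp (-v) / Ideal.absNorm 𝔟 : ℝ) : ℂ)) =
        δ * ((C₀ / Ideal.absNorm 𝔮 : ℝ) : ℂ) * (∑ a : 𝓞 K ⧸ 𝔮, χ a) * tw κ 0 ψ 𝔟 g *
        ((Real.exp (-v) / Ideal.absNorm 𝔟 : ℝ) : ℂ) := by
      rw [Finset.mul_sum, Finset.sum_mul, Finset.sum_mul]
      refine Finset.sum_congr rfl fun a _ => ?_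
      ring
    rw [h8]
    ring
  rw [hkey]
  have hχle : ∀ a : 𝓞 K ⧸ 𝔮, ‖χ a‖ ≤ 1 := by
    intro a
    by_cases hu : IsUnit a
    · obtain ⟨u, rfl⟩ := hu
      have h9 : (χ (u : 𝓞 K ⧸ 𝔮)) ^ Fintype.card (𝓞 K ⧸ 𝔮)ˣ = 1 := by
        rw [← map_pow, ← Units.val_pow_eq_pow_val, pow_card_eq_one, Units.val_one, map_one]
      exact (Complex.norm_eq_one_of_pow_eq_one h9 Fintype.card_ne_zero).le
    · rw [MulChar.map_nonunit χ hu, norm_zero]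
      exact zero_le_one
  refine (norm_sum_le _ _).trans ?_
  have h10 : ∀ a ∈ (Finset.univ : Finset (𝓞 K ⧸ 𝔮)), ‖χ a * tw κ 0 ψ 𝔟 g * r a‖ ≤
      (C₀ / (Ideal.absNorm 𝔮 * Ideal.absNorm 𝔟) * (N : ℝ) ^ n) * C₁ := by
    intro a _
    rw [norm_mul, norm_mul, tw_norm hψ hg0 hgc, mul_one]
    calc ‖χ a‖ * ‖r a‖ ≤ 1 * ‖r a‖ := mul_le_mul_of_nonneg_right (hχle a) (norm_nonneg _)
      _ ≤ _ := by rw [one_mul]; exact hr a
  refine (Finset.sum_le_sum h10).trans (le_of_eq ?_)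
  rw [Finset.sum_const, Finset.card_univ, nsmul_eq_mul]
  ring

/-- THT -/
theorem tht {E : Type} [Field E] [NumberField E] {𝔮 : Ideal (𝓞 E)} (h𝔮 : 𝔮 ≠ ⊥)
    (h𝔮' : 𝔮 ≠ ⊤) {κ : InfinitePlace E → ℤ}
    (hκ : ∀ w : InfinitePlace E, w.IsReal → κ w = 0 ∨ κ w = 1)
    {χ' : MulChar (𝓞 E ⧸ 𝔮) ℂ} {ψ : Ideal (𝓞 E) →* ℂ} (hψ : HZ.IsHecke 𝔮 κ 0 χ' ψ) :
    ∃ m : ℂ, (κ ≠ 0 → m = 0) ∧ ((∃ a, IsUnit a ∧ χ' a ≠ 1) → m = 0) ∧
      ∀ (𝔟 : Ideal (𝓞 E)), 𝔟 ≠ ⊥ → ∀ g : 𝓞 E, g ∈ 𝔟 → g ≠ 0 → IsCoprime (HZ.quo 𝔟 g) 𝔮 →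
      ∃ C : ℝ, ∀ u : ℝ, u ≤ 0 →
        ‖HZ.Scl 𝔟 ψ (HZ.Gf κ 0) u - m * HZ.tw κ 0 ψ 𝔟 g * (Real.exp (-u) : ℂ)‖ ≤ C := by
  classical
  have : Finite (𝓞 E ⧸ 𝔮) := Ideal.finiteQuotientOfFreeOfNeBot 𝔮 h𝔮
  have : Fintype (𝓞 E ⧸ 𝔮) := Fintype.ofFinite _
  have : Nontrivial (𝓞 E ⧸ 𝔮) := Ideal.Quotient.nontrivial_iff.2 h𝔮'
  obtain ⟨C₀, hpt⟩ := tht_point h𝔮 h𝔮' hκ
  have hfin : ∑ᶠ a : 𝓞 E ⧸ 𝔮, χ' a = ∑ a : 𝓞 E ⧸ 𝔮, χ' a := finsum_eq_sum_of_fintype _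
  have hsum0 : (∃ a, IsUnit a ∧ χ' a ≠ 1) → ∑ᶠ a : 𝓞 E ⧸ 𝔮, χ' a = 0 := by
    rintro ⟨a, ha, ha1⟩
    rw [hfin]
    refine MulChar.sum_eq_zero_of_ne_one fun h => ha1 ?_
    rw [h, MulChar.one_apply ha]
  set m : ℂ := (if κ = 0 then 1 else 0) * (C₀ / Ideal.absNorm 𝔮 : ℝ) *
    (∑ᶠ a : 𝓞 E ⧸ 𝔮, χ' a) / torsionOrder E with hm
  refine ⟨m, ?_, ?_, ?_⟩
  · intro h
    rw [hm, if_neg h]
    simp
  · intro h
    rw [hm, hsum0 h]
    simp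
  intro 𝔟 h𝔟 g' hg' hg0' hgc'
  -- the complementary ideal
  have hdiff : differentIdeal ℤ (𝓞 E) ≠ ⊥ := differentIdeal_ne_bot
  set J : Ideal (𝓞 E) := 𝔮 * 𝔟 * differentIdeal ℤ (𝓞 E) with hJ
  have hJ0 : J ≠ ⊥ := mul_ne_zero (mul_ne_zero h𝔮 h𝔟) hdiff
  set N : ℕ := Ideal.absNorm J with hN
  have hN0 : 0 < N := Nat.pos_of_ne_zero (Ideal.absNorm_eq_zero_iff.not.2 hJ0)
  obtain ⟨𝔟', hb'⟩ : J ∣ Ideal.span {(N : 𝓞 E)} := by
    rw [Ideal.dvd_span_singleton]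
    exact Ideal.absNorm_mem J
  have hbb : 𝔮 * 𝔟 * 𝔟' * differentIdeal ℤ (𝓞 E) = Ideal.span {(N : 𝓞 E)} := by
    rw [hb', hJ]
    ring
  obtain ⟨g, hg, hg0, hgc, hex, C, hC⟩ := hpt hψ hN0 hbb
  obtain ⟨CG, hCG⟩ := Gf_good κ
  -- change of g
  have hmg : m * tw κ 0 ψ 𝔟 g' = m * tw κ 0 ψ 𝔟 g := by
    obtain ⟨a, ha⟩ := hex g' hg'
    have h1 := tw_eq h𝔮 hψ h𝔟 hg hg0 hgc hg' hg0' ha
    by_cases hm0 : m = 0
    · rw [hm0, zero_mul, zero_mul]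
    · have hau : IsUnit (Ideal.Quotient.mk 𝔮 a) := by
        by_contra hu
        rw [MulChar.map_nonunit χ' hu, zero_mul] at h1
        have h2 := tw_norm hψ hg0' hgc'
        rw [h1, norm_zero] at h2
        exact zero_ne_one h2
      have h3 : χ' (Ideal.Quotient.mk 𝔮 a) = 1 := by
        by_contra h4
        apply hm0
        rw [hm, hsum0 ⟨_, hau, h4⟩]
        simp
      rw [h1, h3, one_mul]
  have ht : (torsionOrder E : ℂ) ≠ 0 := by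
    have := torsionOrder_ne_zero (K := E)
    exact_mod_cast this
  have htR : (0 : ℝ) < torsionOrder E := by
    exact_mod_cast Nat.pos_of_ne_zero (torsionOrder_ne_zero (K := E))
  have hnb : (0 : ℝ) < Ideal.absNorm 𝔟 := by
    exact_mod_cast Nat.pos_of_ne_zero (Ideal.absNorm_eq_zero_iff.not.2 h𝔟)
  refine ⟨C / torsionOrder E, fun u _ => ?_⟩
  set v : ℝ := u - Real.log (Ideal.absNorm 𝔟) with hv
  obtain ⟨hint, hval⟩ := unfold_units h𝔟 (hCG 0) (sfe_psi_le hψ) (sfe_psi_bot hψ h𝔮') 1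
    (Or.inl rfl) v
  simp only [one_smul] at hint hval
  have e1 : v + Real.log (Ideal.absNorm 𝔟) = u := by rw [hv]; ring
  rw [e1] at hval
  have e3 : Real.exp (-v) / Ideal.absNorm 𝔟 = Real.exp (-u) := by
    rw [hv, neg_sub, sub_eq_add_neg, Real.exp_add, Real.exp_log hnb]
    field_simp
  have hvol : volume (Set.Icc (0 : Fin (rank E) → ℝ) 1) = 1 := by
    rw [Real.volume_Icc_pi]
    simp
  set M : ℂ := (if κ = 0 then 1 else 0) * (C₀ / Ideal.absNorm 𝔮 : ℝ) *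
    (∑ᶠ a : 𝓞 E ⧸ 𝔮, χ' a) * tw κ 0 ψ 𝔟 g * ((Real.exp (-u) : ℝ) : ℂ) with hM
  have hMm : M = torsionOrder E * (m * tw κ 0 ψ 𝔟 g * ((Real.exp (-u) : ℝ) : ℂ)) := by
    rw [hM, hm]
    field_simp
  have hconst : ∫ x in Set.Icc (0 : Fin (rank E) → ℝ) 1, M = M := by
    rw [setIntegral_const, Measure.real, hvol]
    simp
  have hfi : IntegrableOn (fun _ : Fin (rank E) → ℝ => M) (Set.Icc 0 1) := by
    refine integrableOn_const ?_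
    rw [hvol]
    exact ENNReal.one_ne_top
  have hdiffI : torsionOrder E * (Scl 𝔟 ψ (Gf κ 0) u -
      m * tw κ 0 ψ 𝔟 g * ((Real.exp (-u) : ℝ) : ℂ)) =
      ∫ x in Set.Icc (0 : Fin (rank E) → ℝ) 1, (∑' α : 𝔟, ψ (quo 𝔟 α) *
        Gf κ 0 (fun w => Yv E v x w * w ((α : 𝓞 E) : E)) - M) := by
    rw [integral_sub hint hfi, hval, hconst, mul_sub, ← hMm]
  have hle : ‖∫ x in Set.Icc (0 : Fin (rank E) → ℝ) 1, (∑' α : 𝔟, ψ (quo 𝔟 α) *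
        Gf κ 0 (fun w => Yv E v x w * w ((α : 𝓞 E) : E)) - M)‖ ≤
      C * (volume (Set.Icc (0 : Fin (rank E) → ℝ) 1)).toReal := by
    refine norm_setIntegral_le_of_norm_le_const (by rw [hvol]; exact ENNReal.one_lt_top) ?_
    intro x hx
    have h5 := hC v x hx
    rw [e3] at h5
    exact h5
  rw [← hdiffI, hvol, ENNReal.toReal_one, mul_one, norm_mul, Complex.norm_natCast] at hle
  rw [hmg, le_div_iff₀ htR, mul_comm]
  exact hle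

end Pool.Agent.DS
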