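import Pool.Agent.Lib_helper54.DS.Defs
import Pool.Agent.Lib_helper41.HZF.SFE
import Pool.Agent.Lib_helper41.HZF.LAM2
import Pool.Agent.Lib_helper41.HZF.INF
import Pool.Agent.Lib_helper54.DSF.THT

/-! Block DSB: the density of a nontrivial character is bounded (helper7). -/

set_option autoImplicit false

namespace Pool.Agent.DS

open Polynomial NumberField Filter Topology MeasureTheory

variable {E : Type} [Field E] [NumberField E]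

theorem dsb_psiInf (a : E) : HZ.psiInf (K := E) 0 0 a = 1 := by
  unfold HZ.psiInf
  apply Finset.prod_eq_one
  intro w _
  simp

theorem dsb_coprime_ne {𝔮 : Ideal (𝓞 E)} (h𝔮' : 𝔮 ≠ ⊤) {I : Ideal (𝓞 E)} (h : IsCoprime I 𝔮) :
    I ≠ ⊥ := by
  rintro rfl
  rw [Ideal.isCoprime_iff_sup_eq, bot_sup_eq] at h
  exact h𝔮' h

/-- the value at an ideal prime to the modulus depends only on the class -/
theorem dsb_class {𝔮 : Ideal (𝓞 E)} (h𝔮 : 𝔮 ≠ ⊥) (h𝔮' : 𝔮 ≠ ⊤)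
    {χ' : MulChar (𝓞 E ⧸ 𝔮) ℂ} {ψ : Ideal (𝓞 E) →* ℂ} (hψ : HZ.IsHecke 𝔮 0 0 χ' ψ)
    (hχ : ∀ a, IsUnit a → χ' a = 1) {I I' : Ideal (𝓞 E)} (hI : IsCoprime I 𝔮)
    (hI' : IsCoprime I' 𝔮)
    (hc : ClassGroup.mk0 ⟨I, mem_nonZeroDivisors_of_ne_zero (dsb_coprime_ne h𝔮' hI)⟩ =
      ClassGroup.mk0 ⟨I', mem_nonZeroDivisors_of_ne_zero (dsb_coprime_ne h𝔮' hI')⟩) :
    ψ I = ψ I' := by
  obtain ⟨g, -, hg, hg0, hgc, -⟩ := HZ.exists_res h𝔮 (dsb_coprime_ne h𝔮' hI)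
  have hD0 := dsb_coprime_ne h𝔮' hgc
  have key : ∀ J : Ideal (𝓞 E), IsCoprime J 𝔮 → (J * HZ.quo I g).IsPrincipal →
      ψ J * ψ (HZ.quo I g) = 1 := by
    intro J hJ hp
    obtain ⟨x, hx⟩ := hp.principal
    have hx' : J * HZ.quo I g = Ideal.span {x} := hx
    have hu : IsUnit (Ideal.Quotient.mk 𝔮 x) := by
      rw [HZ.RES_isUnit_iff, ← hx']
      exact hJ.mul_left hgc
    rw [← map_mul, hx', hψ.principal x hu, hχ _ hu, dsb_psiInf, one_mul]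
  have h1 : ψ I * ψ (HZ.quo I g) = 1 := key I hI
    ((HZ.cls_principal_iff (dsb_coprime_ne h𝔮' hI) hD0).2 (by
      rw [← map_mul, ClassGroup.mk0_eq_one_iff]
      exact ⟨g, HZ.quo_spec hg hg0⟩))
  have h2 : ψ I' * ψ (HZ.quo I g) = 1 := key I' hI'
    ((HZ.cls_principal_iff (dsb_coprime_ne h𝔮' hI') hD0).2 (by
      rw [← hc, ← map_mul, ClassGroup.mk0_eq_one_iff]
      exact ⟨g, HZ.quo_spec hg hg0⟩))
  have h3 : ψ (HZ.quo I g) ≠ 0 := by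
    intro h
    rw [h, mul_zero] at h1
    exact zero_ne_one h1
  exact mul_right_cancel₀ h3 (h1.trans h2.symm)

theorem dsb_sum {𝔮 : Ideal (𝓞 E)} (h𝔮 : 𝔮 ≠ ⊥) (h𝔮' : 𝔮 ≠ ⊤)
    {χ' : MulChar (𝓞 E ⧸ 𝔮) ℂ} {ψ : Ideal (𝓞 E) →* ℂ} (hψ : HZ.IsHecke 𝔮 0 0 χ' ψ)
    (hχ : ∀ a, IsUnit a → χ' a = 1)
    (hnt : ∃ I : Ideal (𝓞 E), IsCoprime I 𝔮 ∧ ψ I ≠ 1)
    (J : ClassGroup (𝓞 E) → Ideal (𝓞 E)) (hJ : ∀ c, IsCoprime (J c) 𝔮)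
    (hJc : ∀ c, ClassGroup.mk0 ⟨J c, mem_nonZeroDivisors_of_ne_zero
      (dsb_coprime_ne h𝔮' (hJ c))⟩ = c⁻¹) :
    ∑ c, ψ (J c) = 0 := by
  obtain ⟨I, hI, hI1⟩ := hnt
  have hI0 := dsb_coprime_ne h𝔮' hI
  set i : ClassGroup (𝓞 E) := ClassGroup.mk0 ⟨I, mem_nonZeroDivisors_of_ne_zero hI0⟩ with hi
  have h1 : ∀ c, ψ I * ψ (J c) = ψ (J (c * i⁻¹)) := by
    intro c
    rw [← map_mul]
    apply dsb_class h𝔮 h𝔮' hψ hχ (hI.mul_left (hJ c)) (hJ _)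
    rw [hJc, mul_inv_rev, inv_inv, ← hJc c, hi, ← map_mul]
    rfl
  have h2 : ψ I * ∑ c, ψ (J c) = ∑ c, ψ (J c) := by
    rw [Finset.mul_sum]
    simp_rw [h1]
    exact Equiv.sum_comp (Equiv.mulRight i⁻¹) (fun c => ψ (J c))
  have h3 : (ψ I - 1) * ∑ c, ψ (J c) = 0 := by
    rw [sub_mul, h2, one_mul, sub_self]
  rcases mul_eq_zero.1 h3 with h4 | h4
  · exact absurd (sub_eq_zero.1 h4) hI1
  · exact h4

/-- DSB -/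
theorem dsb {𝔮 : Ideal (𝓞 E)} (h𝔮 : 𝔮 ≠ ⊥) (h𝔮' : 𝔮 ≠ ⊤) {κ : InfinitePlace E → ℤ}
    (hκ : ∀ w : InfinitePlace E, w.IsReal → κ w = 0 ∨ κ w = 1)
    {χ' : MulChar (𝓞 E ⧸ 𝔮) ℂ} {ψ : Ideal (𝓞 E) →* ℂ} (hψ : HZ.IsHecke 𝔮 κ 0 χ' ψ)
    (hnt : ∃ I : Ideal (𝓞 E), IsCoprime I 𝔮 ∧ ψ I ≠ 1) :
    ∃ C : ℝ, ∀ u : ℝ, u ≤ 0 → ‖HZ.Dser ψ (HZ.Gf κ 0) u‖ ≤ C * Real.exp (u / 2) := by
  classical
  obtain ⟨m, hm1, hm2, hm⟩ := tht h𝔮 h𝔮' hκ hψ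
  obtain ⟨C₀, hC₀⟩ := HZ.Gf_good κ
  have hle := HZ.sfe_psi_le hψ
  have hbot := HZ.sfe_psi_bot hψ h𝔮'
  have hsurj := ClassGroup.mk0_surjective (R := 𝓞 E)
  choose r hr using hsurj
  set rep : ClassGroup (𝓞 E) → Ideal (𝓞 E) := fun c => (r c : Ideal (𝓞 E)) with hrepd
  have h0 : ∀ c, rep c ≠ ⊥ := fun c => nonZeroDivisors.ne_zero (r c).2
  have hrep : ∀ c, ClassGroup.mk0 ⟨rep c, mem_nonZeroDivisors_of_ne_zero (h0 c)⟩ = c :=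
    fun c => hr c
  have hg : ∀ c, ∃ g : 𝓞 E, g ∈ rep c ∧ g ≠ 0 ∧ IsCoprime (HZ.quo (rep c) g) 𝔮 := by
    intro c
    obtain ⟨g, -, h1, h2, h3, -⟩ := HZ.exists_res h𝔮 (h0 c)
    exact ⟨g, h1, h2, h3⟩
  choose g hg1 hg2 hg3 using hg
  have hsum : m * ∑ c, HZ.tw κ 0 ψ (rep c) (g c) = 0 := by
    by_cases hm0 : m = 0
    · rw [hm0, zero_mul]
    · have hk : κ = 0 := by
        by_contra h
        exact hm0 (hm1 h)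
      have hχ : ∀ a, IsUnit a → χ' a = 1 := by
        intro a ha
        by_contra h
        exact hm0 (hm2 ⟨a, ha, h⟩)
      subst hk
      have h1 : ∀ c, HZ.tw 0 0 ψ (rep c) (g c) = ψ (HZ.quo (rep c) (g c)) := by
        intro c
        unfold HZ.tw
        rw [dsb_psiInf, inv_one, mul_one]
      simp_rw [h1]
      rw [dsb_sum h𝔮 h𝔮' hψ hχ hnt (fun c => HZ.quo (rep c) (g c)) hg3, mul_zero]
      intro c
      have h2 : ClassGroup.mk0 ⟨rep c, mem_nonZeroDivisors_of_ne_zero (h0 c)⟩ *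
          ClassGroup.mk0 ⟨HZ.quo (rep c) (g c), mem_nonZeroDivisors_of_ne_zero
            (dsb_coprime_ne h𝔮' (hg3 c))⟩ = 1 := by
        rw [← map_mul, ClassGroup.mk0_eq_one_iff]
        exact ⟨g c, HZ.quo_spec (hg1 c) (hg2 c)⟩
      rw [hrep] at h2
      exact (inv_eq_of_mul_eq_one_right h2).symm
  have hC : ∀ c, ∃ C : ℝ, ∀ u : ℝ, u ≤ 0 →
      ‖HZ.Scl (rep c) ψ (HZ.Gf κ 0) u - m * HZ.tw κ 0 ψ (rep c) (g c) *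
        (Real.exp (-u) : ℂ)‖ ≤ C := fun c => hm (rep c) (h0 c) (g c) (hg1 c) (hg2 c) (hg3 c)
  choose C hC using hC
  refine ⟨∑ c, C c, fun u hu => ?_⟩
  rw [HZ.Dser_classes rep h0 hrep (hC₀ 0) hle hbot, norm_mul, Complex.norm_real,
    Real.norm_of_nonneg (Real.exp_pos _).le, mul_comm]
  apply mul_le_mul_of_nonneg_right _ (Real.exp_pos _).le
  have h1 : ∑ c, HZ.Scl (rep c) ψ (HZ.Gf κ 0) u =
      ∑ c, (HZ.Scl (rep c) ψ (HZ.Gf κ 0) u - m * HZ.tw κ 0 ψ (rep c) (g c) *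
        (Real.exp (-u) : ℂ)) := by
    rw [Finset.sum_sub_distrib, ← Finset.sum_mul, ← Finset.mul_sum, hsum, zero_mul, sub_zero]
  rw [h1]
  exact (norm_sum_le _ _).trans (Finset.sum_le_sum fun c _ => hC c u hu)

end Pool.Agent.DS
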