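import Pool.Agent.Lib_helper54.DS.Defs
import Pool.Agent.Lib_helper41.HZF.SFE
import Pool.Agent.Lib_helper41.HZF.LAM2
import Pool.Agent.Lib_helper41.HZF.INF
import Pool.Agent.Lib_helper62.G4I.TWH

/-! Block HEC: `I ↦ χ(N I)` is a Hecke character modulo `(q)`. -/

set_option autoImplicit false

namespace Pool.Agent.DS

open NumberField NumberField.InfinitePlace Complex
open Pool.Agent

variable (E : Type) [Field E] [NumberField E]

/-- the finite part -/
noncomputable def hec_chi {q : ℕ} (hq : 0 < q) (χ : DirichletCharacter ℂ q) :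
    MulChar (𝓞 E ⧸ Ideal.span {(q : 𝓞 E)}) ℂ where
  toFun x := Quotient.liftOn' x (fun α : 𝓞 E => χ ((Algebra.norm ℤ α : ℤ) : ZMod q)) (by
    intro a b hab
    have h := (Submodule.quotientRel_def _).1 hab
    rw [G4I.TWH.norm_congr h])
  map_one' := by
    change χ ((Algebra.norm ℤ (1 : 𝓞 E) : ℤ) : ZMod q) = 1
    rw [map_one, Int.cast_one, map_one]
  map_mul' x y := by
    obtain ⟨α, rfl⟩ := Ideal.Quotient.mk_surjective x
    obtain ⟨β, rfl⟩ := Ideal.Quotient.mk_surjective y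
    rw [← map_mul]
    change χ ((Algebra.norm ℤ (α * β) : ℤ) : ZMod q) =
      χ ((Algebra.norm ℤ α : ℤ) : ZMod q) * χ ((Algebra.norm ℤ β : ℤ) : ZMod q)
    rw [map_mul, Int.cast_mul, map_mul]
  map_nonunit' x hx := by
    obtain ⟨α, rfl⟩ := Ideal.Quotient.mk_surjective x
    change χ ((Algebra.norm ℤ α : ℤ) : ZMod q) = 0
    rw [G4I.TWH.isUnit_norm_iff hq] at hx
    exact χ.map_nonunit hx

theorem hec_chi_mk {q : ℕ} (hq : 0 < q) (χ : DirichletCharacter ℂ q) (α : 𝓞 E) :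
    hec_chi E hq χ (Ideal.Quotient.mk _ α) = χ ((Algebra.norm ℤ α : ℤ) : ZMod q) := rfl

theorem hec {q : ℕ} (hq : 1 < q) (χ : DirichletCharacter ℂ q) :
    ∃ (κ : InfinitePlace E → ℤ) (χ' : MulChar (𝓞 E ⧸ Ideal.span {(q : 𝓞 E)}) ℂ)
      (ψ : Ideal (𝓞 E) →* ℂ), (∀ w : InfinitePlace E, w.IsReal → κ w = 0 ∨ κ w = 1) ∧
      (∀ I : Ideal (𝓞 E), ψ I = χ ((Ideal.absNorm I : ℕ) : ZMod q)) ∧
      HZ.IsHecke (Ideal.span {(q : 𝓞 E)}) κ 0 χ' ψ := by
  classical
  have hq0 : 0 < q := by omega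
  have hψ : ∀ I : Ideal (𝓞 E), G4I.twist (1 : Ideal (𝓞 E) →* ℂ) χ I =
      χ ((Ideal.absNorm I : ℕ) : ZMod q) := by
    intro I
    change (1 : Ideal (𝓞 E) →* ℂ) I * χ ((Ideal.absNorm I : ℕ) : ZMod q) = _
    rw [MonoidHom.one_apply, one_mul]
  have hk0 : ∀ w : InfinitePlace E, w.IsReal →
      (0 : InfinitePlace E → ℤ) w = 0 ∨ (0 : InfinitePlace E → ℤ) w = 1 := fun w _ => Or.inl rfl
  refine ⟨G4I.kapd 0 (G4.par χ), hec_chi E hq0 χ, G4I.twist 1 χ, ?_, hψ, ?_, ?_, ?_⟩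
  · intro w _
    unfold G4I.kapd
    split_ifs
    · right
      simp
    · left
      rfl
  · intro I h
    obtain ⟨u, hu⟩ := (G4I.TWH.absNorm_coprime_of hq0).1 h
    have : NeZero q := ⟨hq0.ne'⟩
    rw [hψ, ← hu]
    exact DirichletCharacter.unit_norm_eq_one χ u
  · intro I h
    rw [G4I.TWH.absNorm_coprime_of hq0] at h
    rw [hψ, χ.map_nonunit h]
  · intro α h
    have hα : α ≠ 0 := by
      rintro rfl
      rw [map_zero, isUnit_zero_iff] at h
      have h1 : (1 : 𝓞 E) ∈ Ideal.span {(q : 𝓞 E)} := by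
        rw [← Ideal.Quotient.eq_zero_iff_mem, map_one, ← h]
      have h2 : (q : 𝓞 E) ∣ 1 := Ideal.mem_span_singleton.1 h1
      have h4 := map_dvd (Algebra.norm ℤ) h2
      rw [map_one] at h4
      have h5 : Algebra.norm ℤ ((q : 𝓞 E)) = (q : ℤ) ^ Module.finrank ℤ (𝓞 E) := by
        have := Algebra.norm_algebraMap (R := ℤ) (S := 𝓞 E) (q : ℤ)
        simpa using this
      rw [h5] at h4
      have h6 : (q : ℤ) ∣ 1 := dvd_trans (dvd_pow_self _ Module.finrank_pos.ne') h4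
      have h7 : q ∣ 1 := by exact_mod_cast h6
      have h8 := Nat.dvd_one.1 h7
      omega
    have h1 := G4I.TWH.eta_abs χ 0 0 hk0 hα
    have h2 : HZ.psiInf 0 0 (α : E) = 1 := by
      unfold HZ.psiInf
      refine Finset.prod_eq_one fun w _ => ?_
      simp
    rw [hψ, Ideal.absNorm_span_singleton, hec_chi_mk, ← h1, h2, one_mul]

end Pool.Agent.DS
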