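import Pool.Agent.Lib_helper54.DS.Defs
import Pool.Agent.Lib_helper41.HZF.SFE
import Pool.Agent.Lib_helper41.HZF.LAM2
import Pool.Agent.Lib_helper41.HZF.INF

/-! Block LSC: the Dirichlet series as a sum over the ideals (helper7). -/

set_option autoImplicit false

namespace Pool.Agent.DS

open Polynomial NumberField Filter Topology MeasureTheory

variable (E : Type) [Field E] [NumberField E]

theorem lsc_summable {q : ℕ} (χ : DirichletCharacter ℂ q) {s : ℝ} (hs : 1 < s) :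
    Summable (fun I : Ideal (𝓞 E) => χ ((Ideal.absNorm I : ℕ) : ZMod q) *
      (Ideal.absNorm I : ℂ) ^ (-(s : ℂ))) := by
  apply Summable.of_norm_bounded (HZ.ideal_summable (K := E) hs)
  intro I
  rw [norm_mul]
  have h1 : ‖((Ideal.absNorm I : ℕ) : ℂ) ^ (-(s : ℂ))‖ = (Ideal.absNorm I : ℝ) ^ (-s) := by
    by_cases h : Ideal.absNorm I = 0
    · rw [h]
      have h2 : (-(s : ℂ)) ≠ 0 := by
        rw [neg_ne_zero]
        exact_mod_cast (by linarith : s ≠ 0)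
      have h3 : -s ≠ 0 := by linarith
      rw [Nat.cast_zero, Complex.zero_cpow h2, norm_zero, Nat.cast_zero, Real.zero_rpow h3]
    · rw [Complex.norm_natCast_cpow_of_pos (Nat.pos_of_ne_zero h)]
      simp
  rw [h1]
  calc ‖χ ((Ideal.absNorm I : ℕ) : ZMod q)‖ * (Ideal.absNorm I : ℝ) ^ (-s) ≤
      1 * (Ideal.absNorm I : ℝ) ^ (-s) := by
        apply mul_le_mul_of_nonneg_right (DirichletCharacter.norm_le_one χ _) (by positivity)
    _ = _ := one_mul _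

/-- LSC -/
theorem lsc {q : ℕ} (hq : 1 < q) (χ : DirichletCharacter ℂ q) {s : ℝ} (hs : 1 < s) :
    LL E χ s = ∑' I : Ideal (𝓞 E), χ ((Ideal.absNorm I : ℕ) : ZMod q) *
      (Ideal.absNorm I : ℂ) ^ (-(s : ℂ)) := by
  have hsum := lsc_summable E χ hs
  have hs2 := (Equiv.sigmaFiberEquiv (fun I : Ideal (𝓞 E) => Ideal.absNorm I)).summable_iff.2 hsum
  have e0 : ∑' I : Ideal (𝓞 E), χ ((Ideal.absNorm I : ℕ) : ZMod q) *
      (Ideal.absNorm I : ℂ) ^ (-(s : ℂ)) =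
      ∑' x : (n : ℕ) × {I : Ideal (𝓞 E) // Ideal.absNorm I = n},
        ((fun I : Ideal (𝓞 E) => χ ((Ideal.absNorm I : ℕ) : ZMod q) *
          (Ideal.absNorm I : ℂ) ^ (-(s : ℂ))) ∘
          (Equiv.sigmaFiberEquiv (fun I : Ideal (𝓞 E) => Ideal.absNorm I))) x :=
    ((Equiv.sigmaFiberEquiv (fun I : Ideal (𝓞 E) => Ideal.absNorm I)).tsum_eq _).symm
  rw [e0, hs2.tsum_sigma]
  unfold LL LSeries
  apply tsum_congr
  intro n
  have h : ∀ y : {I : Ideal (𝓞 E) // Ideal.absNorm I = n},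
      χ ((Ideal.absNorm ((Equiv.sigmaFiberEquiv (fun I : Ideal (𝓞 E) => Ideal.absNorm I)) ⟨n, y⟩) :
        ℕ) : ZMod q) * (Ideal.absNorm ((Equiv.sigmaFiberEquiv
          (fun I : Ideal (𝓞 E) => Ideal.absNorm I)) ⟨n, y⟩) : ℂ) ^ (-(s : ℂ)) =
      χ (n : ZMod q) * (n : ℂ) ^ (-(s : ℂ)) := by
    intro y
    have h1 : Ideal.absNorm ((Equiv.sigmaFiberEquiv
      (fun I : Ideal (𝓞 E) => Ideal.absNorm I)) ⟨n, y⟩) = n := y.2
    rw [h1]
  have hfin : Finite {I : Ideal (𝓞 E) // Ideal.absNorm I = n} :=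
    Ideal.finite_setOfPred_absNorm_eq n
  have h2 : (∑' y : {I : Ideal (𝓞 E) // Ideal.absNorm I = n},
      χ ((Ideal.absNorm ((Equiv.sigmaFiberEquiv (fun I : Ideal (𝓞 E) => Ideal.absNorm I)) ⟨n, y⟩) :
        ℕ) : ZMod q) * (Ideal.absNorm ((Equiv.sigmaFiberEquiv
          (fun I : Ideal (𝓞 E) => Ideal.absNorm I)) ⟨n, y⟩) : ℂ) ^ (-(s : ℂ))) =
      (aE E n : ℂ) * (χ (n : ZMod q) * (n : ℂ) ^ (-(s : ℂ))) := by
    simp_rw [h]
    rw [tsum_const, nsmul_eq_mul]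
    rfl
  refine Eq.trans ?_ h2.symm
  rw [LSeries.term_def]
  split_ifs with hn
  · subst hn
    have h3 : χ ((0 : ℕ) : ZMod q) = 0 := by
      have : Fact (1 < q) := ⟨hq⟩
      rw [Nat.cast_zero]
      exact χ.map_zero
    rw [h3, zero_mul, mul_zero]
  · rw [Complex.cpow_neg, div_eq_mul_inv, mul_assoc]

end Pool.Agent.DS
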