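import Pool.Agent.Lib_helper54.DS.Defs
import Pool.Agent.Lib_helper41.HZF.SFE
import Pool.Agent.Lib_helper41.HZF.LAM2
import Pool.Agent.Lib_helper41.HZF.INF
import Pool.Agent.Lib_helper41.HZF.FET
import Pool.Agent.Lib_helper41.HZF.KG

/-!
# The Hecke L-series has a limit at 1 when the density decays (block MEL)
-/

set_option autoImplicit false

namespace Pool.Agent.DS

open Polynomial NumberField Filter Topology MeasureTheory Complex
open Pool.Agent.RS.Main (DirichletGE primeSum BoundedEigenform)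

variable {E : Type} [Field E] [NumberField E]

/-- The inverse of the Gamma factor is entire. -/
theorem mel_gam_inv (κ : InfinitePlace E → ℤ) (lam : InfinitePlace E → ℝ) :
    Continuous (fun s : ℂ => (HZ.gam κ lam s)⁻¹) := by
  classical
  have h : (fun s : ℂ => (HZ.gam κ lam s)⁻¹) = fun s : ℂ => ∏ w : InfinitePlace E,
      if w.IsReal then (Gammaℝ (s + |κ w| + lam w * I))⁻¹
        else (Gammaℂ (s + |κ w| / 2 + lam w / 2 * I))⁻¹ := by
    funext s
    unfold HZ.gam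
    rw [← Finset.prod_inv_distrib]
    refine Finset.prod_congr rfl fun w _ => ?_
    split_ifs <;> rfl
  rw [h]
  refine continuous_finsetProd _ fun w _ => ?_
  split_ifs
  · exact differentiable_Gammaℝ_inv.continuous.comp (by fun_prop)
  · exact differentiable_Gammaℂ_inv.continuous.comp (by fun_prop)

/-- The Gamma factor does not vanish to the right of `0`. -/
theorem mel_gam_ne (κ : InfinitePlace E → ℤ) (lam : InfinitePlace E → ℝ) {s : ℂ} (hs : 0 < s.re) :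
    HZ.gam κ lam s ≠ 0 := by
  classical
  unfold HZ.gam
  refine Finset.prod_ne_zero_iff.mpr fun w _ => ?_
  have hk : (0 : ℝ) ≤ ((|κ w| : ℤ) : ℝ) := by exact_mod_cast abs_nonneg (κ w)
  split_ifs
  · apply Gammaℝ_ne_zero_of_re_pos
    have : (s + ((|κ w| : ℤ) : ℂ) + lam w * I).re = s.re + ((|κ w| : ℤ) : ℝ) := by simp
    rw [this]
    positivity
  · have h2 : (s + ((|κ w| : ℤ) : ℂ) / 2 + lam w / 2 * I).re = s.re + ((|κ w| : ℤ) : ℝ) / 2 := by
      simp
    have h3 : 0 < (s + ((|κ w| : ℤ) : ℂ) / 2 + lam w / 2 * I).re := by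
      rw [h2]
      positivity
    rw [← Gammaℝ_mul_Gammaℝ_add_one]
    refine mul_ne_zero (Gammaℝ_ne_zero_of_re_pos h3) (Gammaℝ_ne_zero_of_re_pos ?_)
    rw [Complex.add_re, Complex.one_re]
    linarith

/-- Dominated convergence for a Mellin transform at the edge. -/
theorem mel_lim {D : ℝ → ℂ} (hc : Continuous D) {C C' : ℝ}
    (h1 : ∀ u : ℝ, u ≤ 0 → ‖D u‖ ≤ C * Real.exp (u / 2)) (hC' : 0 ≤ C')
    (h2 : ∀ u : ℝ, ‖D u‖ ≤ C' * Real.exp (-(5 / 2 * u))) :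
    Tendsto (fun s : ℝ => ∫ u : ℝ, D u * cexp (((s : ℂ) - 1 / 2) * u)) (𝓝[>] 1)
      (𝓝 (∫ u : ℝ, D u * cexp ((((1 : ℝ) : ℂ) - 1 / 2) * u))) := by
  have hC : 0 ≤ C := by
    have := (norm_nonneg _).trans (h1 0 le_rfl)
    simpa using this
  refine tendsto_integral_filter_of_dominated_convergence
    (fun u => (C + C') * Real.exp (-|u|)) ?_ ?_ (HZ.lam2_int_exp.const_mul _) ?_
  · refine Eventually.of_forall fun s => Continuous.aestronglyMeasurable ?_
    fun_prop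
  · have hm : Set.Ioc (1 : ℝ) 2 ∈ 𝓝[>] (1 : ℝ) := Ioc_mem_nhdsGT (by norm_num)
    filter_upwards [hm] with s hs
    refine Eventually.of_forall fun u => ?_
    rw [norm_mul, Complex.norm_exp]
    have hre : (((s : ℂ) - 1 / 2) * (u : ℂ)).re = (s - 1 / 2) * u := by
      rw [Complex.mul_re, Complex.ofReal_re, Complex.ofReal_im]
      simp
    rw [hre]
    rcases le_total u 0 with hu | hu
    · rw [abs_of_nonpos hu, neg_neg]
      calc ‖D u‖ * Real.exp ((s - 1 / 2) * u) ≤ (C * Real.exp (u / 2)) * Real.exp (u / 2) := by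
            refine mul_le_mul (h1 u hu) (Real.exp_le_exp.mpr ?_) (Real.exp_pos _).le
              (by positivity)
            nlinarith [hs.1]
        _ = C * Real.exp u := by
            rw [mul_assoc, ← Real.exp_add]; congr 2; ring
        _ ≤ (C + C') * Real.exp u := by
            have := Real.exp_pos u
            nlinarith
    · rw [abs_of_nonneg hu]
      calc ‖D u‖ * Real.exp ((s - 1 / 2) * u) ≤
            (C' * Real.exp (-(5 / 2 * u))) * Real.exp (3 / 2 * u) := by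
            refine mul_le_mul (h2 u) (Real.exp_le_exp.mpr ?_) (Real.exp_pos _).le
              (by positivity)
            nlinarith [hs.2]
        _ = C' * Real.exp (-u) := by
            rw [mul_assoc, ← Real.exp_add]; congr 2; ring
        _ ≤ (C + C') * Real.exp (-u) := by
            have := Real.exp_pos (-u)
            nlinarith
  · refine Eventually.of_forall fun u => ?_
    have hcont : Continuous (fun s : ℝ => D u * cexp (((s : ℂ) - 1 / 2) * u)) := by fun_prop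
    exact (hcont.tendsto 1).mono_left nhdsWithin_le_nhds

/-- MEL -/
theorem mel {𝔮 : Ideal (𝓞 E)} (h𝔮' : 𝔮 ≠ ⊤) {κ : InfinitePlace E → ℤ}
    {χ' : MulChar (𝓞 E ⧸ 𝔮) ℂ} {ψ : Ideal (𝓞 E) →* ℂ} (hψ : HZ.IsHecke 𝔮 κ 0 χ' ψ)
    (hD : ∃ C : ℝ, ∀ u : ℝ, u ≤ 0 → ‖HZ.Dser ψ (HZ.Gf κ 0) u‖ ≤ C * Real.exp (u / 2)) :
    ∃ w : ℂ, Tendsto (fun s : ℝ => ∑' I : Ideal (𝓞 E), ψ I * (Ideal.absNorm I : ℂ) ^ (-(s : ℂ)))
      (𝓝[>] 1) (𝓝 w) := by
  obtain ⟨C, hC⟩ := hD
  have hψ0 : ψ ⊥ = 0 := HZ.fet_psi_bot h𝔮' hψ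
  have hψ1 : ∀ 𝔞, ‖ψ 𝔞‖ ≤ 1 := HZ.fet_psi_le hψ
  obtain ⟨Cg, hCg⟩ := HZ.Gf_good κ
  have hgood := hCg (0 : InfinitePlace E → ℝ)
  obtain ⟨C', hC'0, hC'⟩ := HZ.Dser_le hgood (b := fun I => ψ I) hψ1 hψ0 (A := 5 / 2) (by norm_num)
  have hcont : Continuous (HZ.Dser (fun I => ψ I) (HZ.Gf κ 0)) := HZ.Dser_continuous hgood hψ1 hψ0
  have hlim := mel_lim hcont hC hC'0 hC'
  obtain ⟨C₀, hC₀, hk⟩ := HZ.mellin_kint (K := E)
  have hinv : Tendsto (fun s : ℝ => ((C₀ : ℂ))⁻¹ * (HZ.gam κ 0 (s : ℂ))⁻¹) (𝓝[>] 1)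
      (𝓝 ((C₀ : ℂ)⁻¹ * (HZ.gam κ 0 ((1 : ℝ) : ℂ))⁻¹)) := by
    have hc : Continuous (fun s : ℝ => ((C₀ : ℂ))⁻¹ * (HZ.gam κ 0 (s : ℂ))⁻¹) :=
      continuous_const.mul ((mel_gam_inv κ 0).comp Complex.continuous_ofReal)
    exact (hc.tendsto 1).mono_left nhdsWithin_le_nhds
  refine ⟨_, (hlim.mul hinv).congr' ?_⟩
  filter_upwards [self_mem_nhdsWithin] with s hs
  have hs1 : (1 : ℝ) < ((s : ℂ)).re := by simpa using hs
  have hs0 : (0 : ℝ) < ((s : ℂ)).re := by linarith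
  have hm := HZ.mellin_Dser (κ := κ) (lam := 0) hψ1 hψ0 hs1
  rw [hm, (hk κ 0 (s : ℂ) hs0).2]
  have hg := mel_gam_ne κ 0 hs0
  have hC₀' : (C₀ : ℂ) ≠ 0 := by exact_mod_cast hC₀.ne'
  field_simp

end Pool.Agent.DS
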