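import Pool.Agent.Lib_helper54.DS.Defs
import Pool.Agent.Lib_helper41.HZF.SFE
import Pool.Agent.Lib_helper41.HZF.LAM2
import Pool.Agent.Lib_helper41.HZF.INF
import Pool.Agent.Lib_helper54.DSF.DSB
import Pool.Agent.Lib_helper54.DSF.HEC
import Pool.Agent.Lib_helper54.DSF.LSC
import Pool.Agent.Lib_helper54.DSF.MEL

/-! Block LIM: the Dirichlet series has a limit at 1 (helper7). -/

set_option autoImplicit false

namespace Pool.Agent.DS

open Polynomial NumberField Filter Topology MeasureTheory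

variable {E : Type} [Field E] [NumberField E]

variable (E) in
theorem lim_ne_top {q : ℕ} (hq : 1 < q) : Ideal.span {(q : 𝓞 E)} ≠ ⊤ := by
  intro h
  have h1 := Ideal.absNorm_span_natCast (S := 𝓞 E) q
  rw [h, Ideal.absNorm_top, RingOfIntegers.rank] at h1
  have h2 : 0 < Module.finrank ℚ E := Module.finrank_pos
  have h3 : 1 < q ^ Module.finrank ℚ E := Nat.one_lt_pow h2.ne' hq
  omega

/-- LIM (assembly of HEC, DSB, MEL, LSC) -/
theorem lim {q : ℕ} (χ : DirichletCharacter ℂ q)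
    (h : ∃ I : Ideal (𝓞 E), χ ((Ideal.absNorm I : ℕ) : ZMod q) ≠ 0 ∧
      χ ((Ideal.absNorm I : ℕ) : ZMod q) ≠ 1) :
    ∃ w : ℂ, Tendsto (fun s : ℝ => LL E χ s) (𝓝[>] 1) (𝓝 w) := by
  obtain ⟨I, hI0, hI1⟩ := h
  have hq : 1 < q := by
    by_contra hq
    have h1 : q = 0 ∨ q = 1 := by omega
    rcases h1 with rfl | rfl
    · have h2 : IsUnit ((Ideal.absNorm I : ℕ) : ZMod 0) := by
        by_contra h3
        exact hI0 (χ.map_nonunit h3)
      have h4 : IsUnit ((Ideal.absNorm I : ℕ) : ℤ) := h2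
      have h5 : Ideal.absNorm I = 1 := by
        rw [Int.isUnit_iff] at h4
        omega
      apply hI1
      rw [h5, Nat.cast_one, map_one]
    · apply hI1
      have h2 : ((Ideal.absNorm I : ℕ) : ZMod 1) = 1 := Subsingleton.elim _ _
      rw [h2, map_one]
  obtain ⟨κ, χ', ψ, hκ, hψI, hψ⟩ := hec E hq χ
  have h𝔮 : Ideal.span {(q : 𝓞 E)} ≠ ⊥ := by
    rw [Ne, Ideal.span_singleton_eq_bot]
    exact_mod_cast (by omega : q ≠ 0)
  have h𝔮' := lim_ne_top E hq
  have hnt : ∃ I : Ideal (𝓞 E), IsCoprime I (Ideal.span {(q : 𝓞 E)}) ∧ ψ I ≠ 1 := by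
    refine ⟨I, ?_, ?_⟩
    · by_contra h3
      apply hI0
      rw [← hψI]
      exact hψ.eq_zero I h3
    · rw [hψI]
      exact hI1
  obtain ⟨w, hw⟩ := mel h𝔮' hψ (dsb h𝔮 h𝔮' hκ hψ hnt)
  refine ⟨w, hw.congr' ?_⟩
  filter_upwards [self_mem_nhdsWithin] with s hs
  rw [lsc E hq χ hs]
  apply tsum_congr
  intro J
  rw [hψI]

end Pool.Agent.DS
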