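import Pool.Agent.Lib_helper54.DS.Defs
import Pool.Agent.Lib_helper41.HZF.SFE
import Pool.Agent.Lib_helper41.HZF.LAM2
import Pool.Agent.Lib_helper41.HZF.INF
import Pool.Agent.Lib_helper54.DSF.EUL

/-! # Block POL (helper8) -/

set_option autoImplicit false

namespace Pool.Agent.DS

open Polynomial NumberField Filter Topology MeasureTheory

section A

variable (E : Type) [Field E] [NumberField E]

theorem pol_SS (s : ℝ) : SS E (1 : DirichletCharacter ℂ 1) s =
    ((∑' p : Nat.Primes, (aE E p : ℝ) * ((p : ℕ) : ℝ) ^ (-s) : ℝ) : ℂ) := by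
  rw [SS, Complex.ofReal_tsum]
  refine tsum_congr fun p => ?_
  have h1 : (1 : DirichletCharacter ℂ 1) ((p : ℕ) : ZMod 1) = 1 :=
    MulChar.one_apply (isUnit_of_subsingleton _)
  rw [h1, mul_one, Complex.ofReal_mul, Complex.ofReal_natCast,
    Complex.ofReal_cpow (Nat.cast_nonneg _), Complex.ofReal_natCast, Complex.ofReal_neg]

theorem pol_LL (s : ℝ) : LL E (1 : DirichletCharacter ℂ 1) s = dedekindZeta E s := by
  rw [LL, dedekindZeta]
  congr 1
  funext n
  have h1 : (1 : DirichletCharacter ℂ 1) ((n : ℕ) : ZMod 1) = 1 :=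
    MulChar.one_apply (isUnit_of_subsingleton _)
  rw [h1, mul_one, aE]

/-- POL -/
theorem pol : ∃ C : ℝ, ∀ s : ℝ, 1 < s → s ≤ 2 →
    |∑' p : Nat.Primes, (aE E p : ℝ) * ((p : ℕ) : ℝ) ^ (-s) - Real.log (1 / (s - 1))| ≤ C := by
  obtain ⟨C, g, hgC, -, hSc, hexp⟩ := eul E (1 : DirichletCharacter ℂ 1)
  set R : ℝ → ℝ := fun s => ∑' p : Nat.Primes, (aE E p : ℝ) * ((p : ℕ) : ℝ) ^ (-s) with hR
  -- the key relation
  have hrel : ∀ s : ℝ, 1 < s → s ≤ 2 → R s + (g s).re = Real.log ‖dedekindZeta E s‖ ∧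
      0 < ‖dedekindZeta E s‖ := by
    intro s h1 h2
    have h3 := hexp s h1 h2
    rw [pol_LL, pol_SS] at h3
    have h4 : ‖dedekindZeta E s‖ = Real.exp (R s + (g s).re) := by
      rw [← h3, Complex.norm_exp, Complex.add_re, Complex.ofReal_re]
    rw [h4, Real.log_exp]
    exact ⟨rfl, Real.exp_pos _⟩
  -- near `1`
  have hlim : Tendsto (fun s : ℝ => Real.log ‖((s : ℂ) - 1) * dedekindZeta E s‖) (𝓝[>] 1)
      (𝓝 (Real.log (dedekindZeta_residue E))) := by
    have h1 := (tendsto_sub_one_mul_dedekindZeta_nhdsGT E).norm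
    rw [Complex.norm_real, Real.norm_eq_abs, abs_of_pos (dedekindZeta_residue_pos E)] at h1
    exact h1.log (dedekindZeta_residue_pos E).ne'
  have hev : ∀ᶠ s : ℝ in 𝓝[>] 1, |Real.log ‖((s : ℂ) - 1) * dedekindZeta E s‖ -
      Real.log (dedekindZeta_residue E)| < 1 := by
    have := (Metric.tendsto_nhds.1 hlim) 1 one_pos
    simpa only [Real.dist_eq] using this
  obtain ⟨b, hb, hsub⟩ := mem_nhdsGT_iff_exists_Ioo_subset.1 hev
  have hb : 1 < b := hb
  set d : ℝ := min ((b - 1) / 2) (1 / 2) with hd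
  have hd0 : 0 < d := lt_min (by linarith) (by norm_num)
  have hdb : 1 + d < b := by
    have := min_le_left ((b - 1) / 2) (1 / 2 : ℝ)
    rw [← hd] at this
    linarith
  -- away from `1`
  have hRc : ContinuousOn R (Set.Icc (1 + d) 2) := by
    have h1 : ContinuousOn (fun s => (SS E (1 : DirichletCharacter ℂ 1) s).re)
        (Set.Icc (1 + d) 2) :=
      Complex.continuous_re.comp_continuousOn
        (hSc.mono fun s hs => ⟨by linarith [hs.1], hs.2⟩)
    refine h1.congr fun s _ => ?_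
    change R s = (SS E 1 s).re
    rw [pol_SS, Complex.ofReal_re]
  obtain ⟨M, hM⟩ := isCompact_Icc.exists_bound_of_continuousOn hRc
  refine ⟨max (|Real.log (dedekindZeta_residue E)| + 1 + C) (M + |Real.log d|),
    fun s h1 h2 => ?_⟩
  change |R s - Real.log (1 / (s - 1))| ≤ _
  have hs1 : 0 < s - 1 := by linarith
  have hlog : Real.log (1 / (s - 1)) = -Real.log (s - 1) := by
    rw [one_div, Real.log_inv]
  rcases lt_or_ge s (1 + d) with h3 | h3
  · refine le_max_of_le_left ?_
    have h4 : |Real.log ‖((s : ℂ) - 1) * dedekindZeta E s‖ -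
        Real.log (dedekindZeta_residue E)| < 1 := hsub ⟨h1, by linarith⟩
    obtain ⟨h5, h6⟩ := hrel s h1 h2
    have h7 : Real.log ‖((s : ℂ) - 1) * dedekindZeta E s‖ =
        Real.log (s - 1) + Real.log ‖dedekindZeta E s‖ := by
      rw [norm_mul, Real.log_mul _ h6.ne']
      · congr 1
        have h8 : (s : ℂ) - 1 = ((s - 1 : ℝ) : ℂ) := by push_cast; ring
        rw [h8, Complex.norm_real, Real.norm_eq_abs, abs_of_pos hs1]
      · have h8 : (s : ℂ) - 1 = ((s - 1 : ℝ) : ℂ) := by push_cast; ring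
        rw [h8, Complex.norm_real, Real.norm_eq_abs, abs_of_pos hs1]
        exact hs1.ne'
    have h9 : |(g s).re| ≤ C := (Complex.abs_re_le_norm _).trans (hgC s h1 h2)
    rw [h7, ← h5] at h4
    rw [hlog]
    have h10 := abs_lt.1 h4
    have h11 := abs_le.1 h9
    have h12 := neg_abs_le (Real.log (dedekindZeta_residue E))
    have h13 := le_abs_self (Real.log (dedekindZeta_residue E))
    rw [abs_le]
    constructor <;> linarith
  · refine le_max_of_le_right ?_
    have h4 := hM s ⟨h3, h2⟩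
    rw [Real.norm_eq_abs] at h4
    have h5 : |Real.log (1 / (s - 1))| ≤ |Real.log d| := by
      rw [hlog, abs_neg]
      have h6 : Real.log d ≤ Real.log (s - 1) := Real.log_le_log hd0 (by linarith)
      have h7 : Real.log (s - 1) ≤ 0 := Real.log_nonpos hs1.le (by linarith)
      rw [abs_of_nonpos h7, abs_of_nonpos (h6.trans h7)]
      linarith
    calc |R s - Real.log (1 / (s - 1))| ≤ |R s| + |Real.log (1 / (s - 1))| := abs_sub _ _
      _ ≤ M + |Real.log d| := add_le_add h4 h5

end A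

end Pool.Agent.DS
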