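import Pool.Agent.Lib_helper54.DS.Defs
import Pool.Agent.Lib_helper41.HZF.SFE
import Pool.Agent.Lib_helper41.HZF.LAM2
import Pool.Agent.Lib_helper41.HZF.INF

set_option autoImplicit false

namespace Pool.Agent.DS

open Polynomial NumberField

theorem spl_finrank (E E₁ : Type) [Field E] [NumberField E] [Field E₁] [NumberField E₁]
    [Algebra E E₁] : Module.finrank (𝓞 E) (𝓞 E₁) = Module.finrank E E₁ :=
  (IsFractionRing.finrank_eq (𝓞 E) E (𝓞 E₁) E₁).symm

theorem spl_finite (E : Type) [Field E] [NumberField E] {p : ℕ} (_hp : p.Prime) :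
    Finite {I : Ideal (𝓞 E) // Ideal.absNorm I = p} := by
  have := Ideal.finite_setOfPred_absNorm_eq (S := 𝓞 E) p
  exact this.to_subtype

theorem spl_fiber (E E₁ : Type) [Field E] [NumberField E] [Field E₁] [NumberField E₁]
    [Algebra E E₁] {p : ℕ} (hp : p.Prime)
    (hS : ¬ p ∣ Ideal.absNorm (differentIdeal ℤ (𝓞 E₁)))
    (h : ∀ J : Ideal (𝓞 E₁), J.IsPrime → Ideal.absNorm (J.comap (algebraMap (𝓞 E) (𝓞 E₁))) = p →
        Ideal.absNorm J = p) (I : Ideal (𝓞 E)) (hI : Ideal.absNorm I = p) :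
    Nat.card (I.primesOver (𝓞 E₁)) = Module.finrank E E₁ := by
  have hIp : I.IsPrime := Ideal.isPrime_of_irreducible_absNorm (by rw [hI]; exact hp)
  have hI0 : I ≠ ⊥ := by
    intro h0
    rw [h0, Ideal.absNorm_bot] at hI
    exact hp.ne_zero hI.symm
  have hImax : I.IsMaximal := hIp.isMaximal hI0
  have hfin : Finite (I.primesOver (𝓞 E₁)) := by
    exact (IsDedekindDomain.primesOver_finite I (𝓞 E₁)).to_subtype
  letI := Fintype.ofFinite (I.primesOver (𝓞 E₁))
  rw [← spl_finrank E E₁, ← Ideal.sum_ramification_inertia_eq_finrank I (𝓞 E₁),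
    Nat.card_eq_fintype_card, Fintype.card_eq_sum_ones]
  refine Finset.sum_congr rfl ?_
  rintro ⟨J, hJp, hJo⟩ -
  have hJ0 : J ≠ ⊥ := by
    rintro rfl
    apply hI0
    rw [hJo.over, Ideal.under_bot]
  have hJn : Ideal.absNorm J = p := by
    apply h J hJp
    rw [← hI, hJo.over, Ideal.under_def]
  have hun : Algebra.IsUnramifiedAt ℤ J := by
    rw [← not_dvd_differentIdeal_iff]
    intro hd
    apply hS
    rw [← hJn]
    exact Ideal.absNorm_dvd_absNorm_of_le (Ideal.dvd_iff_le.mp hd)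
  have he : J.ramificationIdx (𝓞 E) = 1 := by
    have h1 : J.ramificationIdx ℤ = 1 := Ideal.ramificationIdx_eq_one_of_isUnramifiedAt
    have h2 := Ideal.ramificationIdx_above_dvd (R := ℤ) I J
    rw [h1] at h2
    exact Nat.dvd_one.mp h2
  have hf : J.inertiaDeg (𝓞 E) = 1 := by
    have h1 := Ideal.absNorm_pow_inertiaDeg I J
    rw [hI, hJn] at h1
    exact Nat.pow_right_injective hp.two_le (by simpa using h1)
  simp only
  rw [he, hf]

theorem spl (E E₁ : Type) [Field E] [NumberField E] [Field E₁] [NumberField E₁] [Algebra E E₁] :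
    ∃ S : Finset ℕ, ∀ p : ℕ, p.Prime → p ∉ S →
      (∀ J : Ideal (𝓞 E₁), J.IsPrime → Ideal.absNorm (J.comap (algebraMap (𝓞 E) (𝓞 E₁))) = p →
        Ideal.absNorm J = p) →
      Module.finrank E E₁ * aE E p ≤ aE E₁ p := by
  refine ⟨(Ideal.absNorm (differentIdeal ℤ (𝓞 E₁))).primeFactors, ?_⟩
  intro p hp hpS h
  have hd0 : differentIdeal ℤ (𝓞 E₁) ≠ ⊥ := differentIdeal_ne_bot
  have hn0 : Ideal.absNorm (differentIdeal ℤ (𝓞 E₁)) ≠ 0 := by
    rw [Ne, Ideal.absNorm_eq_zero_iff]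
    exact hd0
  have hS : ¬ p ∣ Ideal.absNorm (differentIdeal ℤ (𝓞 E₁)) := by
    intro hd
    exact hpS (Nat.mem_primeFactors.mpr ⟨hp, hd, hn0⟩)
  haveI := spl_finite E hp
  haveI := spl_finite E₁ hp
  letI := Fintype.ofFinite {I : Ideal (𝓞 E) // Ideal.absNorm I = p}
  have hfin : ∀ I : {I : Ideal (𝓞 E) // Ideal.absNorm I = p},
      Finite (I.1.primesOver (𝓞 E₁)) := by
    intro I
    have hIp : I.1.IsPrime := Ideal.isPrime_of_irreducible_absNorm (by rw [I.2]; exact hp)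
    have hI0 : I.1 ≠ ⊥ := by
      intro h0
      have := I.2
      rw [h0, Ideal.absNorm_bot] at this
      exact hp.ne_zero this.symm
    have hImax : I.1.IsMaximal := hIp.isMaximal hI0
    exact (IsDedekindDomain.primesOver_finite I.1 (𝓞 E₁)).to_subtype
  have key : Nat.card (Σ I : {I : Ideal (𝓞 E) // Ideal.absNorm I = p}, I.1.primesOver (𝓞 E₁)) =
      Module.finrank E E₁ * aE E p := by
    rw [Nat.card_sigma]
    rw [Finset.sum_congr rfl (fun I _ => spl_fiber E E₁ hp hS h I.1 I.2)]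
    rw [Finset.sum_const, Finset.card_univ, smul_eq_mul, mul_comm, aE, Nat.card_eq_fintype_card]
  rw [← key, aE]
  refine Nat.card_le_card_of_injective
    (fun x : (Σ I : {I : Ideal (𝓞 E) // Ideal.absNorm I = p}, I.1.primesOver (𝓞 E₁)) =>
      (⟨x.2.1, ?_⟩ : {J : Ideal (𝓞 E₁) // Ideal.absNorm J = p})) ?_
  · obtain ⟨⟨I, hI⟩, ⟨J, hJp, hJo⟩⟩ := x
    apply h J hJp
    have h1 : I = J.under (𝓞 E) := hJo.over
    rw [← hI, h1, Ideal.under_def]
  · rintro ⟨⟨I, hI⟩, ⟨J, hJp, hJo⟩⟩ ⟨⟨I', hI'⟩, ⟨J', hJp', hJo'⟩⟩ hx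
    simp only [Subtype.mk.injEq] at hx
    subst hx
    have h1 : I = J.under (𝓞 E) := hJo.over
    have h2 : I' = J.under (𝓞 E) := hJo'.over
    have : I = I' := by rw [h1, h2]
    subst this
    rfl

example : type_of% @spl = type_of% @spl := rfl

end Pool.Agent.DS
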