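import Pool.Agent.Lib_helper54.DS.Defs
import Pool.Agent.Lib_helper41.HZF.SFE
import Pool.Agent.Lib_helper41.HZF.LAM2
import Pool.Agent.Lib_helper41.HZF.INF
import Pool.Agent.Lib_helper54.DSF.AEB
import Pool.Agent.Lib_helper54.DSF.FRE
import Pool.Agent.Lib_helper54.DSF.POL
import Pool.Agent.Lib_helper54.DSF.SPL

/-!
# DS, block NTV
-/

set_option autoImplicit false

namespace Pool.Agent.DS

open Polynomial NumberField Filter Topology MeasureTheory

/-- analytic part: no inequality `2 a_E(p) ≤ a_{E₁}(p)` for almost all `p` -/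
private theorem ntv_an (E E₁ : Type) [Field E] [NumberField E] [Field E₁] [NumberField E₁]
    (S : Finset ℕ) (h : ∀ p : ℕ, p.Prime → p ∉ S → 2 * aE E p ≤ aE E₁ p) : False := by
  classical
  obtain ⟨C, hC⟩ := pol E
  obtain ⟨C₁, hC₁⟩ := pol E₁
  -- the finite part
  let g : Nat.Primes → ℝ := fun p => if (p : ℕ) ∈ S then 2 * (aE E p : ℝ) else 0
  have hg : Summable g := by
    refine summable_of_hasFiniteSupport ?_
    refine Set.Finite.subset (s := {p : Nat.Primes | (p : ℕ) ∈ S}) ?_ ?_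
    · exact Set.Finite.preimage (f := fun p : Nat.Primes => (p : ℕ))
        (fun a _ b _ hab => Subtype.ext hab) S.finite_toSet
    · intro p hp
      by_contra hcon
      exact hp (if_neg hcon)
  have key : ∀ s : ℝ, 1 < s → s ≤ 2 → Real.log (1 / (s - 1)) ≤ 2 * C + C₁ + ∑' p, g p := by
    intro s hs1 hs2
    have h1 := abs_le.mp (hC s hs1 hs2)
    have h2 := abs_le.mp (hC₁ s hs1 hs2)
    have s1 := aE_summable E hs1
    have s2 := aE_summable E₁ hs1
    have h3 : 2 * ∑' p : Nat.Primes, (aE E p : ℝ) * ((p : ℕ) : ℝ) ^ (-s)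
        ≤ ∑' p : Nat.Primes, (aE E₁ p : ℝ) * ((p : ℕ) : ℝ) ^ (-s) + ∑' p, g p := by
      rw [← tsum_mul_left, ← s2.tsum_add hg]
      refine Summable.tsum_le_tsum ?_ (s1.mul_left 2) (s2.add hg)
      intro p
      have hp1 : (1 : ℝ) ≤ ((p : ℕ) : ℝ) := by exact_mod_cast p.2.one_le
      have hp0 : (0 : ℝ) ≤ ((p : ℕ) : ℝ) ^ (-s) := by positivity
      have hple : ((p : ℕ) : ℝ) ^ (-s) ≤ 1 :=
        Real.rpow_le_one_of_one_le_of_nonpos hp1 (by linarith)
      simp only [g]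
      by_cases hpS : (p : ℕ) ∈ S
      · rw [if_pos hpS]
        have e1 : (0 : ℝ) ≤ (aE E p : ℝ) := Nat.cast_nonneg _
        have e2 : (0 : ℝ) ≤ (aE E₁ p : ℝ) := Nat.cast_nonneg _
        nlinarith [mul_nonneg e2 hp0, mul_le_mul_of_nonneg_left hple e1]
      · rw [if_neg hpS, add_zero]
        have e1 : (2 : ℝ) * (aE E p : ℝ) ≤ (aE E₁ p : ℝ) := by exact_mod_cast h p p.2 hpS
        nlinarith
    linarith [h1.1, h1.2, h2.1, h2.2]
  -- contradiction near `1`
  set B : ℝ := 2 * C + C₁ + ∑' p, g p with hB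
  have hpos : 0 < Real.exp (-(|B| + 1)) := Real.exp_pos _
  have hle : Real.exp (-(|B| + 1)) ≤ 1 := by
    rw [Real.exp_le_one_iff]; have := abs_nonneg B; linarith
  have := key (1 + Real.exp (-(|B| + 1))) (by linarith) (by linarith)
  rw [add_sub_cancel_left, one_div, ← Real.exp_neg, Real.log_exp, neg_neg] at this
  have h2 := le_abs_self B
  linarith

variable {E M : Type} [Field E] [NumberField E] [Field M] [NumberField M] [Algebra E M]
  [IsGalois E M] {q : ℕ} {ζ : M}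

/-- NTV -/
theorem ntv (hζ : IsPrimitiveRoot ζ q) (hq : q.Prime) (hfix : ∀ σ : M ≃ₐ[E] M, σ ζ = ζ → σ = 1)
    (χ : DirichletCharacter ℂ q)
    (hχ : ∃ (σ : M ≃ₐ[E] M) (a : ℕ), a.Coprime q ∧ σ ζ = ζ ^ a ∧ χ a ≠ 1) :
    ∃ p : ℕ, p.Prime ∧ p ≠ q ∧ aE E p ≠ 0 ∧ χ p ≠ 1 := by
  classical
  by_contra hcon
  push Not at hcon
  have hNZ : NeZero q := ⟨hq.ne_zero⟩
  -- the subgroup
  let ω : (M ≃ₐ[E] M) →* (ZMod q)ˣ := hζ.autToPow E
  have hω : ∀ σ : M ≃ₐ[E] M, ζ ^ ((ω σ : (ZMod q)ˣ) : ZMod q).val = σ ζ := fun σ =>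
    hζ.autToPow_spec E σ
  let Z : Subgroup (M ≃ₐ[E] M) := ((MulChar.toUnitHom χ).comp ω).ker
  have hZ : ∀ σ : M ≃ₐ[E] M, σ ∈ Z ↔ χ ((ω σ : (ZMod q)ˣ) : ZMod q) = 1 := by
    intro σ
    rw [MonoidHom.mem_ker, MonoidHom.comp_apply, Units.ext_iff, MulChar.coe_toUnitHom,
      Units.val_one]
  have hωa : ∀ (σ : M ≃ₐ[E] M) (a : ℕ), σ ζ = ζ ^ a → ((ω σ : (ZMod q)ˣ) : ZMod q) = a := by
    intro σ a ha
    have h1 := hω σ
    rw [ha] at h1
    have h5 : ζ ^ a = ζ ^ (a % q) := by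
      conv_rhs => rw [hζ.eq_orderOf]
      exact (pow_mod_orderOf ζ a).symm
    rw [h5] at h1
    have h2 := hζ.pow_inj (ZMod.val_lt _) (Nat.mod_lt _ hq.pos) h1
    have h3 := congrArg (fun n : ℕ => (n : ZMod q)) h2
    simp only [ZMod.natCast_zmod_val, ZMod.natCast_mod] at h3
    exact h3
  -- the field
  let F : IntermediateField E M := IntermediateField.fixedField Z
  have hfin : Module.finrank E F ≠ 1 := by
    intro h1
    obtain ⟨σ, a, -, hσ, hχa⟩ := hχ
    have h2 : Module.finrank F M = Nat.card Z := IntermediateField.finrank_fixedField_eq_card Z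
    have h3 : Nat.card (M ≃ₐ[E] M) = Module.finrank E M := IsGalois.card_aut_eq_finrank E M
    have h4 := Module.finrank_mul_finrank E F M
    rw [h1, one_mul, h2] at h4
    have h5 : Z = ⊤ := by
      apply Subgroup.eq_top_of_card_eq
      rw [h4, h3]
    apply hχa
    rw [← hωa σ a hσ, ← hZ, h5]
    exact Subgroup.mem_top σ
  have hfin0 : 0 < Module.finrank E F := Module.finrank_pos
  obtain ⟨S, hS⟩ := spl E F
  refine ntv_an E F (insert q S) ?_
  intro p hp hpS
  rw [Finset.mem_insert, not_or] at hpS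
  have hmain : ∀ J : Ideal (𝓞 F), J.IsPrime →
      Ideal.absNorm (J.comap (algebraMap (𝓞 E) (𝓞 F))) = p → Ideal.absNorm J = p := by
    intro J hJ hJp
    obtain ⟨P, hP, hPJ⟩ := Ideal.exists_ideal_over_prime_of_isIntegral_of_isDomain
      (S := 𝓞 M) J (by
        rw [(RingHom.injective_iff_ker_eq_bot _).mp
          (FaithfulSMul.algebraMap_injective (𝓞 F) (𝓞 M))]
        exact bot_le)
    have hcomp : P.comap (algebraMap (𝓞 E) (𝓞 M)) = J.comap (algebraMap (𝓞 E) (𝓞 F)) := by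
      rw [IsScalarTower.algebraMap_eq (𝓞 E) (𝓞 F) (𝓞 M), ← Ideal.comap_comap, hPJ]
    obtain ⟨σ, hσ, hσζ⟩ := fre hζ hq hp hpS.1 P hP (by rw [hcomp]; exact hJp)
    have haE : aE E p ≠ 0 := by
      have := (aE_pos E hp).mpr ⟨_, hJp⟩
      omega
    have hσZ : σ ∈ Z := by
      rw [hZ, hωa σ p hσζ]
      exact hcon p hp hpS.1 haE
    -- every element of the residue field satisfies `x ^ p = x`
    have hx : ∀ x : 𝓞 F, x - x ^ p ∈ J := by
      intro x
      rw [← hPJ, Ideal.mem_comap, map_sub, map_pow]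
      apply hσ
      have h1 : ((algebraMap (𝓞 F) (𝓞 M) x : 𝓞 M) : M) = ((x : F) : M) := rfl
      rw [h1]
      have h2 : ((x : F) : M) ∈ F := (x : F).2
      exact ((IntermediateField.mem_fixedField_iff Z _).mp h2 σ hσZ).symm
    have hJne : J ≠ ⊥ := by
      rintro rfl
      rw [Ideal.comap_bot_of_injective _
        (FaithfulSMul.algebraMap_injective (𝓞 E) (𝓞 F)), Ideal.absNorm_bot] at hJp
      exact hp.ne_zero hJp.symm
    have hJm : J.IsMaximal := hJ.isMaximal hJne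
    let _ : Field (𝓞 F ⧸ J) := Ideal.Quotient.field J
    have hfk : Finite (𝓞 F ⧸ J) := Ideal.finiteQuotientOfFreeOfNeBot J hJne
    have : Fintype (𝓞 F ⧸ J) := Fintype.ofFinite _
    rw [Ideal.absNorm_apply, Submodule.cardQuot_apply]
    refine le_antisymm ?_ ?_
    · have hX0 : (X ^ p - X : (𝓞 F ⧸ J)[X]) ≠ 0 := by
        intro h0
        have := FiniteField.X_pow_card_sub_X_natDegree_eq (𝓞 F ⧸ J) hp.one_lt
        rw [h0, natDegree_zero] at this
        exact hp.ne_zero this.symm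
      have hsub : (Finset.univ : Finset (𝓞 F ⧸ J)) ⊆
          (X ^ p - X : (𝓞 F ⧸ J)[X]).roots.toFinset := by
        intro y _
        rw [Multiset.mem_toFinset, mem_roots hX0, IsRoot.def, eval_sub, eval_pow, eval_X]
        obtain ⟨x, rfl⟩ := Ideal.Quotient.mk_surjective y
        rw [← map_pow, ← map_sub, Ideal.Quotient.eq_zero_iff_mem]
        have := J.neg_mem (hx x)
        rwa [neg_sub] at this
      rw [Nat.card_eq_fintype_card, ← Finset.card_univ]
      refine (Finset.card_le_card hsub).trans ((Multiset.toFinset_card_le _).trans ?_)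
      refine (card_roots' _).trans ?_
      rw [FiniteField.X_pow_card_sub_X_natDegree_eq (𝓞 F ⧸ J) hp.one_lt]
    · rw [Ideal.absNorm_apply, Submodule.cardQuot_apply] at hJp
      rw [← hJp]
      exact Nat.card_le_card_of_injective
        (Ideal.quotientMap J (algebraMap (𝓞 E) (𝓞 F)) le_rfl) Ideal.quotientMap_injective
  have h1 := hS p hp hpS.2 hmain
  refine le_trans ?_ h1
  exact Nat.mul_le_mul_right _ (by omega)

end Pool.Agent.DS
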