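import Pool.Agent.Lib_helper54.DS.Defs
import Pool.Agent.Lib_helper41.HZF.SFE
import Pool.Agent.Lib_helper41.HZF.LAM2
import Pool.Agent.Lib_helper41.HZF.INF
import Pool.Agent.Lib_helper54.DSF.AEB
import Pool.Agent.Lib_helper54.DSF.CNT
import Pool.Agent.Lib_helper54.DSF.EUL
import Pool.Agent.Lib_helper54.DSF.FRE
import Pool.Agent.Lib_helper54.DSF.LIM
import Pool.Agent.Lib_helper54.DSF.NTV
import Pool.Agent.Lib_helper54.DSF.POL

/-!
# Block CYC (helper29): the primes in residue classes, weighted by `a_E(p)`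
-/

set_option autoImplicit false
set_option linter.unusedSectionVars false
set_option linter.style.haveILetI false

namespace Pool.Agent.DS

open Polynomial NumberField Filter Topology MeasureTheory
open Pool.Agent.RS.Main (DirichletGE primeSum BoundedEigenform)

/-! ### Analysis -/

theorem cyc_near {L : ℝ → ℂ} {w : ℂ} (hL : Tendsto L (𝓝[>] 1) (𝓝 w)) {ε : ℝ} (hε : 0 < ε) :
    ∃ d : ℝ, 0 < d ∧ d ≤ 1 ∧ ∀ s : ℝ, 1 < s → s < 1 + d → ‖L s - w‖ < ε := by
  have h1 : ∀ᶠ s in 𝓝[>] (1 : ℝ), ‖L s - w‖ < ε := by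
    have := (Metric.tendsto_nhds.1 hL) ε hε
    simpa only [dist_eq_norm] using this
  obtain ⟨d, hd, h⟩ := Metric.mem_nhdsWithin_iff.1 h1
  refine ⟨min d 1, lt_min hd one_pos, min_le_right _ _, fun s hs1 hs2 => h ⟨?_, hs1⟩⟩
  rw [Metric.mem_ball, Real.dist_eq, abs_of_pos (by linarith)]
  linarith [min_le_left d 1]

theorem cyc_upper {S g L : ℝ → ℂ} {w : ℂ} {Cg : ℝ} (hg : ∀ s : ℝ, 1 < s → s ≤ 2 → ‖g s‖ ≤ Cg)
    (hS : ContinuousOn S (Set.Ioc 1 2))
    (hexp : ∀ s : ℝ, 1 < s → s ≤ 2 → Complex.exp (S s + g s) = L s)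
    (hL : Tendsto L (𝓝[>] 1) (𝓝 w)) :
    ∃ C : ℝ, ∀ s : ℝ, 1 < s → s ≤ 2 → (S s).re ≤ C := by
  obtain ⟨d, hd, hd1, hnear⟩ := cyc_near hL one_pos
  obtain ⟨C2, hC2⟩ := (isCompact_Icc (a := 1 + d / 2) (b := 2)).exists_bound_of_continuousOn
    (hS.mono fun s hs => ⟨by linarith [hs.1], hs.2⟩)
  refine ⟨max (‖w‖ + 1 + Cg) C2, fun s h1 h2 => ?_⟩
  rcases lt_or_ge s (1 + d) with h | h
  · refine le_trans ?_ (le_max_left _ _)
    have h3 : ‖L s‖ ≤ ‖w‖ + 1 := by
      have := norm_le_norm_add_norm_sub' (L s) w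
      linarith [hnear s h1 h]
    rw [← hexp s h1 h2, Complex.norm_exp] at h3
    have h4 := Real.add_one_le_exp (S s + g s).re
    have h5 : |(g s).re| ≤ Cg := (Complex.abs_re_le_norm _).trans (hg s h1 h2)
    rw [Complex.add_re] at h4 h3
    have h6 := neg_abs_le (g s).re
    linarith
  · refine le_trans ?_ (le_max_right _ _)
    exact ((le_abs_self _).trans (Complex.abs_re_le_norm _)).trans
      (hC2 s ⟨by linarith, h2⟩)

theorem cyc_log_bdd {F L : ℝ → ℂ} {w : ℂ} (hF : ContinuousOn F (Set.Ioc 1 2))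
    (hexp : ∀ s : ℝ, 1 < s → s ≤ 2 → Complex.exp (F s) = L s)
    (hL : Tendsto L (𝓝[>] 1) (𝓝 w)) (hw : w ≠ 0) :
    ∃ C : ℝ, ∀ s : ℝ, 1 < s → s ≤ 2 → ‖F s‖ ≤ C := by
  have hT : Tendsto (fun s => L s / w) (𝓝[>] 1) (𝓝 1) := by
    have := hL.div_const w
    rwa [div_self hw] at this
  obtain ⟨d, hd, hd1, hnear⟩ := cyc_near hT (by norm_num : (0 : ℝ) < 1 / 2)
  obtain ⟨C2, hC2⟩ := (isCompact_Icc (a := 1 + d / 2) (b := 2)).exists_bound_of_continuousOn
    (hF.mono fun s hs => ⟨by linarith [hs.1], hs.2⟩)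
  set ℓ : ℂ := Complex.log w with hℓ
  have hℓw : Complex.exp ℓ = w := Complex.exp_log hw
  have hE : ∀ s : ℝ, 1 < s → s < 1 + d → ‖Complex.exp (F s - ℓ) - 1‖ < 1 / 2 := by
    intro s h1 h2
    rw [Complex.exp_sub, hℓw, hexp s h1 (by linarith)]
    exact hnear s h1 h2
  have hre : ∀ s : ℝ, 1 < s → s < 1 + d → |(F s - ℓ).re| ≤ 1 := by
    intro s h1 h2
    have h3 := hE s h1 h2
    have h4 : ‖Complex.exp (F s - ℓ)‖ ≤ 3 / 2 := by
      have := norm_le_norm_add_norm_sub' (Complex.exp (F s - ℓ)) 1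
      rw [norm_one] at this
      linarith
    have h5 : 1 / 2 ≤ ‖Complex.exp (F s - ℓ)‖ := by
      have := norm_le_norm_add_norm_sub (Complex.exp (F s - ℓ)) 1
      rw [norm_one] at this
      linarith
    rw [Complex.norm_exp] at h4 h5
    rw [abs_le]
    constructor
    · by_contra hlt
      push Not at hlt
      have h6 : Real.exp (F s - ℓ).re < Real.exp (-1) := Real.exp_lt_exp.2 hlt
      have h7 : Real.exp (-1) ≤ 1 / 2 := by
        rw [Real.exp_neg, ← one_div]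
        apply one_div_le_one_div_of_le (by norm_num)
        have := Real.add_one_le_exp (1 : ℝ)
        linarith
      linarith
    · have := Real.add_one_le_exp (F s - ℓ).re
      linarith
  have hcos : ∀ s : ℝ, 1 < s → s < 1 + d → 0 < Real.cos (F s - ℓ).im := by
    intro s h1 h2
    have h3 := hE s h1 h2
    have h4 : |(Complex.exp (F s - ℓ) - 1).re| < 1 / 2 := (Complex.abs_re_le_norm _).trans_lt h3
    rw [Complex.sub_re, Complex.one_re, Complex.exp_re, abs_lt] at h4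
    have h5 : 0 < Real.exp (F s - ℓ).re * Real.cos (F s - ℓ).im := by linarith [h4.1]
    exact (pos_iff_pos_of_mul_pos h5).1 (Real.exp_pos _)
  have hcont : ContinuousOn (fun s => (F s - ℓ).im) (Set.Ioo 1 (1 + d)) := by
    refine Complex.continuous_im.comp_continuousOn ((hF.mono ?_).sub continuousOn_const)
    exact fun s hs => ⟨hs.1, by linarith [hs.2]⟩
  have him : ∀ s s' : ℝ, s ∈ Set.Ioo 1 (1 + d) → s' ∈ Set.Ioo 1 (1 + d) →
      (F s' - ℓ).im < (F s - ℓ).im + Real.pi := by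
    intro s s' hs hs'
    by_contra hge
    push Not at hge
    have h1 : (F s - ℓ).im + Real.pi ∈ Set.Icc (F s - ℓ).im (F s' - ℓ).im :=
      ⟨by linarith [Real.pi_pos], hge⟩
    obtain ⟨t, ht, ht'⟩ := isPreconnected_Ioo.intermediate_value hs hs' hcont h1
    have h2 := hcos t ht.1 ht.2
    have ht'' : (F t - ℓ).im = (F s - ℓ).im + Real.pi := ht'
    rw [ht'', Real.cos_add_pi] at h2
    have h3 := hcos s hs.1 hs.2
    linarith
  set s1 : ℝ := 1 + d / 2 with hs1
  have hs1m : s1 ∈ Set.Ioo 1 (1 + d) := ⟨by linarith, by linarith⟩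
  refine ⟨max (1 + |ℓ.re| + (|(F s1 - ℓ).im| + Real.pi + |ℓ.im|)) C2, fun s h1 h2 => ?_⟩
  rcases lt_or_ge s (1 + d) with h | h
  · refine le_trans ?_ (le_max_left _ _)
    have h3 := hre s h1 h
    have h4 := him s s1 ⟨h1, h⟩ hs1m
    have h5 := him s1 s hs1m ⟨h1, h⟩
    have h6 : |(F s - ℓ).im| ≤ |(F s1 - ℓ).im| + Real.pi := by
      have a1 := neg_abs_le (F s1 - ℓ).im
      have a2 := le_abs_self (F s1 - ℓ).im
      rw [abs_le]
      constructor <;> linarith
    refine (Complex.norm_le_abs_re_add_abs_im _).trans ?_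
    rw [Complex.sub_re] at h3
    rw [Complex.sub_im] at h6
    have h7 : |(F s).re| ≤ 1 + |ℓ.re| := by
      have := abs_add_le ((F s).re - ℓ.re) ℓ.re
      rw [sub_add_cancel] at this
      linarith
    have h8 : |(F s).im| ≤ |(F s1 - ℓ).im| + Real.pi + |ℓ.im| := by
      have := abs_add_le ((F s).im - ℓ.im) ℓ.im
      rw [sub_add_cancel] at this
      linarith
    linarith
  · refine le_trans ?_ (le_max_right _ _)
    exact hC2 s ⟨by linarith, h2⟩

/-! ### The sums over primes -/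

/-- the terms -/
noncomputable def cyc_t (E : Type) [Field E] [NumberField E] (p : Nat.Primes) (s : ℝ) : ℝ :=
  (aE E p : ℝ) * ((p : ℕ) : ℝ) ^ (-s)

section

variable (E : Type) [Field E] [NumberField E]

theorem cyc_t_nonneg (p : Nat.Primes) (s : ℝ) : 0 ≤ cyc_t E p s := by
  unfold cyc_t
  positivity

theorem cyc_t_summable {s : ℝ} (hs : 1 < s) : Summable fun p => cyc_t E p s :=
  aE_summable E hs

theorem cyc_summ {u : Nat.Primes → ℂ} (hu : ∀ p, ‖u p‖ ≤ 1) {s : ℝ} (hs : 1 < s) :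
    Summable fun p => (cyc_t E p s : ℂ) * u p := by
  refine Summable.of_norm_bounded (cyc_t_summable E hs) fun p => ?_
  rw [norm_mul, Complex.norm_real, Real.norm_eq_abs, abs_of_nonneg (cyc_t_nonneg E p s)]
  exact mul_le_of_le_one_right (cyc_t_nonneg E p s) (hu p)

theorem cyc_SS {q : ℕ} (χ : DirichletCharacter ℂ q) (s : ℝ) :
    SS E χ s = ∑' p : Nat.Primes, (cyc_t E p s : ℂ) * χ ((p : ℕ) : ZMod q) := by
  unfold SS cyc_t
  refine tsum_congr fun p => ?_
  have h : (((((p : ℕ) : ℝ) ^ (-s) : ℝ)) : ℂ) = ((p : ℕ) : ℂ) ^ (-(s : ℂ)) := by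
    rw [Complex.ofReal_cpow (by positivity)]
    push_cast
    rfl
  push_cast
  rw [← h]
  ring

/-- sums over the primes different from `q` -/
theorem cyc_split (Q : Nat.Primes) {f f' : Nat.Primes → ℂ}
    (h : ∀ p : Nat.Primes, p ≠ Q → f p = f' p) (hf : Summable f) (hf' : Summable f') :
    ∑' p, f p = (∑' p, f' p) + (f Q - f' Q) := by
  have h1 : ∑' p, (f p - f' p) = f Q - f' Q := by
    refine tsum_eq_single Q fun p hp => ?_
    rw [h p hp, sub_self]
  rw [← h1, hf.tsum_sub hf']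
  ring

theorem cyc_qterm (Q : Nat.Primes) {s : ℝ} (hs : 1 < s) :
    cyc_t E Q s ≤ aE E Q := by
  unfold cyc_t
  refine mul_le_of_le_one_right (by positivity) ?_
  exact Real.rpow_le_one_of_one_le_of_nonpos (by exact_mod_cast Q.2.one_lt.le) (by linarith)

/-- orthogonality -/
theorem cyc_orth {q : ℕ} [NeZero q] {a : ZMod q} (ha : IsUnit a) {s : ℝ} (hs : 1 < s) :
    ∑ χ : DirichletCharacter ℂ q, χ a⁻¹ * SS E χ s =
      (((q.totient : ℝ) * ∑' p : Nat.Primes, if ((p : ℕ) : ZMod q) = a then cyc_t E p s else 0 :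
        ℝ) : ℂ) := by
  have h1 : ∀ χ : DirichletCharacter ℂ q, χ a⁻¹ * SS E χ s =
      ∑' p : Nat.Primes, (cyc_t E p s : ℂ) * (χ a⁻¹ * χ ((p : ℕ) : ZMod q)) := by
    intro χ
    rw [cyc_SS, ← tsum_mul_left]
    refine tsum_congr fun p => ?_
    ring
  rw [Finset.sum_congr rfl fun χ _ => h1 χ, ← Summable.tsum_finsetSum]
  · push_cast
    rw [← tsum_mul_left]
    refine tsum_congr fun p => ?_
    rw [← Finset.mul_sum, DirichletCharacter.sum_char_inv_mul_char_eq ℂ ha]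
    by_cases h : a = ((p : ℕ) : ZMod q)
    · rw [if_pos h, if_pos h.symm]
      ring
    · rw [if_neg h, if_neg (fun h' => h h'.symm)]
      simp
  · intro χ _
    refine cyc_summ E (fun p => ?_) hs
    rw [norm_mul]
    exact mul_le_one₀ (DirichletCharacter.norm_le_one _ _) (norm_nonneg _)
      (DirichletCharacter.norm_le_one _ _)

end

/-! ### The group -/

section

variable {E M : Type} [Field E] [NumberField E] [Field M] [NumberField M] [Algebra E M]
  {q : ℕ} {ζ : M}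

theorem cyc_pow_eq (hζ : IsPrimitiveRoot ζ q) [NeZero q] {m n : ℕ} (h : ζ ^ m = ζ ^ n) :
    (m : ZMod q) = n := by
  rw [ZMod.natCast_eq_natCast_iff]
  have hu : IsUnit ζ := hζ.isUnit (NeZero.ne q)
  have h1 : hu.unit ^ m = hu.unit ^ n := by
    apply Units.ext
    simpa using h
  have h2 := pow_eq_pow_iff_modEq.1 h1
  rwa [← orderOf_units, IsUnit.unit_spec, ← hζ.eq_orderOf] at h2

theorem cyc_omega (hζ : IsPrimitiveRoot ζ q) [NeZero q] {σ : M ≃ₐ[E] M} {a : ℕ}
    (h : σ ζ = ζ ^ a) : ((hζ.autToPow E σ : (ZMod q)ˣ) : ZMod q) = a := by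
  have h1 := hζ.autToPow_spec E σ
  rw [h] at h1
  have h2 := cyc_pow_eq hζ h1
  rwa [ZMod.natCast_zmod_val] at h2

/-- a character is trivial on the image of the Galois group -/
def cyc_P (hζ : IsPrimitiveRoot ζ q) [NeZero q] (E : Type) [Field E] [Algebra E M]
    (χ : DirichletCharacter ℂ q) : Prop :=
  ∀ σ : M ≃ₐ[E] M, χ ((hζ.autToPow E σ : (ZMod q)ˣ) : ZMod q) = 1

/-- a character as a character of the Galois group -/
noncomputable def cyc_f (hζ : IsPrimitiveRoot ζ q) [NeZero q] (E : Type) [Field E] [Algebra E M]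
    (χ : DirichletCharacter ℂ q) : (M ≃ₐ[E] M) →* ℂ where
  toFun σ := χ ((hζ.autToPow E σ : (ZMod q)ˣ) : ZMod q)
  map_one' := by rw [map_one, Units.val_one, map_one]
  map_mul' σ τ := by rw [map_mul, Units.val_mul, map_mul]

theorem cyc_f_eq_one (hζ : IsPrimitiveRoot ζ q) [NeZero q] (χ : DirichletCharacter ℂ q) :
    cyc_f hζ E χ = 1 ↔ cyc_P hζ E χ := by
  constructor
  · intro h σ
    exact DFunLike.congr_fun h σ
  · intro h
    ext σ
    exact h σ

open Classical in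
theorem cyc_count [IsGalois E M] (hζ : IsPrimitiveRoot ζ q) (hq : q.Prime) [NeZero q]
    (hfix : ∀ σ : M ≃ₐ[E] M, σ ζ = ζ → σ = 1) :
    (Finset.univ.filter fun χ : DirichletCharacter ℂ q => cyc_P hζ E χ).card *
      Module.finrank E M = q.totient := by
  have hone : ∀ σ : M ≃ₐ[E] M, ((hζ.autToPow E σ : (ZMod q)ˣ) : ZMod q) = 1 ↔ σ = 1 := by
    intro σ
    constructor
    · intro h
      apply hfix
      have h1 := hζ.autToPow_spec E σ
      rw [h] at h1
      haveI : Fact (1 < q) := ⟨hq.one_lt⟩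
      rw [ZMod.val_one, pow_one] at h1
      exact h1.symm
    · rintro rfl
      rw [map_one, Units.val_one]
  have h1 : ∑ χ : DirichletCharacter ℂ q, ∑ σ : M ≃ₐ[E] M, cyc_f hζ E χ σ = (q.totient : ℂ) := by
    rw [Finset.sum_comm]
    have h2 : ∀ σ : M ≃ₐ[E] M, ∑ χ : DirichletCharacter ℂ q, cyc_f hζ E χ σ =
        if σ = 1 then (q.totient : ℂ) else 0 := by
      intro σ
      have := DirichletCharacter.sum_characters_eq ℂ
        ((hζ.autToPow E σ : (ZMod q)ˣ) : ZMod q)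
      rw [← if_congr (hone σ) rfl rfl]
      exact this
    rw [Finset.sum_congr rfl fun σ _ => h2 σ, Finset.sum_ite_eq' Finset.univ (1 : M ≃ₐ[E] M),
      if_pos (Finset.mem_univ _)]
  have h3 : ∀ χ : DirichletCharacter ℂ q, ∑ σ : M ≃ₐ[E] M, cyc_f hζ E χ σ =
      if cyc_P hζ E χ then (Module.finrank E M : ℂ) else 0 := by
    intro χ
    rw [sum_hom_units, ← IsGalois.card_aut_eq_finrank E M, Nat.card_eq_fintype_card]
    by_cases h : cyc_P hζ E χ
    · rw [if_pos h, if_pos ((cyc_f_eq_one hζ χ).2 h)]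
    · rw [if_neg h, if_neg (fun h' => h ((cyc_f_eq_one hζ χ).1 h')), Nat.cast_zero]
  rw [Finset.sum_congr rfl fun χ _ => h3 χ, ← Finset.sum_filter, Finset.sum_const,
    nsmul_eq_mul] at h1
  exact_mod_cast h1

/-- (1) the primes of degree one are in the image -/
theorem cyc_one [IsGalois E M] (hζ : IsPrimitiveRoot ζ q) (hq : q.Prime) [NeZero q] {p : ℕ}
    (hp : p.Prime) (hpq : p ≠ q) (ha : aE E p ≠ 0) :
    ∃ σ : M ≃ₐ[E] M, ((hζ.autToPow E σ : (ZMod q)ˣ) : ZMod q) = p := by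
  obtain ⟨I, hI⟩ := (aE_pos E hp).1 (Nat.pos_of_ne_zero ha)
  haveI hIp : I.IsPrime := Ideal.isPrime_of_irreducible_absNorm (by rw [hI]; exact hp)
  obtain ⟨Q, -, hQ, hQI⟩ := Ideal.exists_ideal_over_prime_of_isIntegral (S := 𝓞 M) I ⊥ (by
    rw [← RingHom.ker_eq_comap_bot, (RingHom.injective_iff_ker_eq_bot _).1
      (FaithfulSMul.algebraMap_injective (𝓞 E) (𝓞 M))]
    exact bot_le)
  obtain ⟨σ, -, hσ⟩ := fre (E := E) hζ hq hp hpq Q hQ (by rw [hQI, hI])
  exact ⟨σ, cyc_omega hζ hσ⟩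

theorem cyc_chi_eq [IsGalois E M] (hζ : IsPrimitiveRoot ζ q) (hq : q.Prime) [NeZero q]
    {χ : DirichletCharacter ℂ q} (hχ : cyc_P hζ E χ) (s : ℝ) (p : Nat.Primes)
    (hpq : (p : ℕ) ≠ q) :
    (cyc_t E p s : ℂ) * χ ((p : ℕ) : ZMod q) = (cyc_t E p s : ℂ) := by
  by_cases h : aE E p = 0
  · simp [cyc_t, h]
  · obtain ⟨σ, hσ⟩ := cyc_one (E := E) hζ hq p.2 hpq h
    rw [← hσ, hχ σ, mul_one]

/-- (2) -/
theorem cyc_triv [IsGalois E M] (hζ : IsPrimitiveRoot ζ q) (hq : q.Prime) [NeZero q]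
    {χ : DirichletCharacter ℂ q} (hχ : cyc_P hζ E χ) :
    ∃ C : ℝ, ∀ s : ℝ, 1 < s → s ≤ 2 →
      |(SS E χ s).re - Real.log (1 / (s - 1))| ≤ C := by
  obtain ⟨C, hC⟩ := pol E
  refine ⟨C + aE E q, fun s h1 h2 => ?_⟩
  let Q : Nat.Primes := ⟨q, hq⟩
  have hu : ∀ p : Nat.Primes, ‖χ ((p : ℕ) : ZMod q)‖ ≤ 1 := fun p =>
    DirichletCharacter.norm_le_one _ _
  have hsum0 : Summable fun p => (cyc_t E p s : ℂ) := by
    have := cyc_summ E (u := fun _ => 1) (fun _ => by simp) h1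
    simpa using this
  have h3 := cyc_split Q (f := fun p => (cyc_t E p s : ℂ) * χ ((p : ℕ) : ZMod q))
    (f' := fun p => (cyc_t E p s : ℂ))
    (fun p hp => cyc_chi_eq hζ hq hχ s p fun h => hp (Subtype.ext h))
    (cyc_summ E hu h1) hsum0
  have hχq : χ ((Q : ℕ) : ZMod q) = 0 := by
    have : (((Q : ℕ)) : ZMod q) = 0 := ZMod.natCast_self q
    rw [this]
    haveI : Fact (1 < q) := ⟨hq.one_lt⟩
    exact MulChar.map_zero χ
  rw [← cyc_SS, hχq, mul_zero, zero_sub, ← Complex.ofReal_tsum] at h3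
  rw [h3]
  have h4 := hC s h1 h2
  have h5 : ∑' p : Nat.Primes, (aE E p : ℝ) * ((p : ℕ) : ℝ) ^ (-s) = ∑' p, cyc_t E p s := rfl
  rw [h5] at h4
  have h6 : ((((∑' p, cyc_t E p s : ℝ)) : ℂ) + -(cyc_t E Q s : ℂ)).re
      = (∑' p, cyc_t E p s) - cyc_t E Q s := by
    rw [Complex.add_re, Complex.neg_re, Complex.ofReal_re, Complex.ofReal_re]
    ring
  rw [h6]
  have h7 := cyc_qterm E Q h1
  have h8 := cyc_t_nonneg E Q s
  have h9 : cyc_t E Q s ≤ aE E q := h7
  rw [abs_le] at h4 ⊢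
  constructor <;> linarith [h4.1, h4.2]

/-- (3) -/
theorem cyc_lim [IsGalois E M] (hζ : IsPrimitiveRoot ζ q) (hq : q.Prime) [NeZero q]
    (hfix : ∀ σ : M ≃ₐ[E] M, σ ζ = ζ → σ = 1)
    {χ : DirichletCharacter ℂ q} (hχ : ¬ cyc_P hζ E χ) :
    ∃ w : ℂ, Tendsto (fun s : ℝ => LL E χ s) (𝓝[>] 1) (𝓝 w) := by
  unfold cyc_P at hχ
  push Not at hχ
  obtain ⟨σ, hσ⟩ := hχ
  obtain ⟨p, hp, hpq, hap, hχp⟩ := ntv (E := E) hζ hq hfix χ
    ⟨σ, ((hζ.autToPow E σ : (ZMod q)ˣ) : ZMod q).val, ZMod.val_coe_unit_coprime _,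
      (hζ.autToPow_spec E σ).symm, by rwa [ZMod.natCast_zmod_val]⟩
  obtain ⟨I, hI⟩ := (aE_pos E hp).1 (Nat.pos_of_ne_zero hap)
  refine lim χ ⟨I, ?_, ?_⟩
  · rw [hI]
    have hu : IsUnit ((p : ℕ) : ZMod q) := by
      rw [ZMod.isUnit_iff_coprime]
      exact (Nat.coprime_primes hp hq).2 hpq
    exact (hu.map χ).ne_zero
  · rw [hI]
    exact hχp

theorem cyc_sum_ge [IsGalois E M] (hζ : IsPrimitiveRoot ζ q) (hq : q.Prime) [NeZero q] :
    ∃ C : ℝ, ∀ s : ℝ, 1 < s → s ≤ 2 →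
      Real.log (1 / (s - 1)) - C ≤ (Module.finrank E M : ℝ) *
        ∑' p : Nat.Primes, if ((p : ℕ) : ZMod q) = 1 then cyc_t E p s else 0 := by
  obtain ⟨C, hC⟩ := pol M
  refine ⟨C + aE M q, fun s h1 h2 => ?_⟩
  let Q : Nat.Primes := ⟨q, hq⟩
  have h4 := hC s h1 h2
  have h5 : ∑' p : Nat.Primes, (aE M p : ℝ) * ((p : ℕ) : ℝ) ^ (-s) = ∑' p, cyc_t M p s := rfl
  rw [h5, abs_le] at h4
  have hD : 0 < (Module.finrank E M : ℝ) := by
    exact_mod_cast Module.finrank_pos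
  have hsE : Summable fun p : Nat.Primes =>
      (Module.finrank E M : ℝ) * (if ((p : ℕ) : ZMod q) = 1 then cyc_t E p s else 0) := by
    refine Summable.mul_left _ ?_
    refine Summable.of_nonneg_of_le (fun p => ?_) (fun p => ?_) (cyc_t_summable E h1)
    · split_ifs
      · exact cyc_t_nonneg E p s
      · exact le_rfl
    · split_ifs
      · exact le_rfl
      · exact cyc_t_nonneg E p s
  have hsQ : Summable fun p : Nat.Primes => if p = Q then cyc_t M Q s else 0 := by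
    refine summable_of_ne_finset_zero (s := {Q}) fun p hp => ?_
    rw [Finset.mem_singleton] at hp
    rw [if_neg hp]
  have hle : ∑' p, cyc_t M p s ≤ ∑' p : Nat.Primes, ((Module.finrank E M : ℝ) *
      (if ((p : ℕ) : ZMod q) = 1 then cyc_t E p s else 0) +
      (if p = Q then cyc_t M Q s else 0)) := by
    refine Summable.tsum_le_tsum (fun p => ?_) (cyc_t_summable M h1) (hsE.add hsQ)
    by_cases hp : p = Q
    · subst hp
      rw [if_pos rfl]
      have : 0 ≤ (Module.finrank E M : ℝ) *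
          (if ((Q : ℕ) : ZMod q) = 1 then cyc_t E Q s else 0) := by
        refine mul_nonneg hD.le ?_
        split_ifs
        · exact cyc_t_nonneg E Q s
        · exact le_rfl
      linarith
    · rw [if_neg hp, add_zero]
      have hpq : (p : ℕ) ≠ q := fun h => hp (Subtype.ext h)
      by_cases hM : aE M p = 0
      · have : cyc_t M p s = 0 := by simp [cyc_t, hM]
        rw [this]
        refine mul_nonneg hD.le ?_
        split_ifs
        · exact cyc_t_nonneg E p s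
        · exact le_rfl
      · rw [if_pos (cnt_one M hζ hq p.2 hpq hM)]
        unfold cyc_t
        rw [← mul_assoc]
        refine mul_le_mul_of_nonneg_right ?_ (by positivity)
        exact_mod_cast cnt E M p.2
  rw [hsE.tsum_add hsQ, tsum_mul_left, tsum_ite_eq] at hle
  have h7 := cyc_qterm M Q h1
  have h8 : cyc_t M Q s ≤ aE M q := h7
  linarith [h4.1]

end

section

variable {E M : Type} [Field E] [NumberField E] [Field M] [NumberField M] [Algebra E M]
  [IsGalois E M] {q : ℕ} {ζ : M}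

/-- CYC -/
theorem cyc (hζ : IsPrimitiveRoot ζ q) (hq : q.Prime)
    (hfix : ∀ σ : M ≃ₐ[E] M, σ ζ = ζ → σ = 1)
    (τ : M ≃ₐ[E] M) (a : ℕ) (ha : a.Coprime q) (hτ : τ ζ = ζ ^ a) :
    ∃ C : ℝ, ∀ s : ℝ, 1 < s → s ≤ 2 →
      1 / (Module.finrank E M : ℝ) * Real.log (1 / (s - 1)) - C ≤
        ∑' p : Nat.Primes, if ((p : ℕ) : ZMod q) = a then (aE E p : ℝ) * ((p : ℕ) : ℝ) ^ (-s)
          else 0 := by
  classical
  haveI : NeZero q := ⟨hq.ne_zero⟩
  have hD : 0 < (Module.finrank E M : ℝ) := by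
    exact_mod_cast Module.finrank_pos
  have hφ : 0 < (q.totient : ℝ) := by exact_mod_cast Nat.totient_pos.2 hq.pos
  set m : ℕ := (Finset.univ.filter fun χ : DirichletCharacter ℂ q => cyc_P hζ E χ).card with hm
  have hcount : (m : ℝ) * (Module.finrank E M : ℝ) = q.totient := by
    exact_mod_cast cyc_count hζ hq hfix
  -- upper bounds of the real parts
  have hup : ∀ χ : DirichletCharacter ℂ q, ∃ C : ℝ, ∀ s : ℝ, 1 < s → s ≤ 2 →
      (SS E χ s).re ≤ (if cyc_P hζ E χ then Real.log (1 / (s - 1)) else 0) + C := by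
    intro χ
    by_cases hχ : cyc_P hζ E χ
    · obtain ⟨C, hC⟩ := cyc_triv hζ hq hχ
      refine ⟨C, fun s h1 h2 => ?_⟩
      rw [if_pos hχ]
      have := (abs_le.1 (hC s h1 h2)).2
      linarith
    · obtain ⟨w, hw⟩ := cyc_lim hζ hq hfix hχ
      obtain ⟨Cg, g, hg, -, hSc, hexp⟩ := eul E χ
      obtain ⟨C, hC⟩ := cyc_upper hg hSc hexp hw
      refine ⟨C, fun s h1 h2 => ?_⟩
      rw [if_neg hχ, zero_add]
      exact hC s h1 h2
  choose Cu hCu using hup
  obtain ⟨C1, hC1⟩ := cyc_sum_ge (E := E) hζ hq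
  -- the nontrivial characters
  have hnt : ∀ χ : DirichletCharacter ℂ q, ¬ cyc_P hζ E χ → ∃ C : ℝ, ∀ s : ℝ, 1 < s → s ≤ 2 →
      ‖SS E χ s‖ ≤ C := by
    intro χ hχ
    obtain ⟨w, hw⟩ := cyc_lim hζ hq hfix hχ
    obtain ⟨Cg, g, hg, hgc, hSc, hexp⟩ := eul E χ
    -- lower bound of the real part
    have hlow : ∀ s : ℝ, 1 < s → s ≤ 2 →
        -((m : ℝ) * C1) - ∑ χ' ∈ Finset.univ.erase χ, Cu χ' ≤ (SS E χ s).re := by
      intro s h1 h2
      have h3 := congrArg Complex.re (cyc_orth E (a := (1 : ZMod q)) isUnit_one h1)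
      rw [Complex.re_sum, Complex.ofReal_re] at h3
      have h4 : ∀ χ' : DirichletCharacter ℂ q,
          (χ' (1 : ZMod q)⁻¹ * SS E χ' s).re = (SS E χ' s).re := by
        intro χ'
        have h1i : (1 : ZMod q)⁻¹ = 1 := by
          have := ZMod.inv_mul_of_unit (1 : ZMod q) isUnit_one
          rwa [mul_one] at this
        rw [h1i, map_one, one_mul]
      rw [Finset.sum_congr rfl fun χ' _ => h4 χ',
        ← Finset.add_sum_erase _ _ (Finset.mem_univ χ)] at h3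
      have h5 : ∑ χ' ∈ Finset.univ.erase χ, (SS E χ' s).re ≤
          ∑ χ' ∈ Finset.univ.erase χ, ((if cyc_P hζ E χ' then Real.log (1 / (s - 1)) else 0)
            + Cu χ') := Finset.sum_le_sum fun χ' _ => hCu χ' s h1 h2
      rw [Finset.sum_add_distrib] at h5
      have h6 : ∑ χ' ∈ Finset.univ.erase χ,
          (if cyc_P hζ E χ' then Real.log (1 / (s - 1)) else 0) =
          m * Real.log (1 / (s - 1)) := by
        rw [hm, ← nsmul_eq_mul, ← Finset.sum_const, Finset.sum_filter,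
          ← Finset.add_sum_erase _ _ (Finset.mem_univ χ), if_neg hχ, zero_add]
      rw [h6] at h5
      have h7 := hC1 s h1 h2
      have h8 : (m : ℝ) * (Real.log (1 / (s - 1)) - C1) ≤ q.totient *
          ∑' p : Nat.Primes, if ((p : ℕ) : ZMod q) = 1 then cyc_t E p s else 0 := by
        rw [← hcount, mul_assoc]
        exact mul_le_mul_of_nonneg_left h7 (Nat.cast_nonneg _)
      linarith
    have hw0 : w ≠ 0 := by
      have hle : Real.exp (-((m : ℝ) * C1) - ∑ χ' ∈ Finset.univ.erase χ, Cu χ' - Cg) ≤ ‖w‖ := by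
        refine ge_of_tendsto hw.norm ?_
        filter_upwards [Ioc_mem_nhdsGT (show (1 : ℝ) < 2 by norm_num)] with s hs
        rw [← hexp s hs.1 hs.2, Complex.norm_exp, Complex.add_re]
        apply Real.exp_le_exp.2
        have h5 : |(g s).re| ≤ Cg := (Complex.abs_re_le_norm _).trans (hg s hs.1 hs.2)
        have h6 := neg_abs_le (g s).re
        have h7 := hlow s hs.1 hs.2
        linarith
      intro h
      rw [h, norm_zero] at hle
      exact absurd (Real.exp_pos _) (not_lt.2 hle)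
    obtain ⟨C2, hC2⟩ := cyc_log_bdd (F := fun s => SS E χ s + g s) (hSc.add hgc) hexp hw hw0
    refine ⟨C2 + Cg, fun s h1 h2 => ?_⟩
    have h3 := hC2 s h1 h2
    have h4 := hg s h1 h2
    have h5 : ‖SS E χ s‖ ≤ ‖SS E χ s + g s‖ + ‖g s‖ := by
      have := norm_sub_le (SS E χ s + g s) (g s)
      rwa [add_sub_cancel_right] at this
    linarith
  -- lower bounds for the class of `a`
  have hau : IsUnit (a : ZMod q) := (ZMod.isUnit_iff_coprime a q).2 ha
  have hlow : ∀ χ : DirichletCharacter ℂ q, ∃ C : ℝ, ∀ s : ℝ, 1 < s → s ≤ 2 →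
      (if cyc_P hζ E χ then Real.log (1 / (s - 1)) else 0) - C ≤
        (χ (a : ZMod q)⁻¹ * SS E χ s).re := by
    intro χ
    by_cases hχ : cyc_P hζ E χ
    · obtain ⟨C, hC⟩ := cyc_triv hζ hq hχ
      refine ⟨C, fun s h1 h2 => ?_⟩
      have h3 : χ (a : ZMod q)⁻¹ = 1 := by
        have h4 := hχ τ
        rw [cyc_omega hζ hτ] at h4
        have h5 : χ ((a : ZMod q)⁻¹) * χ (a : ZMod q) = 1 := by
          rw [← map_mul, ZMod.inv_mul_of_unit _ hau, map_one]
        rwa [h4, mul_one] at h5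
      rw [if_pos hχ, h3, one_mul]
      have := (abs_le.1 (hC s h1 h2)).1
      linarith
    · obtain ⟨C, hC⟩ := hnt χ hχ
      refine ⟨C, fun s h1 h2 => ?_⟩
      rw [if_neg hχ, zero_sub]
      have h3 : ‖χ (a : ZMod q)⁻¹ * SS E χ s‖ ≤ C := by
        rw [norm_mul]
        calc ‖χ (a : ZMod q)⁻¹‖ * ‖SS E χ s‖ ≤ 1 * ‖SS E χ s‖ :=
              mul_le_mul_of_nonneg_right (DirichletCharacter.norm_le_one _ _) (norm_nonneg _)
          _ ≤ C := by rw [one_mul]; exact hC s h1 h2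
      have h4 := (Complex.abs_re_le_norm _).trans h3
      linarith [neg_abs_le (χ (a : ZMod q)⁻¹ * SS E χ s).re]
  choose Cl hCl using hlow
  refine ⟨(∑ χ, Cl χ) / q.totient, fun s h1 h2 => ?_⟩
  have h3 := congrArg Complex.re (cyc_orth E hau h1)
  rw [Complex.re_sum, Complex.ofReal_re] at h3
  have h5 : ∑ χ : DirichletCharacter ℂ q,
      ((if cyc_P hζ E χ then Real.log (1 / (s - 1)) else 0) - Cl χ) ≤
      ∑ χ : DirichletCharacter ℂ q, (χ (a : ZMod q)⁻¹ * SS E χ s).re :=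
    Finset.sum_le_sum fun χ _ => hCl χ s h1 h2
  rw [Finset.sum_sub_distrib, ← Finset.sum_filter, Finset.sum_const, ← hm, nsmul_eq_mul, h3] at h5
  have h6 : ∑' p : Nat.Primes, (if ((p : ℕ) : ZMod q) = a then (aE E p : ℝ) *
      ((p : ℕ) : ℝ) ^ (-s) else 0) = ∑' p : Nat.Primes,
      if ((p : ℕ) : ZMod q) = a then cyc_t E p s else 0 := rfl
  rw [h6]
  have h7 : 1 / (Module.finrank E M : ℝ) = m / q.totient := by
    rw [← hcount]
    have hm0 : (m : ℝ) ≠ 0 := by
      intro h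
      rw [h, zero_mul] at hcount
      exact hφ.ne hcount
    field_simp
  rw [h7, div_mul_eq_mul_div, ← sub_div, div_le_iff₀ hφ]
  linarith

end

end Pool.Agent.DS
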