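import Pool.Agent.Lib_helper54.DS.Defs
import Pool.Agent.Lib_helper41.HZF.SFE
import Pool.Agent.Lib_helper41.HZF.LAM2
import Pool.Agent.Lib_helper41.HZF.INF
import Pool.Agent.Lib_helper54.DSF.AEB
import Pool.Agent.Lib_helper54.DSF.CEN
import Pool.Agent.Lib_helper54.DSF.CYC
import Pool.Agent.Lib_helper54.RS.Sums

set_option autoImplicit false

namespace Pool.Agent.DS

open Polynomial NumberField
open Pool.Agent.RS.Main (DirichletGE primeSum BoundedEigenform)

/-- comparison of the weighted sum with the sum over a set of primes -/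
theorem cyg_sum (E : Type) [Field E] [NumberField E] {q a : ℕ} {D c : ℝ} (hD : 0 < D)
    (T : Set ℕ) (S : Finset ℕ)
    (h : ∀ p : ℕ, p.Prime → p ∉ S → (p : ZMod q) = a → aE E p ≠ 0 → p ∈ T ∧ D * aE E p ≤ c)
    (hc : 0 ≤ c) {s : ℝ} (hs : 1 < s) :
    ∑' p : Nat.Primes, (if ((p : ℕ) : ZMod q) = a then (aE E p : ℝ) * ((p : ℕ) : ℝ) ^ (-s)
          else 0) ≤ c / D * RS.primeSum T s + Module.finrank ℚ E * S.card := by
  classical
  have hpow : ∀ p : ℕ, 0 ≤ (p : ℝ) ^ (-s) := fun p => Real.rpow_nonneg (Nat.cast_nonneg p) _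
  set n : ℝ := (Module.finrank ℚ E : ℝ) with hn
  have hn0 : 0 ≤ n := Nat.cast_nonneg _
  have hsumA := aE_summable E hs
  have hA : Summable fun p : Nat.Primes =>
      (if ((p : ℕ) : ZMod q) = a then (aE E p : ℝ) * ((p : ℕ) : ℝ) ^ (-s) else 0) := by
    apply hsumA.of_nonneg_of_le
    · intro p
      split_ifs
      · exact mul_nonneg (Nat.cast_nonneg _) (hpow _)
      · exact le_rfl
    · intro p
      split_ifs
      · exact le_rfl
      · exact mul_nonneg (Nat.cast_nonneg _) (hpow _)
  have hB : Summable fun p : Nat.Primes =>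
      c / D * T.indicator (fun q : ℕ => (q : ℝ) ^ (-s)) p := (RS.summable_ind hs T).mul_left _
  set F : Finset Nat.Primes := S.preimage (fun p : Nat.Primes => (p : ℕ))
    Nat.Primes.coe_nat_injective.injOn with hF
  have hFm : ∀ p : Nat.Primes, (p : ℕ) ∈ S → p ∈ F := by
    intro p hp
    exact Finset.mem_preimage.mpr hp
  have hFc : F.card ≤ S.card := by
    apply Finset.card_le_card_of_injOn (fun p : Nat.Primes => (p : ℕ))
    · intro p hp
      have hp' : p ∈ F := hp
      exact Finset.mem_preimage.mp hp'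
    · exact Nat.Primes.coe_nat_injective.injOn
  have hC : Summable fun p : Nat.Primes => if p ∈ F then n else 0 := by
    apply summable_of_hasFiniteSupport
    apply (F.finite_toSet).subset
    intro p hp
    by_contra hpF
    apply hp
    simp only [Finset.mem_coe] at hpF
    simp [hpF]
  have hle : ∀ p : Nat.Primes,
      (if ((p : ℕ) : ZMod q) = a then (aE E p : ℝ) * ((p : ℕ) : ℝ) ^ (-s) else 0) ≤
      c / D * T.indicator (fun q : ℕ => (q : ℝ) ^ (-s)) p + (if p ∈ F then n else 0) := by
    intro p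
    have hind : 0 ≤ T.indicator (fun q : ℕ => (q : ℝ) ^ (-s)) p :=
      Set.indicator_nonneg (fun q _ => hpow q) _
    have hcD : 0 ≤ c / D := div_nonneg hc hD.le
    have hR : 0 ≤ (if p ∈ F then n else 0) := by split_ifs <;> simp [hn0]
    by_cases hpa : ((p : ℕ) : ZMod q) = a
    · rw [if_pos hpa]
      by_cases hpS : (p : ℕ) ∈ S
      · rw [if_pos (hFm p hpS)]
        have h1 : (aE E p : ℝ) ≤ n := by
          rw [hn]; exact_mod_cast aE_le E p.2
        have h2 : ((p : ℕ) : ℝ) ^ (-s) ≤ 1 := by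
          apply Real.rpow_le_one_of_one_le_of_nonpos
          · exact_mod_cast p.2.one_lt.le
          · linarith
        have h3 : (aE E p : ℝ) * ((p : ℕ) : ℝ) ^ (-s) ≤ n * 1 :=
          mul_le_mul h1 h2 (hpow _) hn0
        have h4 := mul_nonneg hcD hind
        linarith
      · by_cases h0 : aE E p = 0
        · rw [h0, Nat.cast_zero, zero_mul]
          exact add_nonneg (mul_nonneg hcD hind) hR
        · obtain ⟨hT, hle⟩ := h p p.2 hpS hpa h0
          rw [Set.indicator_of_mem hT]
          have h1 : (aE E p : ℝ) ≤ c / D := by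
            rw [le_div_iff₀ hD, mul_comm]
            exact hle
          have h2 := mul_le_mul_of_nonneg_right h1 (hpow (p : ℕ))
          linarith
    · rw [if_neg hpa]
      exact add_nonneg (mul_nonneg hcD hind) hR
  calc ∑' p : Nat.Primes, (if ((p : ℕ) : ZMod q) = a then (aE E p : ℝ) * ((p : ℕ) : ℝ) ^ (-s)
          else 0) ≤ ∑' p : Nat.Primes, (c / D * T.indicator (fun q : ℕ => (q : ℝ) ^ (-s)) p +
            (if p ∈ F then n else 0)) := hA.tsum_le_tsum hle (hB.add hC)
    _ = c / D * RS.primeSum T s + ∑' p : Nat.Primes, (if p ∈ F then n else 0) := by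
        rw [hB.tsum_add hC, tsum_mul_left]
        rfl
    _ ≤ c / D * RS.primeSum T s + n * S.card := by
        have h1 : ∑' p : Nat.Primes, (if p ∈ F then n else 0) = F.card * n := by
          rw [tsum_eq_sum (s := F) (fun p hp => if_neg hp)]
          rw [Finset.sum_congr rfl (fun p hp => if_pos hp), Finset.sum_const, nsmul_eq_mul]
        rw [h1]
        have h2 : (F.card : ℝ) ≤ S.card := by exact_mod_cast hFc
        nlinarith

theorem cyg {M : Type} [Field M] [NumberField M] [IsGalois ℚ M] {q : ℕ} {ζ : M}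
    (hζ : IsPrimitiveRoot ζ q) (hq : q.Prime) (g : M ≃ₐ[ℚ] M)
    (hord : ∀ k : ℤ, (g ^ k) ζ = ζ → g ^ k = 1) (a : ℕ) (ha : g ζ = ζ ^ a) :
    DirichletGE (FrobNF g ∩ {p : ℕ | (p : ZMod q) = a})
      (1 / (Nat.card (Subgroup.centralizer {g}) : ℝ)) := by
  set H := Subgroup.zpowers g with hH
  set E := IntermediateField.fixedField H with hE
  have hfs : E.fixingSubgroup = H := IntermediateField.fixingSubgroup_fixedField H
  have hD : Module.finrank E M = orderOf g := by
    rw [hE, IntermediateField.finrank_fixedField_eq_card, hH, Nat.card_zpowers]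
  have hDpos : 0 < orderOf g := by
    rw [← hD]; exact Module.finrank_pos
  have hcop : a.Coprime q := by
    have h1 : IsPrimitiveRoot (ζ ^ a) q := by
      rw [← ha]
      exact hζ.map_of_injective g.injective
    exact (hζ.pow_iff_coprime hq.pos a).mp h1
  have hgH : g ∈ E.fixingSubgroup := by
    rw [hfs]; exact Subgroup.mem_zpowers g
  obtain ⟨C, hC⟩ := cyc (E := E) (M := M) hζ hq (by
    intro σ hσ
    have h1 : (AlgEquiv.restrictScalars ℚ σ : M ≃ₐ[ℚ] M) ∈ E.fixingSubgroup := by
      intro x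
      exact σ.commutes x
    rw [hfs, hH, Subgroup.mem_zpowers_iff] at h1
    obtain ⟨k, hk⟩ := h1
    have h2 : (g ^ k) ζ = ζ := by rw [hk]; exact hσ
    have h3 := hord k h2
    rw [hk] at h3
    ext x
    exact DFunLike.congr_fun h3 x) (E.fixingSubgroupEquiv ⟨g, hgH⟩) a hcop (by exact ha)
  obtain ⟨S, hS⟩ := cen hζ hq g hord a ha
  have hcpos : 0 < Nat.card (Subgroup.centralizer ({g} : Set (M ≃ₐ[ℚ] M))) := Nat.card_pos
  set c : ℝ := (Nat.card (Subgroup.centralizer ({g} : Set (M ≃ₐ[ℚ] M))) : ℝ) with hc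
  have hc0 : 0 < c := by
    rw [hc]; exact_mod_cast hcpos
  set D : ℝ := (orderOf g : ℝ) with hDd
  have hD0 : 0 < D := by
    rw [hDd]; exact_mod_cast hDpos
  set T : Set ℕ := FrobNF g ∩ {p : ℕ | (p : ZMod q) = a} with hT
  have hkey : ∀ s : ℝ, 1 < s → s ≤ 2 →
      1 / D * Real.log (1 / (s - 1)) - C ≤
        c / D * RS.primeSum T s + Module.finrank ℚ E * S.card := by
    intro s hs hs2
    have h1 := hC s hs hs2
    rw [hD] at h1
    refine h1.trans (cyg_sum E hD0 T S ?_ hc0.le hs)
    intro p hp hpS hpa h0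
    obtain ⟨h2, h3⟩ := hS p hp hpS hpa h0
    refine ⟨⟨h2, hpa⟩, ?_⟩
    rw [hDd, hc]
    exact_mod_cast h3
  set K : ℝ := |C| + Module.finrank ℚ E * S.card with hK
  have hK0 : 0 ≤ K := by positivity
  refine ⟨K * D / c, ?_⟩
  intro s hs
  have hps : 0 ≤ RS.primeSum T s := RS.primeSum_nonneg T s
  change 1 / c * Real.log (1 / (s - 1)) - K * D / c ≤ RS.primeSum T s
  by_cases hs2 : s ≤ 2
  · have h1 := hkey s hs hs2
    have h2 : 1 / D * Real.log (1 / (s - 1)) ≤ c / D * RS.primeSum T s + K := by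
      have := le_abs_self C
      rw [hK]; linarith
    have h3 := mul_le_mul_of_nonneg_left h2 (div_nonneg hD0.le hc0.le : 0 ≤ D / c)
    have h4 : D / c * (1 / D * Real.log (1 / (s - 1))) = 1 / c * Real.log (1 / (s - 1)) := by
      field_simp
    have h5 : D / c * (c / D * RS.primeSum T s + K) = RS.primeSum T s + K * D / c := by
      field_simp
    rw [h4, h5] at h3
    linarith
  · push Not at hs2
    have h1 : Real.log (1 / (s - 1)) ≤ 0 := by
      apply Real.log_nonpos
      · apply div_nonneg zero_le_one; linarith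
      · rw [div_le_one (by linarith)]; linarith
    have h2 : 1 / c * Real.log (1 / (s - 1)) ≤ 0 :=
      mul_nonpos_of_nonneg_of_nonpos (by positivity) h1
    have h3 : 0 ≤ K * D / c := by positivity
    linarith

example : type_of% @cyg = type_of% @cyg := rfl

end Pool.Agent.DS
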