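import Pool.Agent.Lib_helper54.DS.Defs
import Pool.Agent.Lib_helper41.HZF.SFE
import Pool.Agent.Lib_helper41.HZF.LAM2
import Pool.Agent.Lib_helper41.HZF.INF

/-!
# Block DIS: `L` and the `q`-th roots of unity are independent for a suitable prime `q`
-/

set_option autoImplicit false

namespace Pool.Agent.DS

open NumberField IntermediateField

set_option backward.isDefEq.respectTransparency false in
theorem dis_top (L : Type) [Field L] [NumberField L] (q : ℕ) [NeZero q] (ζ : CyclotomicField q L)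
    (hζ : IsPrimitiveRoot ζ q) :
    (IsScalarTower.toAlgHom ℚ L (CyclotomicField q L)).fieldRange ⊔ ℚ⟮ζ⟯ = ⊤ := by
  have h := IsCyclotomicExtension.adjoin_primitive_root_eq_top (n := q) (A := L)
    (B := CyclotomicField q L) hζ
  rw [eq_top_iff]
  intro x _
  have hx : x ∈ Algebra.adjoin L {ζ} := by rw [h]; trivial
  induction hx using Algebra.adjoin_induction with
  | mem y hy =>
    rw [Set.mem_singleton_iff] at hy
    rw [hy]
    exact (le_sup_right : ℚ⟮ζ⟯ ≤ _) (IntermediateField.mem_adjoin_simple_self ℚ ζ)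
  | algebraMap r =>
    exact (le_sup_left : (IsScalarTower.toAlgHom ℚ L (CyclotomicField q L)).fieldRange ≤ _) ⟨r, rfl⟩
  | add a b _ _ ha hb => exact add_mem (ha trivial) (hb trivial)
  | mul a b _ _ ha hb => exact mul_mem (ha trivial) (hb trivial)

theorem dis_prime (L : Type) [Field L] [NumberField L] {d : ℕ} (hd : 0 < d) :
    ∃ q : ℕ, q.Prime ∧ d ∣ q - 1 ∧ (discr L).natAbs.Coprime q := by
  obtain ⟨q, hq, hgt, hmod⟩ := Nat.exists_prime_gt_modEq_one (discr L).natAbs hd.ne'
  refine ⟨q, hq, (Nat.modEq_iff_dvd' hq.one_le).1 hmod.symm, ?_⟩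
  rw [Nat.coprime_comm, Nat.Prime.coprime_iff_not_dvd hq]
  intro h
  have h0 : (discr L).natAbs ≠ 0 := by
    rw [Int.natAbs_ne_zero]; exact discr_ne_zero L
  exact absurd (Nat.le_of_dvd (Nat.pos_of_ne_zero h0) h) (not_le.2 hgt)

set_option backward.isDefEq.respectTransparency false in
theorem dis_disjoint (L : Type) [Field L] [NumberField L] [IsGalois ℚ L] (q : ℕ) (hq : q.Prime)
    (hcop : (discr L).natAbs.Coprime q) [NeZero q] [NumberField (CyclotomicField q L)]
    (ζ : CyclotomicField q L) (hζ : IsPrimitiveRoot ζ q) :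
    IsGalois ℚ (CyclotomicField q L) ∧
      Module.finrank ℚ (CyclotomicField q L) = Module.finrank ℚ L * (q - 1) := by
  have : Fact q.Prime := ⟨hq⟩
  set K₁ : IntermediateField ℚ (CyclotomicField q L) :=
    (IsScalarTower.toAlgHom ℚ L (CyclotomicField q L)).fieldRange with hK₁
  set K₂ : IntermediateField ℚ (CyclotomicField q L) := ℚ⟮ζ⟯ with hK₂
  have htop : K₁ ⊔ K₂ = ⊤ := dis_top L q ζ hζ
  let e : L ≃ₐ[ℚ] K₁ := AlgEquiv.ofInjectiveField (IsScalarTower.toAlgHom ℚ L (CyclotomicField q L))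
  have h1 : IsGalois ℚ K₁ := IsGalois.of_algEquiv e
  have hc : IsCyclotomicExtension {q} ℚ K₂ := hζ.intermediateField_adjoin_isCyclotomicExtension ℚ
  have h2 : IsGalois ℚ K₂ := IsCyclotomicExtension.isGalois {q} ℚ _
  have hcpr : IsCoprime (discr K₁) (discr K₂) := by
    rw [Int.isCoprime_iff_nat_coprime, IsCyclotomicExtension.Rat.natAbs_discr q K₂,
      ← discr_eq_discr_of_algEquiv _ e]
    refine Nat.Coprime.coprime_div_right ?_ (Nat.prod_primeFactors_pow_totient_ediv_dvd hq.pos)
    exact Nat.Coprime.pow_right _ hcop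
  have hdis : K₁.LinearDisjoint K₂ := linearDisjoint_of_isGalois_isCoprime_discr _ _ _ hcpr
  have hfin := hdis.finrank_sup
  rw [htop] at hfin
  have hn : Normal ℚ (K₁ ⊔ K₂ : IntermediateField ℚ (CyclotomicField q L)) := inferInstance
  rw [htop] at hn
  have hn' : Normal ℚ (CyclotomicField q L) := Normal.of_algEquiv IntermediateField.topEquiv
  refine ⟨⟨⟩, ?_⟩
  rw [IntermediateField.finrank_top', ← e.toLinearEquiv.finrank_eq] at hfin
  rw [hfin, IsCyclotomicExtension.finrank (n := q) K₂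
    (Polynomial.cyclotomic.irreducible_rat hq.pos), Nat.totient_prime hq]

set_option backward.isDefEq.respectTransparency false in
theorem dis (L : Type) [Field L] [NumberField L] [IsGalois ℚ L] {d : ℕ} (hd : 0 < d) :
    ∃ q : ℕ, q.Prime ∧ d ∣ q - 1 ∧ ∃ (M : Type) (_ : Field M) (_ : NumberField M)
      (_ : IsGalois ℚ M) (i : L →+* M) (ζ : M), IsPrimitiveRoot ζ q ∧
      ∀ (σ : L ≃ₐ[ℚ] L) (b : (ZMod q)ˣ), ∃! g : M ≃ₐ[ℚ] M,
        (∀ x : L, g (i x) = i (σ x)) ∧ g ζ = ζ ^ (b : ZMod q).val := by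
  obtain ⟨q, hq, hdq, hcop⟩ := dis_prime L hd
  have : Fact q.Prime := ⟨hq⟩
  have : NeZero q := ⟨hq.ne_zero⟩
  have : NumberField (CyclotomicField q L) := IsCyclotomicExtension.numberField {q} L _
  have hζ := IsCyclotomicExtension.zeta_spec q L (CyclotomicField q L)
  set ζ := IsCyclotomicExtension.zeta q L (CyclotomicField q L) with hζdef
  obtain ⟨hgal, hfin⟩ := dis_disjoint L q hq hcop ζ hζ
  refine ⟨q, hq, hdq, CyclotomicField q L, inferInstance, inferInstance, hgal,
    algebraMap L (CyclotomicField q L), ζ, hζ, ?_⟩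
  have htop := IsCyclotomicExtension.adjoin_primitive_root_eq_top (n := q) (A := L)
    (B := CyclotomicField q L) hζ
  -- the map to the product
  let F : ((CyclotomicField q L) ≃ₐ[ℚ] (CyclotomicField q L)) →* (L ≃ₐ[ℚ] L) × (ZMod q)ˣ :=
    (AlgEquiv.restrictNormalHom L).prod (hζ.autToPow ℚ)
  have key : ∀ g h : (CyclotomicField q L) ≃ₐ[ℚ] (CyclotomicField q L),
      (∀ x : L, g (algebraMap L (CyclotomicField q L) x) = h (algebraMap L (CyclotomicField q L) x))
        → g ζ = h ζ → g = h := by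
    intro g h h1 h2
    ext x
    have hx : x ∈ Algebra.adjoin L {ζ} := by rw [htop]; trivial
    induction hx using Algebra.adjoin_induction with
    | mem y hy => rw [Set.mem_singleton_iff] at hy; rw [hy]; exact h2
    | algebraMap r => exact h1 r
    | add a b _ _ ha hb => rw [map_add, map_add, ha, hb]
    | mul a b _ _ ha hb => rw [map_mul, map_mul, ha, hb]
  have hFinj : Function.Injective F := by
    intro g h hgh
    have h1 : AlgEquiv.restrictNormalHom L g = AlgEquiv.restrictNormalHom L h :=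
      congrArg Prod.fst hgh
    have h2 : hζ.autToPow ℚ g = hζ.autToPow ℚ h := congrArg Prod.snd hgh
    refine key g h (fun x => ?_) ?_
    · have e1 := AlgEquiv.restrictNormal_commutes g L x
      have e2 := AlgEquiv.restrictNormal_commutes h L x
      rw [← e1, ← e2]
      exact congrArg (fun z : L ≃ₐ[ℚ] L => algebraMap L (CyclotomicField q L) (z x)) h1
    · rw [← hζ.autToPow_spec ℚ g, ← hζ.autToPow_spec ℚ h, h2]
  have hcard : Nat.card ((CyclotomicField q L) ≃ₐ[ℚ] (CyclotomicField q L)) =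
      Nat.card ((L ≃ₐ[ℚ] L) × (ZMod q)ˣ) := by
    rw [Nat.card_prod, IsGalois.card_aut_eq_finrank, IsGalois.card_aut_eq_finrank, hfin,
      Nat.card_eq_fintype_card, ZMod.card_units_eq_totient, Nat.totient_prime hq]
  have hFbij : Function.Bijective F :=
    (Nat.bijective_iff_injective_and_card F).2 ⟨hFinj, hcard⟩
  intro σ b
  obtain ⟨g, hg⟩ := hFbij.2 (σ, b)
  have hg1 : AlgEquiv.restrictNormalHom L g = σ := congrArg Prod.fst hg
  have hg2 : hζ.autToPow ℚ g = b := congrArg Prod.snd hg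
  refine ⟨g, ⟨fun x => ?_, ?_⟩, ?_⟩
  · rw [← hg1]
    exact (AlgEquiv.restrictNormal_commutes g L x).symm
  · rw [← hg2, hζ.autToPow_spec ℚ g]
  · rintro h ⟨hh1, hh2⟩
    refine key h g (fun x => ?_) ?_
    · rw [hh1 x, ← hg1]
      exact AlgEquiv.restrictNormal_commutes g L x
    · rw [hh2, ← hg2, hζ.autToPow_spec ℚ g]

end Pool.Agent.DS
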