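import Pool.Agent.Lib_helper54.DS.Defs
import Pool.Agent.Lib_helper41.HZF.SFE
import Pool.Agent.Lib_helper41.HZF.LAM2
import Pool.Agent.Lib_helper41.HZF.INF
import Mathlib

/-!
# DS, block TAU
-/

set_option autoImplicit false

namespace Pool.Agent.DS

private theorem tau_dvd {m r n d : ℕ} (hm : 0 < m) (hn : n ≠ 0) (hr : 1 ≤ r) (h : m ^ r ∣ n)
    (hd : d ∣ n) (hmd : ¬ m ∣ d) : ∃ l ∈ m.primeFactors, d * l ^ r ∣ n := by
  have hd0 : d ≠ 0 := by
    rintro rfl
    exact hn (zero_dvd_iff.mp hd)
  -- a prime where the valuation of `d` is smaller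
  obtain ⟨l, hl⟩ : ∃ l, d.factorization l < m.factorization l := by
    by_contra hcon
    push Not at hcon
    exact hmd ((Nat.factorization_le_iff_dvd hm.ne' hd0).mp hcon)
  have hlp : l ∈ m.primeFactors := by
    rw [← Nat.support_factorization, Finsupp.mem_support_iff]
    omega
  have hlprime : l.Prime := Nat.prime_of_mem_primeFactors hlp
  refine ⟨l, hlp, ?_⟩
  have hmul : d * l ^ r ≠ 0 := mul_ne_zero hd0 (pow_ne_zero _ hlprime.ne_zero)
  rw [← Nat.factorization_le_iff_dvd hmul hn]
  intro p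
  rw [Nat.factorization_mul hd0 (pow_ne_zero _ hlprime.ne_zero), Nat.factorization_pow]
  simp only [Finsupp.add_apply, Finsupp.smul_apply, smul_eq_mul, hlprime.factorization]
  by_cases hpl : p = l
  · subst hpl
    simp only [Finsupp.single_eq_same, mul_one]
    have h1 := (Nat.factorization_le_iff_dvd (pow_ne_zero _ hm.ne') hn).mpr h p
    rw [Nat.factorization_pow] at h1
    simp only [Finsupp.smul_apply, smul_eq_mul] at h1
    have h2 : d.factorization p + r ≤ r * m.factorization p := by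
      obtain ⟨k, hk⟩ : ∃ k, m.factorization p = d.factorization p + 1 + k :=
        ⟨m.factorization p - (d.factorization p + 1), by omega⟩
      rw [hk]
      nlinarith [Nat.zero_le (d.factorization p), Nat.zero_le k,
        Nat.mul_le_mul hr (le_refl (d.factorization p)), Nat.zero_le (r * k)]
    omega
  · have h0 : (Finsupp.single l 1 : ℕ →₀ ℕ) p = 0 := by
      rw [Finsupp.single_apply, if_neg]
      exact fun h => hpl h.symm
    rw [h0, mul_zero, add_zero]
    exact (Nat.factorization_le_iff_dvd hd0 hn).mpr hd p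

/-- TAU -/
theorem tau {m r q : ℕ} (hm : 0 < m) (hq : q.Prime) (h : m ^ r ∣ q - 1) :
    (Nat.card {x : (ZMod q)ˣ // ¬ m ∣ orderOf x} : ℝ) ≤ m * (q - 1) / 2 ^ r := by
  classical
  have : Fact q.Prime := ⟨hq⟩
  have hq1 : 1 ≤ q := hq.one_le
  have hn : q - 1 ≠ 0 := by have := hq.two_le; omega
  have hcard : Fintype.card (ZMod q)ˣ = q - 1 := ZMod.card_units q
  have hqr : ((q - 1 : ℕ) : ℝ) = (q : ℝ) - 1 := by push_cast [hq1]; ring
  have hm1 : (1 : ℝ) ≤ m := by exact_mod_cast hm
  have hq0 : (0 : ℝ) ≤ (q : ℝ) - 1 := by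
    have : (1 : ℝ) ≤ q := by exact_mod_cast hq1
    linarith
  rw [Nat.card_eq_fintype_card, Fintype.card_subtype]
  rcases Nat.eq_zero_or_pos r with hr | hr
  · subst hr
    have h1 : (Finset.univ.filter fun x : (ZMod q)ˣ => ¬ m ∣ orderOf x).card ≤ q - 1 := by
      rw [← hcard]
      exact Finset.card_le_univ _
    have h2 : ((Finset.univ.filter fun x : (ZMod q)ˣ => ¬ m ∣ orderOf x).card : ℝ)
        ≤ (q : ℝ) - 1 := by
      rw [← hqr]; exact_mod_cast h1
    rw [pow_zero, div_one]
    nlinarith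
  · have hsub : (Finset.univ.filter fun x : (ZMod q)ˣ => ¬ m ∣ orderOf x) ⊆
        m.primeFactors.biUnion fun l => Finset.univ.filter fun x : (ZMod q)ˣ =>
          x ^ ((q - 1) / l ^ r) = 1 ∧ l ^ r ∣ q - 1 := by
      intro x hx
      rw [Finset.mem_filter] at hx
      have hd : orderOf x ∣ q - 1 := by
        rw [← hcard]; exact orderOf_dvd_card
      obtain ⟨l, hl, hdl⟩ := tau_dvd hm hn hr h hd hx.2
      rw [Finset.mem_biUnion]
      refine ⟨l, hl, ?_⟩
      rw [Finset.mem_filter]
      have hlp : 0 < l ^ r := pow_pos (Nat.prime_of_mem_primeFactors hl).pos _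
      have h1 : l ^ r ∣ q - 1 := (Dvd.intro_left _ rfl).trans hdl
      refine ⟨Finset.mem_univ _, ?_, h1⟩
      rw [← orderOf_dvd_iff_pow_eq_one]
      exact (Nat.dvd_div_iff_mul_dvd h1).mpr (by rwa [mul_comm])
    have hle : ∀ l ∈ m.primeFactors, ((Finset.univ.filter fun x : (ZMod q)ˣ =>
          x ^ ((q - 1) / l ^ r) = 1 ∧ l ^ r ∣ q - 1).card : ℝ) ≤ ((q : ℝ) - 1) / 2 ^ r := by
      intro l hl
      have hlprime := Nat.prime_of_mem_primeFactors hl
      by_cases hdvd : l ^ r ∣ q - 1
      · have hpos : 0 < (q - 1) / l ^ r :=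
          Nat.div_pos (Nat.le_of_dvd (Nat.pos_of_ne_zero hn) hdvd) (pow_pos hlprime.pos _)
        have h1 : (Finset.univ.filter fun x : (ZMod q)ˣ =>
            x ^ ((q - 1) / l ^ r) = 1 ∧ l ^ r ∣ q - 1).card ≤ (q - 1) / l ^ r := by
          refine le_trans (Finset.card_le_card ?_) (IsCyclic.card_pow_eq_one_le hpos)
          intro x hx
          rw [Finset.mem_filter] at hx ⊢
          exact ⟨hx.1, hx.2.1⟩
        have h2 : (((q - 1) / l ^ r : ℕ) : ℝ) ≤ ((q : ℝ) - 1) / 2 ^ r := by
          refine le_trans Nat.cast_div_le ?_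
          rw [hqr]
          refine div_le_div_of_nonneg_left hq0 (by positivity) ?_
          have : 2 ^ r ≤ l ^ r := Nat.pow_le_pow_left hlprime.two_le r
          exact_mod_cast this
        exact le_trans (by exact_mod_cast h1) h2
      · have : (Finset.univ.filter fun x : (ZMod q)ˣ =>
            x ^ ((q - 1) / l ^ r) = 1 ∧ l ^ r ∣ q - 1) = ∅ := by
          rw [Finset.filter_eq_empty_iff]
          rintro x _ ⟨_, h2⟩
          exact hdvd h2
        rw [this]
        simp only [Finset.card_empty, Nat.cast_zero]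
        positivity
    have h3 : ((Finset.univ.filter fun x : (ZMod q)ˣ => ¬ m ∣ orderOf x).card : ℝ)
        ≤ ∑ l ∈ m.primeFactors, ((Finset.univ.filter fun x : (ZMod q)ˣ =>
          x ^ ((q - 1) / l ^ r) = 1 ∧ l ^ r ∣ q - 1).card : ℝ) := by
      exact_mod_cast (Finset.card_le_card hsub).trans Finset.card_biUnion_le
    refine h3.trans ((Finset.sum_le_sum hle).trans ?_)
    rw [Finset.sum_const, nsmul_eq_mul]
    have hpf : (m.primeFactors.card : ℝ) ≤ m := by
      have h5 : m.primeFactors ⊆ Finset.Icc 1 m := by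
        intro l hl
        rw [Finset.mem_Icc]
        exact ⟨(Nat.prime_of_mem_primeFactors hl).one_le, Nat.le_of_mem_primeFactors hl⟩
      have h6 := Finset.card_le_card h5
      rw [Nat.card_Icc] at h6
      exact_mod_cast (by omega : m.primeFactors.card ≤ m)
    calc (m.primeFactors.card : ℝ) * (((q : ℝ) - 1) / 2 ^ r) ≤ m * (((q : ℝ) - 1) / 2 ^ r) := by
          apply mul_le_mul_of_nonneg_right hpf
          positivity
      _ = m * (q - 1) / 2 ^ r := by ring

end Pool.Agent.DS
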