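import Pool.Agent.Lib_helper54.DS.Defs
import Pool.Agent.Lib_helper41.HZF.SFE
import Pool.Agent.Lib_helper41.HZF.LAM2
import Pool.Agent.Lib_helper41.HZF.INF
import Pool.Agent.Lib_helper54.DSF.CYG
import Pool.Agent.Lib_helper54.DSF.DIS
import Pool.Agent.Lib_helper54.DSF.RAM
import Pool.Agent.Lib_helper54.DSF.TAU

/-!
# Block CHB: the lower bound in the density theorem of Chebotarev for one element
-/

set_option autoImplicit false

namespace Pool.Agent.DS

open NumberField
open Pool.Agent.RS.Main (DirichletGE primeSum)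

theorem chb_summable {s : ℝ} (hs : 1 < s) (S : Set ℕ) :
    Summable fun p : Nat.Primes => S.indicator (fun q : ℕ => (q : ℝ) ^ (-s)) p := by
  have h : Summable fun p : Nat.Primes => ((p : ℕ) : ℝ) ^ (-s) :=
    Nat.Primes.summable_rpow.2 (by linarith)
  apply h.of_nonneg_of_le
  · intro p; exact Set.indicator_nonneg (fun q _ => Real.rpow_nonneg (Nat.cast_nonneg q) _) _
  · intro p; exact Set.indicator_le_self' (fun q _ => Real.rpow_nonneg (Nat.cast_nonneg q) _) _

theorem chb_nonneg (S : Set ℕ) (s : ℝ) : 0 ≤ primeSum S s :=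
  tsum_nonneg fun p => Set.indicator_nonneg
    (fun q _ => Real.rpow_nonneg (Nat.cast_nonneg q) _) _

/-- pairwise disjoint sets inside a set, up to a finite set -/
theorem chb_sum_le {ι : Type} (B : Finset ι) (T : ι → Set ℕ) (F : Set ℕ) (E : Finset ℕ)
    (hsub : ∀ b ∈ B, ∀ p ∈ T b, p.Prime → p ∉ E → p ∈ F)
    (hdis : ∀ b ∈ B, ∀ b' ∈ B, ∀ p ∈ T b, p ∈ T b' → b = b') {s : ℝ} (hs : 1 < s) :
    ∑ b ∈ B, primeSum (T b) s ≤ primeSum F s + E.card := by
  classical
  unfold primeSum
  rw [← Summable.tsum_finsetSum (fun b _ => chb_summable hs (T b))]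
  have hsumE : Summable fun p : Nat.Primes => (E : Set ℕ).indicator (fun q : ℕ => (q : ℝ) ^ (-s)) p :=
    chb_summable hs _
  have hE : ∑' p : Nat.Primes, (E : Set ℕ).indicator (fun q : ℕ => (q : ℝ) ^ (-s)) (p : ℕ) ≤ E.card := by
    apply hsumE.tsum_le_of_sum_le
    intro P
    calc ∑ p ∈ P, (E : Set ℕ).indicator (fun q : ℕ => (q : ℝ) ^ (-s)) (p : ℕ)
        ≤ ∑ p ∈ P, (if (p : ℕ) ∈ E then (1 : ℝ) else 0) := by
          apply Finset.sum_le_sum
          intro p _
          by_cases hp : (p : ℕ) ∈ E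
          · rw [Set.indicator_of_mem (by exact_mod_cast hp), if_pos hp]
            apply Real.rpow_le_one_of_one_le_of_nonpos
            · exact_mod_cast p.2.one_lt.le
            · linarith
          · rw [Set.indicator_of_notMem (by exact_mod_cast hp), if_neg hp]
      _ = ((P.filter fun p : Nat.Primes => (p : ℕ) ∈ E).card : ℝ) := by
          rw [Finset.sum_ite, Finset.sum_const_zero, add_zero, Finset.sum_const, nsmul_eq_mul,
            mul_one]
      _ ≤ (E.card : ℝ) := by
          have : (P.filter fun p : Nat.Primes => (p : ℕ) ∈ E).card ≤ E.card :=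
            Finset.card_le_card_of_injOn (fun p : Nat.Primes => (p : ℕ))
              (fun p hp => (Finset.mem_filter.1 hp).2)
              (fun p _ p' _ h => Nat.Primes.coe_nat_injective h)
          exact_mod_cast this
  calc ∑' p : Nat.Primes, ∑ b ∈ B, (T b).indicator (fun q : ℕ => (q : ℝ) ^ (-s)) (p : ℕ)
      ≤ ∑' p : Nat.Primes, (F.indicator (fun q : ℕ => (q : ℝ) ^ (-s)) (p : ℕ) +
          (E : Set ℕ).indicator (fun q : ℕ => (q : ℝ) ^ (-s)) (p : ℕ)) := by
        apply (summable_sum fun b _ => chb_summable hs (T b)).tsum_le_tsum _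
          ((chb_summable hs F).add hsumE)
        intro p
        have hnF : 0 ≤ F.indicator (fun q : ℕ => (q : ℝ) ^ (-s)) (p : ℕ) :=
          Set.indicator_nonneg (fun q _ => Real.rpow_nonneg (Nat.cast_nonneg q) _) _
        have hnE : 0 ≤ (E : Set ℕ).indicator (fun q : ℕ => (q : ℝ) ^ (-s)) (p : ℕ) :=
          Set.indicator_nonneg (fun q _ => Real.rpow_nonneg (Nat.cast_nonneg q) _) _
        by_cases hb : ∃ b ∈ B, (p : ℕ) ∈ T b
        · obtain ⟨b, hbB, hbT⟩ := hb
          have h1 : ∑ b' ∈ B, (T b').indicator (fun q : ℕ => (q : ℝ) ^ (-s)) (p : ℕ) =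
              ((p : ℕ) : ℝ) ^ (-s) := by
            rw [Finset.sum_eq_single b]
            · rw [Set.indicator_of_mem hbT]
            · intro b' hb' hne
              exact Set.indicator_of_notMem (fun h => hne (hdis b' hb' b hbB p h hbT)) _
            · intro h; exact absurd hbB h
          rw [h1]
          by_cases hpE : (p : ℕ) ∈ E
          · have h2 : (E : Set ℕ).indicator (fun q : ℕ => (q : ℝ) ^ (-s)) (p : ℕ) =
                ((p : ℕ) : ℝ) ^ (-s) := Set.indicator_of_mem (by exact_mod_cast hpE) _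
            linarith
          · have h2 : F.indicator (fun q : ℕ => (q : ℝ) ^ (-s)) (p : ℕ) = ((p : ℕ) : ℝ) ^ (-s) :=
              Set.indicator_of_mem (hsub b hbB p hbT p.2 hpE) _
            linarith
        · have h1 : ∑ b' ∈ B, (T b').indicator (fun q : ℕ => (q : ℝ) ^ (-s)) (p : ℕ) = 0 := by
            apply Finset.sum_eq_zero
            intro b' hb'
            exact Set.indicator_of_notMem (fun h => hb ⟨b', hb', h⟩) _
          rw [h1]
          linarith
    _ = _ := (chb_summable hs F).tsum_add hsumE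
    _ ≤ _ := by linarith

/-- summing lower densities -/
theorem chb_dirichlet {ι : Type} (B : Finset ι) (T : ι → Set ℕ) (F : Set ℕ) (E : Finset ℕ)
    (hsub : ∀ b ∈ B, ∀ p ∈ T b, p.Prime → p ∉ E → p ∈ F)
    (hdis : ∀ b ∈ B, ∀ b' ∈ B, ∀ p ∈ T b, p ∈ T b' → b = b') (c : ι → ℝ)
    (hc : ∀ b ∈ B, DirichletGE (T b) (c b)) {δ : ℝ} (h0 : 0 ≤ δ) (hδ : δ ≤ ∑ b ∈ B, c b) :
    DirichletGE F δ := by
  classical
  have hc' : ∀ b : ι, ∃ C : ℝ, b ∈ B → ∀ s : ℝ, 1 < s →
      c b * Real.log (1 / (s - 1)) - C ≤ primeSum (T b) s := by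
    intro b
    by_cases hb : b ∈ B
    · obtain ⟨C, hC⟩ := hc b hb
      exact ⟨C, fun _ => hC⟩
    · exact ⟨0, fun h => absurd h hb⟩
  choose C hC using hc'
  refine ⟨|∑ b ∈ B, C b| + E.card, fun s hs => ?_⟩
  have hF := chb_nonneg F s
  have habs := le_abs_self (∑ b ∈ B, C b)
  have habs' := abs_nonneg (∑ b ∈ B, C b)
  have hEc : (0 : ℝ) ≤ (E.card : ℝ) := Nat.cast_nonneg _
  by_cases h2 : s ≤ 2
  · have hlog : 0 ≤ Real.log (1 / (s - 1)) := by
      apply Real.log_nonneg
      rw [le_div_iff₀ (by linarith)]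
      linarith
    have h3 := chb_sum_le B T F E hsub hdis hs
    have h4 : ∑ b ∈ B, (c b * Real.log (1 / (s - 1)) - C b) ≤ ∑ b ∈ B, primeSum (T b) s :=
      Finset.sum_le_sum fun b hb => hC b hb s hs
    rw [Finset.sum_sub_distrib, ← Finset.sum_mul] at h4
    have h5 := mul_le_mul_of_nonneg_right hδ hlog
    linarith
  · have hlog : Real.log (1 / (s - 1)) ≤ 0 := by
      apply Real.log_nonpos
      · apply div_nonneg zero_le_one; linarith
      · rw [div_le_one (by linarith)]; linarith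
    have h5 := mul_nonpos_of_nonneg_of_nonpos h0 hlog
    linarith

set_option backward.isDefEq.respectTransparency false in
theorem chb (L : Type) [Field L] [NumberField L] [IsGalois ℚ L] (σ : L ≃ₐ[ℚ] L) {δ : ℝ}
    (h0 : 0 ≤ δ) (hδ : δ < 1 / (Nat.card (Subgroup.centralizer {σ}) : ℝ)) :
    DirichletGE (FrobNF σ) δ := by
  classical
  set m := orderOf σ with hm
  have hmpos : 0 < m := orderOf_pos σ
  set n := Nat.card (Subgroup.centralizer {σ}) with hn
  have hnpos : 0 < n := Nat.card_pos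
  have hnR : (0 : ℝ) < n := by exact_mod_cast hnpos
  have hmR : (0 : ℝ) < m := by exact_mod_cast hmpos
  have hδn : δ * n < 1 := by rwa [lt_div_iff₀ hnR] at hδ
  obtain ⟨r, hr⟩ := exists_pow_lt_of_lt_one (x := (1 - δ * n) / m) (y := (1 / 2 : ℝ))
    (div_pos (by linarith) hmR) (by norm_num)
  have hr' : (m : ℝ) / 2 ^ r < 1 - δ * n := by
    rw [lt_div_iff₀ hmR] at hr
    have : (m : ℝ) / 2 ^ r = (1 / 2) ^ r * m := by rw [one_div, inv_pow]; ring
    rw [this]; exact hr
  obtain ⟨q, hq, hdq, M, fM, nM, gM, i, ζ, hζ, hex⟩ := dis L (d := m ^ r) (pow_pos hmpos r)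
  have : Fact q.Prime := ⟨hq⟩
  have : NeZero q := ⟨hq.ne_zero⟩
  letI : Algebra L M := i.toAlgebra
  have hst : IsScalarTower ℚ L M := IsScalarTower.of_algebraMap_eq fun x => by
    simp [RingHom.algebraMap_toAlgebra]
  have hi : ∀ x : L, algebraMap L M x = i x := fun x => rfl
  have hiinj : Function.Injective i := i.injective
  choose g hg hguniq using hex σ
  have hval1 : ((1 : (ZMod q)ˣ) : ZMod q).val = 1 := by
    rw [Units.val_one, ZMod.val_one]
  -- restriction and cyclotomic character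
  let res : (M ≃ₐ[ℚ] M) →* (L ≃ₐ[ℚ] L) := AlgEquiv.restrictNormalHom L
  have hres : ∀ (h : M ≃ₐ[ℚ] M) (x : L), i (res h x) = h (i x) := fun h x =>
    AlgEquiv.restrictNormal_commutes h L x
  let ω : (M ≃ₐ[ℚ] M) →* (ZMod q)ˣ := hζ.autToPow ℚ
  have hω : ∀ h : M ≃ₐ[ℚ] M, ζ ^ (ω h : ZMod q).val = h ζ := fun h => hζ.autToPow_spec ℚ h
  have hinj : ∀ b b' : (ZMod q)ˣ, ζ ^ (b : ZMod q).val = ζ ^ (b' : ZMod q).val → b = b' := by
    intro b b' h
    have := hζ.pow_inj (ZMod.val_lt _) (ZMod.val_lt _) h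
    exact Units.ext (ZMod.val_injective q this)
  have huniq : ∀ h h' : M ≃ₐ[ℚ] M, res h = res h' → ω h = ω h' → h = h' := by
    intro h h' h1 h2
    obtain ⟨g0, _, hg0⟩ := hex (res h') (ω h')
    have e1 : h = g0 := hg0 h ⟨fun x => by rw [← h1, hres], by rw [← h2, hω]⟩
    have e2 : h' = g0 := hg0 h' ⟨fun x => by rw [hres], by rw [hω]⟩
    rw [e1, e2]
  have hresg : ∀ b, res (g b) = σ := by
    intro b
    apply AlgEquiv.ext
    intro x
    apply hiinj
    rw [hres, (hg b).1]
  have hωg : ∀ b, ω (g b) = b := by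
    intro b
    apply hinj
    rw [hω, (hg b).2]
  -- good classes
  set B : Finset (ZMod q)ˣ := Finset.univ.filter fun b => m ∣ orderOf b with hB
  have hord : ∀ b ∈ B, ∀ k : ℤ, (g b ^ k) ζ = ζ → g b ^ k = 1 := by
    intro b hb k hk
    have hmb : m ∣ orderOf b := (Finset.mem_filter.1 hb).2
    have h1 : ω (g b ^ k) = 1 := by
      apply hinj
      rw [hω, hval1, pow_one]; exact hk
    have h2 : b ^ k = 1 := by rw [map_zpow, hωg] at h1; exact h1
    have h3 : (m : ℤ) ∣ k :=
      (Int.natCast_dvd_natCast.2 hmb).trans (orderOf_dvd_iff_zpow_eq_one.2 h2)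
    have h4 : σ ^ k = 1 := orderOf_dvd_iff_zpow_eq_one.1 h3
    apply huniq
    · rw [map_zpow, hresg, h4, map_one]
    · rw [h1, map_one]
  have hcyg : ∀ b ∈ B, DirichletGE (FrobNF (g b) ∩ {p : ℕ | (p : ZMod q) = (((b : ZMod q).val : ℕ) : ZMod q)})
      (1 / (Nat.card (Subgroup.centralizer {g b}) : ℝ)) := fun b hb =>
    cyg hζ hq (g b) (hord b hb) _ (hg b).2
  -- the centralizers
  have hcard : ∀ b, Nat.card (Subgroup.centralizer {g b}) ≤ n * (q - 1) := by
    intro b
    have hmem : ∀ h : Subgroup.centralizer {g b}, res h ∈ Subgroup.centralizer {σ} := by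
      intro h
      rw [Subgroup.mem_centralizer_singleton_iff]
      have := (Subgroup.mem_centralizer_singleton_iff.1 h.2)
      have h2 := congrArg res this
      rw [map_mul, map_mul, hresg] at h2
      exact h2
    let Φ : Subgroup.centralizer {g b} → Subgroup.centralizer {σ} × (ZMod q)ˣ :=
      fun h => (⟨res h, hmem h⟩, ω h)
    have hΦ : Function.Injective Φ := by
      intro h h' hh
      have h1 : res h = res h' := congrArg (fun z => (z.1 : L ≃ₐ[ℚ] L)) hh
      have h2 : ω h = ω h' := congrArg Prod.snd hh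
      exact Subtype.ext (huniq _ _ h1 h2)
    calc Nat.card (Subgroup.centralizer {g b})
        ≤ Nat.card (Subgroup.centralizer {σ} × (ZMod q)ˣ) := Nat.card_le_card_of_injective Φ hΦ
      _ = n * (q - 1) := by
          rw [Nat.card_prod, Nat.card_eq_fintype_card (α := (ZMod q)ˣ), ZMod.card_units_eq_totient,
            Nat.totient_prime hq]
  obtain ⟨E, hE⟩ := ram L
  refine chb_dirichlet B (fun b => FrobNF (g b) ∩
    {p : ℕ | (p : ZMod q) = (((b : ZMod q).val : ℕ) : ZMod q)}) (FrobNF σ) E ?_ ?_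
    (fun b => 1 / (Nat.card (Subgroup.centralizer {g b}) : ℝ)) hcyg h0 ?_
  · rintro b hb p ⟨⟨hp, 𝔓, hP, hpP, hI, _⟩, _⟩ _ hpE
    refine ⟨hp, Ideal.comap (RingOfIntegers.mapRingHom i) 𝔓, ?_, ?_, ?_, ?_⟩
    · exact Ideal.IsPrime.comap _
    · rw [Ideal.mem_comap, map_natCast]; exact hpP
    · intro x y hxy
      rw [Ideal.mem_comap, map_sub, map_pow]
      apply hI
      rw [RingOfIntegers.mapRingHom_apply, RingOfIntegers.mapRingHom_apply, hxy, (hg b).1]
    · apply hE p hp hpE
      · exact Ideal.IsPrime.comap _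
      · rw [Ideal.mem_comap, map_natCast]; exact hpP
  · rintro b _ b' _ p ⟨_, hp⟩ ⟨_, hp'⟩
    have h1 : (p : ZMod q) = (((b : ZMod q).val : ℕ) : ZMod q) := hp
    have h2 : (p : ZMod q) = (((b' : ZMod q).val : ℕ) : ZMod q) := hp'
    rw [ZMod.natCast_zmod_val] at h1 h2
    exact Units.ext (h1.symm.trans h2)
  · -- the count
    have hq1 : (0 : ℝ) < (q : ℝ) - 1 := by
      have := hq.one_lt
      have : (1 : ℝ) < q := by exact_mod_cast this
      linarith
    have htau := tau (m := m) (r := r) hmpos hq hdq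
    have hcnt : (B.card : ℝ) = (q - 1) - (Nat.card {x : (ZMod q)ˣ // ¬ m ∣ orderOf x} : ℝ) := by
      have h1 : B.card + (Finset.univ.filter fun b : (ZMod q)ˣ => ¬ m ∣ orderOf b).card = q - 1 := by
        rw [hB, Finset.card_filter_add_card_filter_not, Finset.card_univ,
          ZMod.card_units_eq_totient, Nat.totient_prime hq]
      have h2 : Nat.card {x : (ZMod q)ˣ // ¬ m ∣ orderOf x} =
          (Finset.univ.filter fun b : (ZMod q)ˣ => ¬ m ∣ orderOf b).card := by
        rw [Nat.card_eq_fintype_card, Fintype.card_subtype]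
      rw [h2]
      have h3 : ((B.card + (Finset.univ.filter fun b : (ZMod q)ˣ => ¬ m ∣ orderOf b).card : ℕ) : ℝ)
          = ((q - 1 : ℕ) : ℝ) := by rw [h1]
      rw [Nat.cast_sub hq.one_le, Nat.cast_one, Nat.cast_add] at h3
      linarith
    have hterm : ∀ b ∈ B, 1 / ((n : ℝ) * (q - 1)) ≤
        1 / (Nat.card (Subgroup.centralizer {g b}) : ℝ) := by
      intro b _
      apply one_div_le_one_div_of_le
      · exact_mod_cast Nat.card_pos
      · have h1 : ((Nat.card (Subgroup.centralizer {g b}) : ℕ) : ℝ) ≤ ((n * (q - 1) : ℕ) : ℝ) := by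
          exact_mod_cast hcard b
        rw [Nat.cast_mul, Nat.cast_sub hq.one_le, Nat.cast_one] at h1
        exact h1
    have hsum : (B.card : ℝ) * (1 / ((n : ℝ) * (q - 1))) ≤
        ∑ b ∈ B, 1 / (Nat.card (Subgroup.centralizer {g b}) : ℝ) := by
      rw [← nsmul_eq_mul, ← Finset.sum_const]
      exact Finset.sum_le_sum hterm
    refine le_trans ?_ hsum
    rw [mul_one_div, le_div_iff₀ (mul_pos hnR hq1), hcnt]
    have h6 : (m : ℝ) * (q - 1) / 2 ^ r = m / 2 ^ r * (q - 1) := by ring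
    rw [h6] at htau
    have h7 := mul_le_mul_of_nonneg_right hr'.le hq1.le
    nlinarith

end Pool.Agent.DS
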