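import Pool.Agent.Lib_helper54.DS.Defs
import Pool.Agent.Lib_helper41.HZF.SFE
import Pool.Agent.Lib_helper41.HZF.LAM2
import Pool.Agent.Lib_helper41.HZF.INF

set_option autoImplicit false

namespace Pool.Agent.DS

open Polynomial NumberField Filter Topology MeasureTheory

theorem frx_alg : Algebra.IsAlgebraic ℚ Qbar := AlgebraicClosure.isAlgebraic ℚ

theorem frx_ac : IsAlgClosure ℚ Qbar := ⟨inferInstance, frx_alg⟩

theorem frx_gal : IsGalois ℚ Qbar := by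
  have := frx_ac
  exact IsAlgClosure.isGalois ℚ Qbar

/-- An element of `Qbar` that is an algebraic integer and is fixed by the Galois group is an
integer. -/
theorem frx_fixed (x : 𝓞 Qbar) (h : ∀ g : GQ, g • x = x) : ∃ a : ℤ, algebraMap ℤ (𝓞 Qbar) a = x := by
  have := frx_gal
  have h1 : (x : Qbar) ∈ Set.range (algebraMap ℚ Qbar) := by
    rw [InfiniteGalois.mem_range_algebraMap_iff_fixed]
    intro g
    have := congrArg (fun y : 𝓞 Qbar => (y : Qbar)) (h g)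
    exact this
  obtain ⟨r, hr⟩ := h1
  have h2 : IsIntegral ℤ r := by
    have h3 : IsIntegral ℤ (algebraMap ℚ Qbar r) := by
      rw [hr]; exact x.2
    exact (isIntegral_algebraMap_iff (algebraMap ℚ Qbar).injective).mp h3
  obtain ⟨a, ha⟩ := IsIntegrallyClosed.isIntegral_iff.mp h2
  refine ⟨a, ?_⟩
  apply NumberField.RingOfIntegers.coe_injective
  change (algebraMap (𝓞 Qbar) Qbar) ((algebraMap ℤ (𝓞 Qbar)) a) = (x : Qbar)
  rw [← hr, ← ha]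
  simp

theorem frx_stab (x : 𝓞 Qbar) : IsOpen (MulAction.stabilizer GQ x : Set GQ) := by
  have hA := frx_alg
  have h := stabilizer_isOpen_of_isIntegral (K := ℚ) (L := Qbar) (x : Qbar)
  have h2 : (MulAction.stabilizer GQ x : Set GQ) = (MulAction.stabilizer GQ (x : Qbar) : Set GQ) := by
    ext g
    simp only [SetLike.mem_coe, MulAction.mem_stabilizer_iff]
    constructor
    · intro hg
      have := congrArg (fun y : 𝓞 Qbar => (y : Qbar)) hg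
      exact this
    · intro hg
      apply NumberField.RingOfIntegers.coe_injective
      exact hg
  rw [h2]
  exact h

theorem frx_prime {p : ℕ} (hp : p.Prime) : ∃ 𝔓 : Ideal (𝓞 Qbar), 𝔓.IsMaximal ∧
    𝔓.comap (algebraMap ℤ (𝓞 Qbar)) = Ideal.span {(p : ℤ)} := by
  haveI : Fact p.Prime := ⟨hp⟩
  have hmax : (Ideal.span {(p : ℤ)}).IsMaximal :=
    Int.ideal_span_isMaximal_of_prime p
  have hinj : Function.Injective (algebraMap ℤ (𝓞 Qbar)) := by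
    exact FaithfulSMul.algebraMap_injective ℤ (𝓞 Qbar)
  have := Ideal.exists_ideal_over_maximal_of_isIntegral (S := 𝓞 Qbar) (Ideal.span {(p : ℤ)})
    (by rw [(RingHom.injective_iff_ker_eq_bot _).mp hinj]; exact bot_le)
  obtain ⟨Q, hQ, hQ2⟩ := this
  exact ⟨Q, hQ, hQ2⟩

theorem frx_charP {p : ℕ} (hp : p.Prime) (Q : Ideal (𝓞 Qbar)) [Q.IsPrime]
    (h : (p : 𝓞 Qbar) ∈ Q) : CharP (𝓞 Qbar ⧸ Q) p := by
  have h0 : ((p : ℕ) : 𝓞 Qbar ⧸ Q) = 0 := by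
    have := (Ideal.Quotient.eq_zero_iff_mem (I := Q) (a := (p : 𝓞 Qbar))).mpr h
    simpa using this
  rcases (Nat.dvd_prime hp).mp (ringChar.dvd h0) with h1 | h1
  · exfalso
    have := ringChar.charP (𝓞 Qbar ⧸ Q)
    rw [h1] at this
    have h3 : ((1 : ℕ) : 𝓞 Qbar ⧸ Q) = 0 := CharP.cast_eq_zero _ _
    rw [Nat.cast_one] at h3
    exact one_ne_zero h3
  · rw [← h1]; exact ringChar.charP _

theorem frx_pow {p : ℕ} [Fact p.Prime] {R : Type*} [CommRing R]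
    [Algebra (ℤ ⧸ Ideal.span {(p : ℤ)}) R] (a : ℤ ⧸ Ideal.span {(p : ℤ)}) :
    (algebraMap (ℤ ⧸ Ideal.span {(p : ℤ)}) R a) ^ p = algebraMap (ℤ ⧸ Ideal.span {(p : ℤ)}) R a := by
  obtain ⟨n, rfl⟩ := Ideal.Quotient.mk_surjective a
  rw [← map_pow, ← map_pow]
  congr 1
  rw [Ideal.Quotient.eq, Ideal.mem_span_singleton, ← ZMod.intCast_zmod_eq_zero_iff_dvd]
  push_cast
  rw [ZMod.pow_card, sub_self]

/-- FRX -/
theorem frx {p : ℕ} (hp : p.Prime) : ∃ 𝔓 : Ideal (𝓞 Qbar), 𝔓.IsPrime ∧ (p : 𝓞 Qbar) ∈ 𝔓 ∧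
    ∃ σ : GQ, Induces 𝔓 p σ := by
  haveI : Fact p.Prime := ⟨hp⟩
  obtain ⟨Q, hQ, hQ2⟩ := frx_prime hp
  have hpQ : (p : 𝓞 Qbar) ∈ Q := by
    have : (p : ℤ) ∈ Q.comap (algebraMap ℤ (𝓞 Qbar)) := by
      rw [hQ2]; exact Ideal.mem_span_singleton_self _
    simpa using this
  haveI := hQ.isPrime
  refine ⟨Q, hQ.isPrime, hpQ, ?_⟩
  letI : TopologicalSpace (𝓞 Qbar) := ⊥
  haveI : DiscreteTopology (𝓞 Qbar) := ⟨rfl⟩
  haveI : ContinuousSMul GQ (𝓞 Qbar) := continuousSMul_iff_stabilizer_isOpen.mpr frx_stab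
  haveI : SMulCommClass GQ ℤ (𝓞 Qbar) := ⟨fun g a x =>
    map_zsmul (DistribMulAction.toAddMonoidHom (𝓞 Qbar) g) a x⟩
  haveI : Algebra.IsInvariant ℤ (𝓞 Qbar) GQ := ⟨frx_fixed⟩
  haveI : Q.LiesOver (Ideal.span {(p : ℤ)}) := ⟨hQ2.symm⟩
  haveI : CharP (𝓞 Qbar ⧸ Q) p := frx_charP hp Q hpQ
  haveI := frx_gal
  haveI := frx_alg
  have hmax : (Ideal.span {(p : ℤ)}).IsMaximal := Int.ideal_span_isMaximal_of_prime p
  letI := Ideal.Quotient.field (Ideal.span {(p : ℤ)})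
  letI := Ideal.Quotient.field Q
  haveI : Algebra.IsAlgebraic (ℤ ⧸ Ideal.span {(p : ℤ)}) (𝓞 Qbar ⧸ Q) := inferInstance
  haveI : Finite (ℤ ⧸ Ideal.span {(p : ℤ)}) := inferInstance
  haveI : PerfectField (𝓞 Qbar ⧸ Q) := Algebra.IsAlgebraic.perfectField (ℤ ⧸ Ideal.span {(p : ℤ)})
  have hbij : Function.Bijective (frobenius (𝓞 Qbar ⧸ Q) p) := bijective_frobenius _ p
  let φ : (𝓞 Qbar ⧸ Q) ≃ₐ[ℤ ⧸ Ideal.span {(p : ℤ)}] (𝓞 Qbar ⧸ Q) :=
    AlgEquiv.ofBijective ({ (frobenius (𝓞 Qbar ⧸ Q) p) with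
      commutes' := by
        intro a
        exact frx_pow (p := p) a }) hbij
  have hφ : ∀ x, φ x = x ^ p := fun x => rfl
  obtain ⟨⟨σ, hσ⟩, hσ2⟩ := Ideal.Quotient.stabilizerHom_surjective_of_profinite (G := GQ)
    (Ideal.span {(p : ℤ)}) Q φ
  refine ⟨σ, ?_⟩
  intro x y hxy
  have h1 := congrArg (fun f => f (Ideal.Quotient.mk Q x)) hσ2
  have h1' : Ideal.Quotient.stabilizerHom Q (Ideal.span {(p : ℤ)}) GQ ⟨σ, hσ⟩ (Ideal.Quotient.mk Q x) =
    (Ideal.Quotient.mk Q x) ^ p := by rw [← hφ]; exact h1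

  have h2 : y = σ • x := by
    apply NumberField.RingOfIntegers.coe_injective
    exact hxy
  rw [← Ideal.Quotient.eq_zero_iff_mem, map_sub, map_pow, sub_eq_zero, h2, ← h1']
  rfl

end Pool.Agent.DS
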