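import Pool.Agent.Lib_helper54.DS.Defs
import Pool.Agent.Lib_helper41.HZF.SFE
import Pool.Agent.Lib_helper41.HZF.LAM2
import Pool.Agent.Lib_helper41.HZF.INF
import Pool.Agent.Lib_helper54.DSF.CHB
import Pool.Agent.Lib_helper54.DSF.FRX

set_option autoImplicit false

namespace Pool.Agent.DS

open Polynomial NumberField Filter Topology MeasureTheory
open Pool.Agent.RS.Main (DirichletGE primeSum BoundedEigenform)

theorem cha_lies {L : Type} [Field L] [NumberField L] {p : ℕ} (hp : p.Prime)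
    (P : Ideal (𝓞 L)) (hP : P.IsPrime) (hpP : (p : 𝓞 L) ∈ P) :
    P.LiesOver (Ideal.span {(p : ℤ)}) := by
  have hmax : (Ideal.span {(p : ℤ)}).IsMaximal :=
    (Ideal.isPrime_of_prime (Ideal.prime_span_singleton_iff.mpr
      (Nat.prime_iff_prime_int.mp hp))).isMaximal (by simp [hp.ne_zero])
  constructor
  have hle : Ideal.span {(p : ℤ)} ≤ P.under ℤ := by
    rw [Ideal.span_singleton_le_iff_mem, Ideal.under_def, Ideal.mem_comap]
    simpa using hpP
  exact hmax.eq_of_le (Ideal.IsPrime.ne_top (Ideal.comap_isPrime _ _)) hle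

theorem cha_trans (L : Type) [Field L] [NumberField L] [IsGalois ℚ L] {p : ℕ} (hp : p.Prime)
    (P Q : Ideal (𝓞 L)) (hP : P.IsPrime) (hQ : Q.IsPrime) (hpP : (p : 𝓞 L) ∈ P)
    (hpQ : (p : 𝓞 L) ∈ Q) : ∃ τ : L ≃ₐ[ℚ] L, ∀ x : 𝓞 L, τ • x ∈ Q → x ∈ P := by
  have h1 := cha_lies hp P hP hpP
  have h2 := cha_lies hp Q hQ hpQ
  obtain ⟨τ, hτ⟩ := Ideal.exists_smul_eq_of_isGaloisGroup (Ideal.span ({(p : ℤ)} : Set ℤ)) P Q
    (L ≃ₐ[ℚ] L)
  refine ⟨τ, fun x hx => ?_⟩
  rw [← hτ] at hx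
  exact Ideal.smul_mem_pointwise_smul_iff.mp hx

theorem cha_unique {L : Type} [Field L] [NumberField L] {P : Ideal (𝓞 L)} {p : ℕ}
    {a b : L ≃ₐ[ℚ] L} (ha : Induces P p a) (hb : Induces P p b)
    (hin : ∀ τ : L ≃ₐ[ℚ] L, Induces P 1 τ → τ = 1) : a = b := by
  have h1 : Induces P 1 (a * b⁻¹) := by
    intro x y hy
    let z : 𝓞 L := b⁻¹ • x
    have hz : (z : L) = b⁻¹ x := rfl
    have h2 := ha z y (by rw [hy, hz]; rfl)
    have h3 := hb z x (by
      rw [hz]
      change _ = (b * b⁻¹) (x : L)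
      rw [mul_inv_cancel]
      rfl)
    have h4 := P.sub_mem h2 h3
    rw [pow_one]
    convert h4 using 1
    ring
  have h2 := hin _ h1
  exact mul_inv_eq_one.mp h2

theorem cha_conj {L : Type} [Field L] [NumberField L] {P Q : Ideal (𝓞 L)} {p : ℕ}
    {s τ : L ≃ₐ[ℚ] L} (hτ : ∀ x : 𝓞 L, τ • x ∈ Q → x ∈ P) (hs : Induces Q p s) :
    Induces P p (τ⁻¹ * s * τ) := by
  intro x y hy
  apply hτ
  rw [smul_sub, smul_pow']
  apply hs (τ • x) (τ • y)
  change τ (y : L) = s (τ (x : L))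
  rw [hy]
  change (τ * (τ⁻¹ * s * τ)) (x : L) = (s * τ) (x : L)
  congr 1
  group

theorem cha_restr (L : IntermediateField ℚ Qbar) [Normal ℚ L] (𝔓 : Ideal (𝓞 Qbar)) (m : ℕ)
    (σ : GQ) (h : Induces 𝔓 m σ) :
    Induces (𝔓.comap (algebraMap (𝓞 L) (𝓞 Qbar))) m (AlgEquiv.restrictNormalHom L σ) := by
  intro x y hy
  rw [Ideal.mem_comap, map_sub, map_pow]
  apply h
  change ((y : L) : Qbar) = σ ((x : L) : Qbar)
  rw [hy]
  exact AlgEquiv.restrictNormal_commutes σ L (x : L)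

theorem cha_key (L : IntermediateField ℚ Qbar) [NumberField L] [IsGalois ℚ L]
    {s : L ≃ₐ[ℚ] L} {p : ℕ} (hp : p ∈ FrobNF s) (𝔓 : Ideal (𝓞 Qbar)) (h𝔓 : 𝔓.IsPrime)
    (hp𝔓 : (p : 𝓞 Qbar) ∈ 𝔓) (σ : GQ) (hσ : Induces 𝔓 p σ) :
    ∃ τ : L ≃ₐ[ℚ] L, AlgEquiv.restrictNormalHom L σ = τ * s * τ⁻¹ := by
  obtain ⟨hpp, P, hP, hpP, hs, hin⟩ := hp
  have h1 := cha_restr L 𝔓 p σ hσ
  have hQ : (𝔓.comap (algebraMap (𝓞 L) (𝓞 Qbar))).IsPrime := Ideal.comap_isPrime _ _
  have hpQ : (p : 𝓞 L) ∈ 𝔓.comap (algebraMap (𝓞 L) (𝓞 Qbar)) := by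
    rw [Ideal.mem_comap, map_natCast]
    exact hp𝔓
  obtain ⟨τ, hτ⟩ := cha_trans L hpp P _ hP hQ hpP hpQ
  have h2 := cha_conj hτ h1
  have h3 := cha_unique h2 hs hin
  refine ⟨τ, ?_⟩
  rw [← h3]
  group

theorem cha_gal : IsGalois ℚ Qbar :=
  @IsAlgClosure.isGalois ℚ (AlgebraicClosure ℚ) _ _ (AlgebraicClosure.instAlgebra ℚ)
    (@AlgebraicClosure.instIsAlgClosure ℚ _) _

attribute [local instance] cha_gal

theorem cha_iso {G : Type} [Group G] [Finite G] (π : GQ →* G) (hπ : IsOpen (π.ker : Set GQ))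
    (hsurj : Function.Surjective π) :
    ∃ (L : IntermediateField ℚ Qbar) (_ : NumberField L) (_ : IsGalois ℚ L)
      (e : (L ≃ₐ[ℚ] L) ≃* G), ∀ σ : GQ, e (AlgEquiv.restrictNormalHom L σ) = π σ := by
  let H : ClosedSubgroup GQ := ⟨π.ker, Subgroup.isClosed_of_isOpen _ hπ⟩
  have hfix : (IntermediateField.fixedField H.1).fixingSubgroup = π.ker :=
    InfiniteGalois.fixingSubgroup_fixedField H
  have hnorm : (H.1).Normal := (inferInstance : π.ker.Normal)
  have hgal : IsGalois ℚ (IntermediateField.fixedField H.1) := by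
    have h := (InfiniteGalois.normal_iff_isGalois (IntermediateField.fixedField H.1)).mp
      (by rw [hfix]; exact hnorm)
    exact h
  have hfin : FiniteDimensional ℚ (IntermediateField.fixedField H.1) := by
    have h := (InfiniteGalois.isOpen_iff_finite (IntermediateField.fixedField H.1)).mp (by
      change IsOpen ((IntermediateField.fixedField H.1).fixingSubgroup : Set GQ)
      rw [hfix]
      exact hπ)
    exact h
  have hnf : NumberField (IntermediateField.fixedField H.1) :=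
    { to_finiteDimensional := hfin }
  have hker : (AlgEquiv.restrictNormalHom (F := ℚ) (K₁ := Qbar)
      (IntermediateField.fixedField H.1)).ker = π.ker := by
    rw [← hfix]
    exact IntermediateField.restrictNormalHom_ker _
  have hrs : Function.Surjective (AlgEquiv.restrictNormalHom (F := ℚ) (K₁ := Qbar)
      (IntermediateField.fixedField H.1)) := AlgEquiv.restrictNormalHom_surjective Qbar
  refine ⟨IntermediateField.fixedField H.1, hnf, hgal,
    (QuotientGroup.quotientKerEquivOfSurjective _ hrs).symm.trans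
      ((QuotientGroup.quotientMulEquivOfEq hker).trans
        (QuotientGroup.quotientKerEquivOfSurjective π hsurj)), ?_⟩
  intro σ
  have h1 : (QuotientGroup.quotientKerEquivOfSurjective _ hrs).symm
      (AlgEquiv.restrictNormalHom (IntermediateField.fixedField H.1) σ) = QuotientGroup.mk σ := by
    rw [MulEquiv.symm_apply_eq]
    rfl
  rw [MulEquiv.trans_apply, h1, MulEquiv.trans_apply]
  rfl

theorem cha_class {Γ : Type} [Group Γ] [Finite Γ] (x : Γ) :
    Nat.card {y : Γ // ∃ g : Γ, y = g * x * g⁻¹} * Nat.card (Subgroup.centralizer {x}) =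
      Nat.card Γ := by
  classical
  have := Fintype.ofFinite Γ
  have := Fintype.ofFinite (ConjAct Γ)
  have h1 := MulAction.card_orbit_mul_card_stabilizer_eq_card_group (ConjAct Γ) x
  rw [Subgroup.nat_card_centralizer_nat_card_stabilizer]
  rw [← Nat.card_eq_fintype_card, ← Nat.card_eq_fintype_card, ← Nat.card_eq_fintype_card] at h1
  have h2 : Nat.card (ConjAct Γ) = Nat.card Γ := Nat.card_congr ConjAct.ofConjAct.toEquiv
  rw [h2] at h1
  rw [← h1]
  congr 1
  apply Nat.card_congr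
  refine Equiv.subtypeEquivRight ?_
  intro y
  rw [MulAction.mem_orbit_iff]
  constructor
  · rintro ⟨g, rfl⟩
    exact ⟨ConjAct.toConjAct g, by rw [ConjAct.toConjAct_smul]⟩
  · rintro ⟨g, rfl⟩
    exact ⟨ConjAct.ofConjAct g, by rw [← ConjAct.smul_def]⟩

theorem cha_summable {s : ℝ} (hs : 1 < s) (S : Set ℕ) :
    Summable fun p : Nat.Primes => S.indicator (fun q : ℕ => (q : ℝ) ^ (-s)) p := by
  have h1 : Summable fun p : Nat.Primes => ((p : ℕ) : ℝ) ^ (-s) :=
    Nat.Primes.summable_rpow.mpr (by linarith)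
  apply h1.of_nonneg_of_le
  · intro p; exact Set.indicator_nonneg (fun q _ => Real.rpow_nonneg (Nat.cast_nonneg q) _) _
  · intro p
    exact Set.indicator_le_self' (fun q _ => Real.rpow_nonneg (Nat.cast_nonneg q) _) _

theorem cha_sum {Γ : Type} [Group Γ] [Finite Γ] (F : Γ → Set ℕ) (C : Set Γ) (T : Set ℕ)
    (hF : ∀ x ∈ C, ∀ p : ℕ, p.Prime → p ∈ F x → p ∈ T)
    (hF2 : ∀ x y p, p.Prime → p ∈ F x → p ∈ F y → ∃ g : Γ, y = g * x * g⁻¹)
    (hD : ∀ x (δ : ℝ), 0 ≤ δ → δ < 1 / (Nat.card (Subgroup.centralizer {x}) : ℝ) →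
      DirichletGE (F x) δ)
    {δ : ℝ} (h0 : 0 ≤ δ) (hδ : δ < (Nat.card C : ℝ) / Nat.card Γ) : DirichletGE T δ := by
  classical
  have := Fintype.ofFinite Γ
  set m : Γ → ℝ := fun x => (Nat.card {y : Γ // ∃ g : Γ, y = g * x * g⁻¹} : ℝ) with hm
  have hmne : ∀ x, 0 < Nat.card {y : Γ // ∃ g : Γ, y = g * x * g⁻¹} := by
    intro x
    have : Nonempty {y : Γ // ∃ g : Γ, y = g * x * g⁻¹} := ⟨⟨x, 1, by group⟩⟩
    exact Nat.card_pos
  have hmpos : ∀ x, 0 < m x := fun x => by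
    change (0 : ℝ) < (Nat.card {y : Γ // ∃ g : Γ, y = g * x * g⁻¹} : ℝ)
    exact_mod_cast hmne x
  have hcen : ∀ x : Γ, 0 < (Nat.card (Subgroup.centralizer {x}) : ℝ) := by
    intro x
    have : 0 < Nat.card (Subgroup.centralizer {x}) := Nat.card_pos
    exact_mod_cast this
  have hmc : ∀ x, m x * (Nat.card (Subgroup.centralizer {x}) : ℝ) = Nat.card Γ := by
    intro x
    have := cha_class x
    change (Nat.card {y : Γ // ∃ g : Γ, y = g * x * g⁻¹} : ℝ) * _ = _
    exact_mod_cast this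
  have hΓ : (0 : ℝ) < Nat.card Γ := by
    have : 0 < Nat.card Γ := Nat.card_pos
    exact_mod_cast this
  set Cf : Finset Γ := Finset.univ.filter (· ∈ C) with hCf
  have hCc : (Nat.card C : ℝ) = Cf.card := by
    rw [hCf, ← Fintype.card_subtype, Nat.card_eq_fintype_card]
  have hCpos : (0 : ℝ) < Cf.card := by
    rw [hCc] at hδ
    by_contra h
    push Not at h
    have h1 : ((Cf.card : ℝ)) / Nat.card Γ ≤ 0 := div_nonpos_of_nonpos_of_nonneg h hΓ.le
    linarith
  set θ : ℝ := δ * Nat.card Γ / Cf.card with hθ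
  have hθ0 : 0 ≤ θ := by positivity
  have hθ1 : θ < 1 := by
    rw [hθ, div_lt_one hCpos]
    rw [hCc, lt_div_iff₀ hΓ] at hδ
    exact hδ
  have hK : ∀ x : Γ, ∃ K : ℝ, ∀ s : ℝ, 1 < s →
      θ / (Nat.card (Subgroup.centralizer {x}) : ℝ) * Real.log (1 / (s - 1)) - K ≤
        primeSum (F x) s := by
    intro x
    exact hD x _ (div_nonneg hθ0 (hcen x).le) (div_lt_div_of_pos_right hθ1 (hcen x))
  choose K hK using hK
  refine ⟨∑ x ∈ Cf, 1 / m x * K x, fun s hs => ?_⟩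
  have hkey : ∑ x ∈ Cf, 1 / m x * primeSum (F x) s ≤ primeSum T s := by
    have h1 : ∀ x ∈ Cf, 1 / m x * primeSum (F x) s = ∑' p : Nat.Primes, 1 / m x *
        (F x).indicator (fun q : ℕ => (q : ℝ) ^ (-s)) p := by
      intro x _
      rw [primeSum, tsum_mul_left]
    rw [Finset.sum_congr rfl h1, ← Summable.tsum_finsetSum
      (fun x _ => (cha_summable hs (F x)).mul_left _)]
    refine Summable.tsum_le_tsum ?_ (summable_sum fun x _ => (cha_summable hs (F x)).mul_left _)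
      (cha_summable hs T)
    intro p
    by_cases hex : ∃ x ∈ Cf, (p : ℕ) ∈ F x
    · obtain ⟨x₀, hx₀, hp₀⟩ := hex
      have hT : (p : ℕ) ∈ T := hF x₀ (Finset.mem_filter.mp hx₀).2 p p.2 hp₀
      rw [Set.indicator_of_mem hT]
      have hm0 : ∀ x ∈ Cf, (p : ℕ) ∈ F x → m x = m x₀ := by
        intro x _ hpx
        obtain ⟨g, hg⟩ := hF2 x₀ x p p.2 hp₀ hpx
        rw [hm]
        simp only
        congr 1
        apply Nat.card_congr
        refine Equiv.subtypeEquivRight ?_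
        intro y
        constructor
        · rintro ⟨g', rfl⟩
          exact ⟨g' * g, by rw [hg]; group⟩
        · rintro ⟨g', rfl⟩
          refine ⟨g' * g⁻¹, by rw [hg]; group⟩
      calc ∑ x ∈ Cf, 1 / m x * (F x).indicator (fun q : ℕ => (q : ℝ) ^ (-s)) (p : ℕ)
          = ∑ x ∈ Cf.filter (fun x => (p : ℕ) ∈ F x), 1 / m x₀ * ((p : ℕ) : ℝ) ^ (-s) := by
            rw [Finset.sum_filter (s := Cf)]
            refine Finset.sum_congr rfl fun x hx => ?_
            split_ifs with hpx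
            · rw [Set.indicator_of_mem hpx, hm0 x hx hpx]
            · rw [Set.indicator_of_notMem hpx, mul_zero]
        _ = ((Cf.filter (fun x => (p : ℕ) ∈ F x)).card / m x₀) * ((p : ℕ) : ℝ) ^ (-s) := by
            rw [Finset.sum_const, nsmul_eq_mul]; ring
        _ ≤ 1 * ((p : ℕ) : ℝ) ^ (-s) := by
            refine mul_le_mul_of_nonneg_right ?_ (Real.rpow_nonneg (Nat.cast_nonneg _) _)
            rw [div_le_one (hmpos x₀)]
            change _ ≤ (Nat.card {y : Γ // ∃ g : Γ, y = g * x₀ * g⁻¹} : ℝ)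
            have hle : (Cf.filter (fun x => (p : ℕ) ∈ F x)).card ≤
                Nat.card {y : Γ // ∃ g : Γ, y = g * x₀ * g⁻¹} := by
              rw [Nat.card_eq_fintype_card, Fintype.card_subtype]
              refine Finset.card_le_card ?_
              intro x hx
              rw [Finset.mem_filter] at hx
              rw [Finset.mem_filter]
              exact ⟨Finset.mem_univ _, hF2 x₀ x p p.2 hp₀ hx.2⟩
            exact_mod_cast hle
        _ = _ := one_mul _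
    · push Not at hex
      rw [Finset.sum_eq_zero (fun x hx => by
        rw [Set.indicator_of_notMem (hex x hx), mul_zero])]
      exact Set.indicator_nonneg (fun q _ => Real.rpow_nonneg (Nat.cast_nonneg q) _) _
  refine le_trans ?_ hkey
  have h2 : ∑ x ∈ Cf, 1 / m x * (θ / (Nat.card (Subgroup.centralizer {x}) : ℝ) *
      Real.log (1 / (s - 1)) - K x) ≤ ∑ x ∈ Cf, 1 / m x * primeSum (F x) s := by
    refine Finset.sum_le_sum fun x _ => ?_
    exact mul_le_mul_of_nonneg_left (hK x s hs) (by have := hmpos x; positivity)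
  refine le_trans (le_of_eq ?_) h2
  simp_rw [mul_sub]
  rw [Finset.sum_sub_distrib]
  congr 1
  have h3 : ∀ x ∈ Cf, 1 / m x * (θ / (Nat.card (Subgroup.centralizer {x}) : ℝ) *
      Real.log (1 / (s - 1))) = θ / Nat.card Γ * Real.log (1 / (s - 1)) := by
    intro x _
    have h4 := hmpos x
    have h5 := hcen x
    rw [← hmc x]
    field_simp
  rw [Finset.sum_congr rfl h3, Finset.sum_const, nsmul_eq_mul, hθ]
  field_simp

/-- CHA (Chebotarev's density theorem) -/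
theorem cha {G : Type} [Group G] [Finite G] (π : GQ →* G) (hπ : IsOpen (π.ker : Set GQ))
    (hsurj : Function.Surjective π) (C : Set G) (hC : ∀ x ∈ C, ∀ g : G, g * x * g⁻¹ ∈ C)
    {δ : ℝ} (h0 : 0 ≤ δ) (hδ : δ < (Nat.card C : ℝ) / Nat.card G) :
    DirichletGE (FrobIn (π ⁻¹' C)) δ := by
  obtain ⟨L, hL, hgal, e, he⟩ := cha_iso π hπ hsurj
  have hfin : Finite (L ≃ₐ[ℚ] L) := Finite.of_equiv G e.symm.toEquiv
  refine cha_sum (fun s : L ≃ₐ[ℚ] L => FrobNF s) (e ⁻¹' C) _ ?_ ?_ ?_ h0 ?_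
  · intro s hs p _ hp 𝔓 h𝔓 hp𝔓 σ hσ
    obtain ⟨τ, hτ⟩ := cha_key L hp 𝔓 h𝔓 hp𝔓 σ hσ
    change π σ ∈ C
    rw [← he, hτ, map_mul, map_mul, map_inv]
    exact hC _ hs _
  · intro s t p hpp hps hpt
    obtain ⟨𝔓, h𝔓, hp𝔓, σ, hσ⟩ := frx hpp
    obtain ⟨τ, hτ⟩ := cha_key L hps 𝔓 h𝔓 hp𝔓 σ hσ
    obtain ⟨τ', hτ'⟩ := cha_key L hpt 𝔓 h𝔓 hp𝔓 σ hσ
    refine ⟨τ'⁻¹ * τ, ?_⟩
    have h1 : τ * s * τ⁻¹ = τ' * t * τ'⁻¹ := hτ.symm.trans hτ'
    calc t = τ'⁻¹ * (τ' * t * τ'⁻¹) * τ' := by group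
      _ = τ'⁻¹ * (τ * s * τ⁻¹) * τ' := by rw [h1]
      _ = _ := by group
  · intro s δ' h1 h2
    exact chb L s h1 h2
  · have h1 : Nat.card (L ≃ₐ[ℚ] L) = Nat.card G := Nat.card_congr e.toEquiv
    have h2 : Nat.card (e ⁻¹' C) = Nat.card C := by
      apply Nat.card_congr
      exact e.toEquiv.subtypeEquiv (fun x => Iff.rfl)
    rw [h1, h2]
    exact hδ

end Pool.Agent.DS
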