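import Pool.Agent.Lib_helper54.DS.Defs
import Pool.Agent.Lib_helper41.HZF.SFE
import Pool.Agent.Lib_helper41.HZF.LAM2
import Pool.Agent.Lib_helper41.HZF.INF
import Pool.Agent.Lib_helper54.DSF.CHA
import Pool.Agent.Lib_helper54.DSF.FRX

set_option autoImplicit false

namespace Pool.Agent.DS

open Polynomial NumberField Filter Topology MeasureTheory
open Pool.Agent.RS.Main (DirichletGE primeSum BoundedEigenform)

theorem chx_sum_le (S : Set ℕ) (P : Finset ℕ) (h : ∀ p ∈ S, p.Prime → p ∈ P) {s : ℝ} (hs : 1 < s) :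
    primeSum S s ≤ P.card := by
  classical
  unfold primeSum
  have hinj : Set.InjOn (fun p : Nat.Primes => (p : ℕ)) ((fun p : Nat.Primes => (p : ℕ)) ⁻¹' (P : Set ℕ)) :=
    fun a _ b _ hab => Subtype.ext hab
  rw [tsum_eq_sum (s := P.preimage (fun p : Nat.Primes => (p : ℕ)) hinj)]
  · calc _ ≤ ∑ _p ∈ P.preimage (fun p : Nat.Primes => (p : ℕ)) hinj, (1 : ℝ) := by
          apply Finset.sum_le_sum
          intro p _
          apply Set.indicator_apply_le' (fun _ => ?_) (fun _ => zero_le_one)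
          apply Real.rpow_le_one_of_one_le_of_nonpos _ (by linarith)
          exact_mod_cast p.2.one_lt.le
      _ = ((P.preimage (fun p : Nat.Primes => (p : ℕ)) hinj).card : ℝ) := by simp
      _ ≤ P.card := by
          exact_mod_cast Finset.card_le_card_of_injOn (fun p : Nat.Primes => (p : ℕ))
            (fun p hp => by simpa using hp) (fun a _ b _ hab => Subtype.ext hab)
  · intro p hp
    apply Set.indicator_of_notMem
    intro hpS
    exact hp (by simpa using h p hpS p.2)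

theorem chx_infinite {S : Set ℕ} {δ : ℝ} (hδ : 0 < δ) (h : DirichletGE S δ) (P : Finset ℕ) :
    ∃ p : ℕ, p.Prime ∧ p ∉ P ∧ p ∈ S := by
  by_contra hcon
  push Not at hcon
  have hle : ∀ p ∈ S, p.Prime → p ∈ P := by
    intro p hp hpp
    by_contra hn
    exact hcon p hpp hn hp
  obtain ⟨C, hC⟩ := h
  set A : ℝ := (P.card + |C| + 1) / δ with hA
  have hApos : 0 < A := by positivity
  have h1 := hC (1 + Real.exp (-A)) (by linarith [Real.exp_pos (-A)])
  have h2 := chx_sum_le S P hle (s := 1 + Real.exp (-A)) (by linarith [Real.exp_pos (-A)])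
  have h3 : Real.log (1 / (1 + Real.exp (-A) - 1)) = A := by
    rw [add_sub_cancel_left, one_div, Real.log_inv, Real.log_exp, neg_neg]
  rw [h3, hA] at h1
  have h4 : δ * ((P.card + |C| + 1) / δ) = P.card + |C| + 1 := by
    field_simp
  rw [h4] at h1
  have := le_abs_self C
  linarith

/-- CHX -/
theorem chx {G : Type} [Group G] [Finite G] (π : GQ →* G) (hπ : IsOpen (π.ker : Set GQ))
    (x : GQ) (P : Finset ℕ) :
    ∃ p : ℕ, p.Prime ∧ p ∉ P ∧ ∃ 𝔓 : Ideal (𝓞 Qbar), 𝔓.IsPrime ∧ (p : 𝓞 Qbar) ∈ 𝔓 ∧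
      ∃ σ : GQ, Induces 𝔓 p σ ∧ ∃ y : GQ, π σ = π (y * x * y⁻¹) := by
  have hker : π.rangeRestrict.ker = π.ker := MonoidHom.ker_rangeRestrict π
  let C : Set π.range := {g | ∃ y : GQ, g = π.rangeRestrict (y * x * y⁻¹)}
  have hCne : Nonempty C := ⟨⟨π.rangeRestrict (1 * x * 1⁻¹), ⟨1, rfl⟩⟩⟩
  have hCpos : 0 < Nat.card C := Nat.card_pos
  have hGpos : 0 < Nat.card π.range := Nat.card_pos
  have hpos : 0 < (Nat.card C : ℝ) / Nat.card π.range := by positivity
  have hcheb := cha π.rangeRestrict (by rw [hker]; exact hπ) π.rangeRestrict_surjective C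
    (by
      rintro g ⟨y, rfl⟩ z
      obtain ⟨w, rfl⟩ := π.rangeRestrict_surjective z
      refine ⟨w * y, ?_⟩
      rw [← map_mul, ← map_inv, ← map_mul]
      exact congrArg _ (by group))
    (δ := (Nat.card C : ℝ) / Nat.card π.range / 2) (by positivity) (by linarith)
  obtain ⟨p, hp, hpP, hpS⟩ := chx_infinite (by positivity) hcheb P
  obtain ⟨𝔓, h1, h2, σ, h3⟩ := frx hp
  refine ⟨p, hp, hpP, 𝔓, h1, h2, σ, h3, ?_⟩
  obtain ⟨y, hy⟩ := hpS 𝔓 h1 h2 σ h3
  refine ⟨y, ?_⟩
  have := congrArg Subtype.val hy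
  simpa using this

end Pool.Agent.DS
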